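import Pool.Agent.Lib.MP_9cec2c_lc.SL.Frege

/-!
Campaign FS, definitions of the statement: proofs in memory, the height of a derivation, tree-like
derivations, pseudo-expectations, random 3-CNFs.
-/

set_option autoImplicit false

open Finset

namespace Pool.Agent.MP_9cec2c_lc.SL

/-- The total size of a list of formulas. -/
def total {X : Type} (M : List (Form X)) : ℕ := (M.map Form.size).sum

/-- One step of a proof in memory, with hypotheses `Φ`: every formula of the new configuration `M'`
is in the old configuration `M` or in `Φ` or follows by a rule in `S` from formulas in `M`. -/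
def Step {X : Type} (S : Set Rule) (Φ : Set (Form X)) (M M' : List (Form X)) : Prop :=
  ∀ A ∈ M', A ∈ M ∨ A ∈ Φ ∨ ∃ R ∈ S, ∃ σ : ℕ → Form X, R.concl.subst σ = A ∧
    ∀ P ∈ R.prems, P.subst σ ∈ M

/-- The formulas `L 0, …, L (l - 1)` form a derivation by the rules in `S` from `Φ` of height at most
`h`: every line belongs to `Φ` or follows by a rule from lines of smaller height. -/
def IsDerivationH {X : Type} (S : Set Rule) (Φ : Set (Form X)) (h : ℕ) {l : ℕ}
    (L : Fin l → Form X) : Prop :=
  ∃ ht : Fin l → ℕ, (∀ i, ht i ≤ h) ∧ ∀ i, L i ∈ Φ ∨ ∃ R ∈ S, ∃ σ : ℕ → Form X,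
    R.concl.subst σ = L i ∧ ∀ P ∈ R.prems, ∃ j, ht j < ht i ∧ L j = P.subst σ

/-- There is a tree-like derivation of the formula by the rules in `S` from `Φ` with `n` lines, all of
size at most `s`. -/
inductive Tree {X : Type} (S : Set Rule) (Φ : Set (Form X)) (s : ℕ) : ℕ → Form X → Prop
  | hyp (A : Form X) (hA : A ∈ Φ) (hs : A.size ≤ s) : Tree S Φ s 1 A
  | rule (R : Rule) (hR : R ∈ S) (σ : ℕ → Form X) (n : Fin R.prems.length → ℕ)
      (h : ∀ i, Tree S Φ s (n i) ((R.prems.get i).subst σ)) (hs : (R.concl.subst σ).size ≤ s) :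
      Tree S Φ s (1 + ∑ i, n i) (R.concl.subst σ)

/-- The formulas which refute the CNF `F`, if they are derived from `Hyp b F`: the constant false, and
the negations of the conjunctions of formulas in `Hyp b F`. -/
def Refuting {X : Type} (b : ℕ) (F : List (List (X × Bool))) : Set (Form X) :=
  {A | A = Form.ff ∨ ∃ φ, IsConj (Hyp b F) φ ∧ A = Form.neg φ}

/-- The real functions on `{0,1}^X` of degree at most `d`: the linear combinations of products of at
most `d` variables. -/
def Poly (X : Type) (d : ℕ) : Submodule ℝ ((X → Bool) → ℝ) :=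
  Submodule.span ℝ {f | ∃ T : Finset X, T.card ≤ d ∧
    f = fun x => if ∀ i ∈ T, x i = true then 1 else 0}

/-- The CNF `F` has a pseudo-expectation of degree `D`: a linear functional `E` with `E 1 = 1` which is
nonnegative on the squares of the functions of degree at most `D` and vanishes on the indicator
functions of the falsity of the clauses. -/
def HasPE {X : Type} (F : List (List (X × Bool))) (D : ℕ) : Prop :=
  ∃ E : ((X → Bool) → ℝ) →ₗ[ℝ] ℝ, E 1 = 1 ∧ (∀ f ∈ Poly X D, 0 ≤ E (f * f)) ∧
    ∀ C ∈ F, E (fun x => if ∀ l ∈ C, x l.1 ≠ l.2 then 1 else 0) = 0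

open Classical in
/-- At least `|U| / K` edges leave every set `U` of at most half of the vertices. -/
def MG.Expander {V E : Type} [Fintype V] [Fintype E] (G : MG V E) (K : ℕ) : Prop :=
  ∀ U : Finset V, 2 * U.card ≤ Fintype.card V →
    U.card ≤ K * (univ.filter fun e => ¬ (G.src e ∈ U ↔ G.dst e ∈ U)).card

/-- A 3-clause in `N` variables: three distinct variables and three signs. -/
abbrev Clause3 (N : ℕ) : Type := (Fin 3 ↪ Fin N) × (Fin 3 → Bool)

/-- The CNF with the clauses `c 0, …, c (M - 1)`. -/
def cnf3 {N M : ℕ} (c : Fin M → Clause3 N) : List (List (Fin N × Bool)) :=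
  List.ofFn fun j => List.ofFn fun i => ((c j).1 i, (c j).2 i)

open Classical in
/-- The probability of an event for `M` independent random 3-clauses in `N` variables. -/
noncomputable def prob {N M : ℕ} (Q : (Fin M → Clause3 N) → Prop) : ℝ :=
  ((univ.filter Q).card : ℝ) / Fintype.card (Fin M → Clause3 N)

end Pool.Agent.MP_9cec2c_lc.SL
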