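import Pool.Agent.Lib.MP_9cec2c_lc.SL.Levels
import Pool.Agent.Lib.MP_9cec2c_lc.SL.Dual
import Pool.Agent.Lib.MP_9cec2c_lc.SL.Nnf
import Pool.Agent.Lib.MP_9cec2c_lc.FS.Defs

/-!
Campaign FS, definitions: valuations with duals, conditioning of a world, conjunctions of lists.
-/

set_option autoImplicit false

open Finset

namespace Pool.Agent.MP_9cec2c_lc.SL

noncomputable section

/-- `v` is a valuation of the formulas in negation normal form of size at most `s`, with parameters
`c`, `ε`, `L`, and exact duals of literals. -/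
structure World.Good {R : Type} [CommRing R] [Algebra ℝ R] (W : World R) {X : Type}
    (v : Fm (X × Bool) → R) (s c : ℕ) (ε : ℝ) (L : ℕ) : Prop where
  val : W.IsVal v s c ε L
  lit : ∀ y, v (Fm.lit (flip y)) = 1 - v (Fm.lit y)
  pos : 0 ≤ ε
  height : L + 2 * c ≤ W.D
  small : 4 * (s : ℝ) * ε ≤ 1
  one : 1 ≤ s

/-- The world `W` conditioned by `g`: the functional is `f ↦ E (g g f) / E (g g)`. -/
def World.cond {R : Type} [CommRing R] [Algebra ℝ R] (W : World R) (g : R) (a : ℕ)
    (hg : g ∈ W.F a) (ha : a ≤ W.D) (h0 : W.N g ≠ 0) : World R where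
  F := W.F
  F_mono := W.F_mono
  one_mem := W.one_mem
  mul_mem := W.mul_mem
  E := (W.E (g * g))⁻¹ • (W.E.comp (LinearMap.mulLeft ℝ (g * g)))
  E_one := by
    have h1 : 0 ≤ W.E (g * g) := W.pos g (W.F_mono _ _ ha hg)
    have h2 : W.E (g * g) ≠ 0 := by
      intro h
      exact h0 (by unfold World.N; rw [h, Real.sqrt_zero])
    simp only [LinearMap.smul_apply, LinearMap.comp_apply, LinearMap.mulLeft_apply, mul_one,
      smul_eq_mul]
    exact inv_mul_cancel₀ h2
  D := W.D - a
  pos := by
    intro f hf
    have h1 : 0 ≤ W.E (g * g) := W.pos g (W.F_mono _ _ ha hg)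
    have h3 : g * f ∈ W.F W.D := by
      have := W.mul_mem a (W.D - a) g f hg hf
      rwa [show a + (W.D - a) = W.D by omega] at this
    have h4 := W.pos _ h3
    simp only [LinearMap.smul_apply, LinearMap.comp_apply, LinearMap.mulLeft_apply, smul_eq_mul]
    refine mul_nonneg (inv_nonneg.2 h1) ?_
    rw [show g * g * (f * f) = g * f * (g * f) by ring]
    exact h4

/-- The conjunction of a list of formulas. -/
def conjF {X : Type} (M : List (Form X)) : Form X := M.foldr Form.and Form.tt

/-- The value of the conjunction of a list. -/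
def World.Q {R : Type} {X : Type} (v : Fm (X × Bool) → R) (M : List (Form X)) : R :=
  v (nnf (conjF M))

end

end Pool.Agent.MP_9cec2c_lc.SL
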