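import Pool.Agent.Lib.MP_9cec2c_lc.FS.Abs

/-!
Definitions and TASK Bool: the algebra of real functions on `{0,1}^X` with the filtration `Poly X`.

`Poly_mul`: `Submodule.span_induction` twice (or `Submodule.mul_induction`-style): the product of the
generators for `T` and `T'` is the generator for `T ∪ T'`. `xb_mem`: `xb (x, true)` is the generator of `{x}`,
`xb (x, false) = 1 - ` it. `dual_valB`, `nnf_valB`: as `dual_val`, `nnf_val` in SL/Nnf.lean (copy the
proofs).
`viol_mem`: the product of `1 - xb l` over `l ∈ C` (induction on `C`).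
`hyp_nullB`: let `V = viol C`, `V V = V`, `E V = 0` so `N V = 0`; `1 - fn φ` is 1 only where `V` is 1, so
`(1 - fn φ) g = V ((1 - fn φ) g)`; `N_mul_null` with `z = V ∈ F w`, `f = (1 - fn φ) g ∈ F (b + a)` (`nnf_valB`,
`val_mem` with `nnf_size`).
-/

set_option autoImplicit false

open Finset
open scoped Classical

namespace Pool.Agent.MP_9cec2c_lc.SL

/-- The literal `l` as a real function. -/
noncomputable def xb {X : Type} (l : X × Bool) : (X → Bool) → ℝ := fun x => if x l.1 = l.2 then 1 else 0

/-- The indicator function of the falsity of a clause. -/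
noncomputable def viol {X : Type} (C : List (X × Bool)) : (X → Bool) → ℝ :=
  fun x => if ∀ l ∈ C, x l.1 ≠ l.2 then 1 else 0

theorem Poly_mono {X : Type} {a b : ℕ} (h : a ≤ b) : Poly X a ≤ Poly X b := by
  refine Submodule.span_mono ?_
  rintro f ⟨T, hT, hf⟩
  exact ⟨T, hT.trans h, hf⟩

theorem Poly_one (X : Type) : (1 : (X → Bool) → ℝ) ∈ Poly X 0 := by
  refine Submodule.subset_span ⟨∅, ?_, ?_⟩
  · simp
  · funext x
    simp

theorem Poly_mul {X : Type} {a b : ℕ} {f g : (X → Bool) → ℝ} (hf : f ∈ Poly X a)
    (hg : g ∈ Poly X b) : f * g ∈ Poly X (a + b) := by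
  unfold Poly at hf hg
  induction hf using Submodule.span_induction with
  | mem f hf =>
    obtain ⟨T, hT, rfl⟩ := hf
    induction hg using Submodule.span_induction with
    | mem g hg =>
      obtain ⟨T', hT', rfl⟩ := hg
      refine Submodule.subset_span ⟨T ∪ T', (card_union_le _ _).trans (by omega), ?_⟩
      funext x
      simp only [Pi.mul_apply, mem_union]
      by_cases h : ∀ i ∈ T, x i = true
      · by_cases h' : ∀ i ∈ T', x i = true
        · rw [if_pos h, if_pos h', if_pos, mul_one]
          rintro i (hi | hi)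
          · exact h i hi
          · exact h' i hi
        · rw [if_neg h', mul_zero, if_neg (fun hh => h' (fun i hi => hh i (Or.inr hi)))]
      · rw [if_neg h, zero_mul, if_neg (fun hh => h (fun i hi => hh i (Or.inl hi)))]
    | zero => rw [mul_zero]; exact Submodule.zero_mem _
    | add x y _ _ hx hy => rw [mul_add]; exact Submodule.add_mem _ hx hy
    | smul c x _ hx => rw [mul_smul_comm]; exact Submodule.smul_mem _ _ hx
  | zero => rw [zero_mul]; exact Submodule.zero_mem _
  | add x y _ _ hx hy => rw [add_mul]; exact Submodule.add_mem _ hx hy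
  | smul c x _ hx => rw [smul_mul_assoc]; exact Submodule.smul_mem _ _ hx

theorem xb_idem {X : Type} (l : X × Bool) : xb l * xb l = xb l := by
  funext x
  simp only [Pi.mul_apply, xb]
  split_ifs <;> norm_num

theorem xb_flip {X : Type} (l : X × Bool) : xb (flip l) = 1 - xb l := by
  obtain ⟨e, b⟩ := l
  funext x
  simp only [Pi.sub_apply, Pi.one_apply, xb, flip]
  cases b <;> rcases Bool.eq_false_or_eq_true (x e) with h | h <;> simp [h]

theorem Bool_pos {X : Type} (e : X) : xb (e, true) ∈ Poly X 1 := by
  refine Submodule.subset_span ⟨{e}, by simp, ?_⟩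
  funext x
  simp only [xb, mem_singleton, forall_eq]

theorem xb_mem {X : Type} (l : X × Bool) : xb l ∈ Poly X 1 := by
  obtain ⟨e, b⟩ := l
  cases b
  · have h : xb (e, false) = 1 - xb (e, true) := by
      have := xb_flip (e, true)
      simpa only [flip, Bool.not_true] using this
    rw [h]
    exact Submodule.sub_mem _ (Poly_mono (Nat.zero_le 1) (Poly_one X)) (Bool_pos e)
  · exact Bool_pos e

theorem dual_valB {X : Type} (A : Fm (X × Bool)) :
    (A.dual flip).val (R := (X → Bool) → ℝ) xb = 1 - A.val xb := by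
  induction A with
  | lit l => exact xb_flip l
  | tt => simp only [Fm.dual, Fm.val, sub_self]
  | ff => simp only [Fm.dual, Fm.val, sub_zero]
  | and A B ihA ihB =>
    simp only [Fm.dual, Fm.val, ihA, ihB]
    ring
  | or A B ihA ihB =>
    simp only [Fm.dual, Fm.val, ihA, ihB]
    ring

theorem nnf_valB {X : Type} (A : Form X) :
    (nnf A).val (R := (X → Bool) → ℝ) xb = fun x => ind (A.eval x) := by
  induction A with
  | var e =>
    funext x
    simp only [nnf, Fm.val, xb, Form.eval, ind]
    by_cases h : x e = true <;> simp [h]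
  | tt =>
    funext x
    simp [nnf, Fm.val, Form.eval, ind]
  | ff =>
    funext x
    simp [nnf, Fm.val, Form.eval, ind]
  | neg A ih =>
    rw [nnf, dual_valB, ih]
    funext x
    simp only [Pi.sub_apply, Pi.one_apply, Form.eval]
    cases Form.eval x A <;> simp [ind]
  | and A B ihA ihB =>
    rw [nnf, Fm.val, ihA, ihB]
    funext x
    simp only [Pi.mul_apply, Form.eval]
    cases Form.eval x A <;> cases Form.eval x B <;> simp [ind]
  | or A B ihA ihB =>
    rw [nnf, Fm.val, ihA, ihB]
    funext x
    simp only [Pi.mul_apply, Pi.add_apply, Pi.sub_apply, Form.eval]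
    cases Form.eval x A <;> cases Form.eval x B <;> simp [ind]
  | imp A B ihA ihB =>
    rw [nnf, Fm.val, dual_valB, ihA, ihB]
    funext x
    simp only [Pi.mul_apply, Pi.add_apply, Pi.sub_apply, Pi.one_apply, Form.eval]
    cases Form.eval x A <;> cases Form.eval x B <;> simp [ind]

theorem Bool_viol_cons {X : Type} (l : X × Bool) (C : List (X × Bool)) :
    viol (l :: C) = (1 - xb l) * viol C := by
  funext x
  simp only [Pi.mul_apply, Pi.sub_apply, Pi.one_apply, viol, xb, List.mem_cons, forall_eq_or_imp]
  by_cases h : x l.1 = l.2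
  · simp [h]
  · by_cases h' : ∀ l ∈ C, x l.1 ≠ l.2
    · rw [if_pos ⟨h, h'⟩, if_neg h, if_pos h']
      norm_num
    · rw [if_neg (fun hh => h' hh.2), if_neg h']
      norm_num

theorem viol_mem {X : Type} (C : List (X × Bool)) : viol C ∈ Poly X C.length := by
  induction C with
  | nil =>
    have h : viol ([] : List (X × Bool)) = 1 := by
      funext x
      simp [viol]
    rw [h]
    exact Poly_one X
  | cons l C ih =>
    rw [Bool_viol_cons, List.length_cons, add_comm]
    exact Poly_mul (Submodule.sub_mem _ (Poly_mono (Nat.zero_le 1) (Poly_one X)) (xb_mem l)) ih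

theorem Bool_viol_idem {X : Type} (C : List (X × Bool)) : viol C * viol C = viol C := by
  funext x
  simp only [Pi.mul_apply, viol]
  split_ifs <;> norm_num

/-- The world of a pseudo-expectation. -/
noncomputable def peW {X : Type} (E : ((X → Bool) → ℝ) →ₗ[ℝ] ℝ) (h1 : E 1 = 1) (D : ℕ)
    (hE : ∀ f ∈ Poly X D, 0 ≤ E (f * f)) : World ((X → Bool) → ℝ) where
  F := Poly X
  F_mono _ _ h := Poly_mono h
  one_mem := Poly_one X
  mul_mem _ _ _ _ hf hg := Poly_mul hf hg
  E := E
  E_one := h1
  D := D
  pos := hE

theorem hyp_nullB {X : Type} {F : List (List (X × Bool))} {E : ((X → Bool) → ℝ) →ₗ[ℝ] ℝ}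
    (h1 : E 1 = 1) {D w b a : ℕ} (hE : ∀ f ∈ Poly X D, 0 ≤ E (f * f))
    (hF : ∀ C ∈ F, E (viol C) = 0) (hw : ∀ C ∈ F, C.length ≤ w) (hD : w + 2 * (b + a) ≤ D)
    {φ : Form X} (hφ : φ ∈ Hyp b F) {g : (X → Bool) → ℝ} (hg : g ∈ Poly X a) :
    (peW E h1 D hE).N ((1 - (nnf φ).val xb) * g) = 0 := by
  obtain ⟨hs, C, hC, hφ⟩ := hφ
  have hN : (peW E h1 D hE).N (viol C) = 0 := by
    unfold World.N
    rw [Bool_viol_idem]
    change Real.sqrt (E (viol C)) = 0
    rw [hF C hC, Real.sqrt_zero]
  have hm : (1 - (nnf φ).val xb) ∈ Poly X b := by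
    refine Submodule.sub_mem _ (Poly_mono (Nat.zero_le b) (Poly_one X)) ?_
    have h := World.val_mem (peW E h1 D hE) (x := xb) (fun y => xb_mem y) (nnf φ)
    rw [nnf_size] at h
    exact Poly_mono hs h
  have he : (1 - (nnf φ).val xb) * g = viol C * ((1 - (nnf φ).val xb) * g) := by
    funext x
    simp only [Pi.mul_apply, Pi.sub_apply, Pi.one_apply, nnf_valB, viol]
    split_ifs with h
    · ring
    · have h2 : φ.eval x = true := by
        apply hφ x
        push Not at h
        exact h
      rw [h2]
      simp [ind]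
  rw [he]
  exact World.N_mul_null (peW E h1 D hE) (a := C.length) (b := b + a) (viol_mem C)
    (Poly_mul hm hg) (by have := hw C hC; change C.length + 2 * (b + a) ≤ D; omega) hN

end Pool.Agent.MP_9cec2c_lc.SL
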