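import Pool.Agent.Lib.MP_9cec2c_lc.FS.Abs

/-!
TASK Cond: conditioning a world by `g` (`World.cond`), operator forms of `dual_rel` and `exact_rel`.

`cond_E`, `cond_N`: unfold; `E (g g f f) = E ((f g) (f g))`, `Real.sqrt_div`, ring.
`cond_good`: for `f ∈ F (L - a)`: `N_g (z f) = N (z f g) / N g ≤ ε N (f g) / N g = ε N_g f`, `f g ∈ F L`
(`cond_N`; the filtration is the same, `(W.cond ..).F = W.F` and `(W.cond ..).D = W.D - a` by `rfl`;
height: `(L - a) + 2c ≤ D - a` as `a ≤ L`).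
`op_of_cond`: if `N g ≠ 0` multiply the hypothesis by `N g`; if `N g = 0`, then `N (g z) = 0`
(`N_mul_null` with the null element `g ∈ F a` and `z ∈ F b`, `a + 2 b ≤ D`).
`contr`, `contr'`: `bit_contr` with `(α, β) = (0, 1)` and `(1, 0)`; `1 + 4 ε ≤ 2` because `4 s ε ≤ 1`, `s ≥ 1`.
`dual_op`: `op_of_cond` with `z = v (dual A) - (1 - v A) ∈ F c`, and in the world `W.cond f`, which is
good with `L - L'`, `dual_rel` (needs `2 c ≤ L - L'`).
`exact_op`: the same with `exact_rel`, `z ∈ F (max c |A|)` (`val_mem`); `L' + 2 (c + |A|) ≤ D`.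
`N_le_E`: `N u ² = E (u u) = E u + E (u u - u)`, `|E z| ≤ N z` (`cs` with `1`); `E_le_N`: `cs` with 1.
-/

set_option autoImplicit false

open Finset

namespace Pool.Agent.MP_9cec2c_lc.SL.World

variable {R : Type} [CommRing R] [Algebra ℝ R] (W : World R) {X : Type}

theorem cond_E {g : R} {a : ℕ} (hg : g ∈ W.F a) (ha : a ≤ W.D) (h0 : W.N g ≠ 0) (f : R) :
    (W.cond g a hg ha h0).E f = W.E (g * g * f) / W.E (g * g) := by
  show (W.E (g * g))⁻¹ * W.E (g * g * f) = _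
  rw [div_eq_inv_mul]

theorem cond_N {g : R} {a : ℕ} (hg : g ∈ W.F a) (ha : a ≤ W.D) (h0 : W.N g ≠ 0) (f : R) :
    (W.cond g a hg ha h0).N f = W.N (f * g) / W.N g := by
  have h1 : 0 ≤ W.E (g * g) := W.pos g (W.F_mono _ _ ha hg)
  show Real.sqrt ((W.cond g a hg ha h0).E (f * f)) = Real.sqrt (W.E (f * g * (f * g))) / Real.sqrt (W.E (g * g))
  rw [cond_E, Real.sqrt_div' _ h1, show g * g * (f * f) = f * g * (f * g) by ring]

theorem cond_good {v : Fm (X × Bool) → R} {s c L : ℕ} {ε : ℝ} (h : W.Good v s c ε L) {g : R}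
    {a : ℕ} (hg : g ∈ W.F a) (ha : a ≤ W.D) (h0 : W.N g ≠ 0) (haL : a ≤ L) :
    (W.cond g a hg ha h0).Good v s c ε (L - a) := by
  have hN : 0 < W.N g := lt_of_le_of_ne (W.N_nonneg g) (Ne.symm h0)
  have hmem : ∀ f ∈ (W.cond g a hg ha h0).F (L - a), f * g ∈ W.F L := by
    intro f hf
    have h1 := W.mul_mem (L - a) a f g hf hg
    rwa [Nat.sub_add_cancel haL] at h1
  have key : ∀ z : R, (∀ f ∈ W.F L, W.N (z * f) ≤ ε * W.N f) →
      ∀ f ∈ (W.cond g a hg ha h0).F (L - a),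
        (W.cond g a hg ha h0).N (z * f) ≤ ε * (W.cond g a hg ha h0).N f := by
    intro z hz f hf
    rw [cond_N, cond_N, ← mul_div_assoc, mul_assoc]
    exact div_le_div_of_nonneg_right (hz _ (hmem f hf)) hN.le
  refine ⟨⟨h.val.v_tt, h.val.v_ff, ?_, ?_, ?_⟩, h.lit, h.pos, ?_, h.small, h.one⟩
  · intro A hA
    exact ⟨(h.val.bit A hA).mem, key _ (h.val.bit A hA).bit⟩
  · intro A B hAB
    exact key _ (h.val.and A B hAB)
  · intro A B hAB
    exact key _ (h.val.or A B hAB)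
  · have h2 := h.height
    show L - a + 2 * c ≤ W.D - a
    omega

theorem op_of_cond {z g : R} {a b : ℕ} {η : ℝ} (hg : g ∈ W.F a) (hz : z ∈ W.F b)
    (hD : a + 2 * b ≤ W.D) (ha : a ≤ W.D)
    (h : ∀ h0 : W.N g ≠ 0, (W.cond g a hg ha h0).N z ≤ η) :
    W.N (z * g) ≤ η * W.N g := by
  by_cases h0 : W.N g = 0
  · rw [mul_comm z g, W.N_mul_null hg hz hD h0, h0, mul_zero]
  · have h1 := h h0
    have hN : 0 < W.N g := lt_of_le_of_ne (W.N_nonneg g) (Ne.symm h0)
    rw [cond_N] at h1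
    exact (div_le_iff₀ hN).1 h1

/-- `|E u| ≤ N u`. -/
theorem E_le_N {u : R} (hu : u ∈ W.F W.D) : |W.E u| ≤ W.N u := by
  have h1 := W.cs hu (W.one_mem' W.D)
  rwa [mul_one, N_one, mul_one] at h1

/-- For an almost idempotent `u`: `N(u)² ≤ E u + N (u u - u)`. -/
theorem N_le_E {u : R} {a : ℕ} (hu : u ∈ W.F a) (ha : 2 * a ≤ W.D) :
    W.N u ^ 2 ≤ W.E u + W.N (u * u - u) := by
  have hu' : u ∈ W.F W.D := W.F_mono _ _ (by omega) hu
  have huu : u * u ∈ W.F W.D := W.F_mono _ _ (by omega) (W.mul_mem a a u u hu hu)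
  have h1 := W.E_le_N (Submodule.sub_mem _ huu hu')
  have h2 : W.E (u * u - u) ≤ W.N (u * u - u) := le_trans (le_abs_self _) h1
  rw [W.N_sq hu']
  have h3 : W.E (u * u) = W.E u + W.E (u * u - u) := by rw [← map_add]; congr 1; ring
  rw [h3]
  linarith

theorem contr {v : Fm (X × Bool) → R} {s c L L' : ℕ} {ε : ℝ} (h : W.Good v s c ε L)
    (A : Fm (X × Bool)) (hA : A.size ≤ s) (hL : L' + c ≤ L) {f : R} (hf : f ∈ W.F L') :
    W.N (v A * f) ≤ (1 + 4 * ε) * W.N f ∧ W.N ((1 - v A) * f) ≤ (1 + 4 * ε) * W.N f ∧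
      1 + 4 * ε ≤ 2 := by
  have h1 := W.bit_contr (α := 0) (β := 1) (h.val.bit A hA) h.pos (by simp) (by simp) h.height hL hf
  have h2 := W.bit_contr (α := 1) (β := 0) (h.val.bit A hA) h.pos (by simp) (by simp) h.height hL hf
  rw [zero_smul, one_smul, zero_add] at h1
  rw [zero_smul, one_smul, add_zero] at h2
  refine ⟨h1, h2, ?_⟩
  have h3 := h.small
  have h4 : (1 : ℝ) ≤ s := by exact_mod_cast h.one
  have h5 := h.pos
  nlinarith

private theorem Cond_size_dual {Λ : Type} (neg : Λ → Λ) (A : Fm Λ) : (A.dual neg).size = A.size := by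
  induction A with
  | lit l => rfl
  | tt => rfl
  | ff => rfl
  | and A B ihA ihB => simp only [Fm.dual, Fm.size, ihA, ihB]
  | or A B ihA ihB => simp only [Fm.dual, Fm.size, ihA, ihB]

theorem dual_op {v : Fm (X × Bool) → R} {s c L L' : ℕ} {ε : ℝ} (h : W.Good v s c ε L)
    (A : Fm (X × Bool)) (hA : A.size ≤ s) (hL : L' + 2 * c ≤ L) {f : R} (hf : f ∈ W.F L') :
    W.N ((v (A.dual flip) - (1 - v A)) * f) ≤ 8 * s * ε * W.N f := by
  have hh := h.height
  have hAd : (A.dual flip).size ≤ s := by rw [Cond_size_dual]; exact hA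
  refine W.op_of_cond hf (b := c) ?_ (by omega) (by omega) ?_
  · exact Submodule.sub_mem _ (h.val.bit _ hAd).mem
      (Submodule.sub_mem _ (W.one_mem' c) (h.val.bit _ hA).mem)
  · intro h0
    have hg := W.cond_good h hf (by omega : L' ≤ W.D) h0 (by omega)
    exact dual_rel _ hg.val hg.pos flip hg.lit (by omega) hg.height hg.small A hA

theorem exact_op {v : Fm (X × Bool) → R} {s c L L' : ℕ} {ε : ℝ} (h : W.Good v s c ε L)
    (x : X × Bool → R) (hx : ∀ y, x y ∈ W.F 1 ∧ x y * x y = x y) (hlit : ∀ y, v (Fm.lit y) = x y)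
    (A : Fm (X × Bool)) (hA : A.size ≤ s) (hL : L' + 2 * c + 2 * A.size ≤ L) {f : R}
    (hf : f ∈ W.F L') :
    W.N ((v A - A.val x) * f) ≤ 8 * A.size * ε * W.N f := by
  have hh := h.height
  have hb : 2 * max c A.size ≤ 2 * c + 2 * A.size := by
    rcases le_total c A.size with h1 | h1
    · rw [max_eq_right h1]; omega
    · rw [max_eq_left h1]; omega
  refine W.op_of_cond hf (b := max c A.size) ?_ (by omega) (by omega) ?_
  · exact Submodule.sub_mem _ (W.F_mono _ _ (le_max_left _ _) (h.val.bit _ hA).mem)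
      (W.F_mono _ _ (le_max_right _ _) (W.val_mem (fun y => (hx y).1) A))
  · intro h0
    have hg := W.cond_good h hf (by omega : L' ≤ W.D) h0 (by omega)
    exact exact_rel _ hg.val hg.pos x hx hlit hg.height hg.small A hA (by omega)

end Pool.Agent.MP_9cec2c_lc.SL.World
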