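import Pool.Agent.Lib.MP_9cec2c_lc.FS.Cond

/-!
TASK Conj: the value `Q v M` of the conjunction of a list `M`.

`size_conjF`: induction. `nnf (conjF (B :: M)) = (nnf B).and (nnf (conjF M))` by `rfl`.
`Q_nil`: `v tt = 1`. `Q_mem`: `h.val.bit` (`nnf_size`, `size_conjF`).
`conj_proj`: induction on `M`, claim `N ((1 - a) Q f) ≤ 2 |M| (1+4ε)^|M| ε N f` (`a = v (nnf A)`, `|M|` the length
of `M`). `M = B :: M'`, `b = v (nnf B)`, `Q' = Q v M'`: `(1-a) Q f = (1-a)(Q - b Q') f + (1-a) b Q' f`; the first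
term is at most `(1+4ε) ε N f` (`contr`, gate `h.val.and`). If `A = B`: `(1-a) a Q' f = -(a a - a) Q' f`, at most
`ε (1+4ε) N f` (bit, `contr` for `Q'`). If `A ∈ M'`: `(1-a) b Q' f = b ((1-a) Q' f)`, at most `(1+4ε)` times the
bound for `M'`. Lengths: `|M| ≤ total M ≤ s` because all sizes are `≥ 1`
(`form_size_pos'`), and `(1+4ε)^|M| ≤ exp (4 s ε) ≤ e ≤ 3`.
`conj_all`: `conj_rel` with `T A = (A = tt ∨ ∃ B ∈ M, A = nnf B)` (`Conj.base` for `tt` and `nnf B`, induction
on the list), `δ = θ`; `|conjF M| ≤ s`.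
-/

set_option autoImplicit false

open Finset

namespace Pool.Agent.MP_9cec2c_lc.SL

theorem form_size_pos' {X : Type} (A : Form X) : 1 ≤ A.size := by
  induction A with
  | var x => exact le_rfl
  | tt => exact le_rfl
  | ff => exact le_rfl
  | neg A ih => exact ih
  | and A B ihA ihB =>
    rw [Form.size]
    omega
  | or A B ihA ihB =>
    rw [Form.size]
    omega
  | imp A B ihA ihB =>
    rw [Form.size]
    omega

private theorem Conj_conjF_cons {X : Type} (B : Form X) (M : List (Form X)) :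
    conjF (B :: M) = B.and (conjF M) := rfl

private theorem Conj_total_cons {X : Type} (B : Form X) (M : List (Form X)) :
    total (B :: M) = B.size + total M := by
  unfold total
  rw [List.map_cons, List.sum_cons]

theorem size_conjF {X : Type} (M : List (Form X)) : (conjF M).size = total M + 1 := by
  induction M with
  | nil => rfl
  | cons B M ih =>
    rw [Conj_conjF_cons, Conj_total_cons, Form.size, ih]
    omega

private theorem Conj_length_le {X : Type} (M : List (Form X)) : M.length ≤ total M := by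
  induction M with
  | nil => exact le_rfl
  | cons B M ih =>
    rw [Conj_total_cons, List.length_cons]
    have := form_size_pos' B
    omega

private theorem Conj_size_le {X : Type} {M : List (Form X)} {A : Form X} (hA : A ∈ M) :
    A.size ≤ total M := by
  induction M with
  | nil => exact absurd hA (List.not_mem_nil)
  | cons B M ih =>
    rw [Conj_total_cons]
    rcases List.mem_cons.mp hA with rfl | h
    · omega
    · have := ih h
      omega

namespace World

variable {R : Type} [CommRing R] [Algebra ℝ R] (W : World R) {X : Type}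

theorem Q_nil {v : Fm (X × Bool) → R} {s c L : ℕ} {ε : ℝ} (h : W.Good v s c ε L) :
    Q v ([] : List (Form X)) = 1 := h.val.v_tt

theorem Q_mem {v : Fm (X × Bool) → R} {s c L : ℕ} {ε : ℝ} (h : W.Good v s c ε L)
    (M : List (Form X)) (hM : total M + 1 ≤ s) : Q v M ∈ W.F c :=
  (h.val.bit _ (by rw [nnf_size, size_conjF]; exact hM)).mem

private theorem Conj_proj_aux {v : Fm (X × Bool) → R} {s c L L' : ℕ} {ε : ℝ}
    (h : W.Good v s c ε L) (hL : L' + 3 * c ≤ L) {A : Form X} {f : R} (hf : f ∈ W.F L')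
    (M : List (Form X)) (hM : total M + 1 ≤ s) (hA : A ∈ M) :
    W.N ((1 - v (nnf A)) * Q v M * f) ≤
      2 * M.length * (1 + 4 * ε) ^ M.length * ε * W.N f := by
  have hε := h.pos
  have hD := h.height
  have hY : (1 : ℝ) ≤ 1 + 4 * ε := by linarith
  have hN := W.N_nonneg f
  have hAs : A.size ≤ s := (Conj_size_le hA).trans (by omega)
  have hAs' : (nnf A).size ≤ s := by rw [nnf_size]; exact hAs
  have ha : v (nnf A) ∈ W.F c := (h.val.bit _ hAs').mem
  have hone : (1 : R) ∈ W.F c := W.one_mem' c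
  have h1a : 1 - v (nnf A) ∈ W.F c := Submodule.sub_mem _ hone ha
  induction M with
  | nil => exact absurd hA (List.not_mem_nil)
  | cons B M ih =>
    have hMs : B.size + total M + 1 ≤ s := by rw [Conj_total_cons] at hM; exact hM
    have hBs : (nnf B).size ≤ s := by rw [nnf_size]; omega
    have hMs' : total M + 1 ≤ s := by omega
    have hb : v (nnf B) ∈ W.F c := (h.val.bit _ hBs).mem
    have hQ' : Q v M ∈ W.F c := W.Q_mem h M hMs'
    have hQ : Q v (B :: M) ∈ W.F c := W.Q_mem h (B :: M) hM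
    have hgate := h.val.and (nnf B) (nnf (conjF M)) (by
      rw [nnf_size, nnf_size, size_conjF]
      omega) f (W.F_mono _ _ (by omega) hf)
    have hgate' : W.N ((Q v (B :: M) - v (nnf B) * Q v M) * f) ≤ ε * W.N f := hgate
    have hbQ : v (nnf B) * Q v M ∈ W.F (c + c) := W.mul_mem _ _ _ _ hb hQ'
    have hdiff : Q v (B :: M) - v (nnf B) * Q v M ∈ W.F (c + c) :=
      Submodule.sub_mem _ (W.F_mono _ _ (by omega) hQ) hbQ
    have hg1 : (Q v (B :: M) - v (nnf B) * Q v M) * f ∈ W.F (c + c + L') :=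
      W.mul_mem _ _ _ _ hdiff hf
    have hc1 := (W.contr h (nnf A) hAs' (L' := c + c + L') (by omega) hg1).2.1
    have hT1 : W.N ((1 - v (nnf A)) * ((Q v (B :: M) - v (nnf B) * Q v M) * f)) ≤
        (1 + 4 * ε) * (ε * W.N f) :=
      hc1.trans (mul_le_mul_of_nonneg_left hgate' (by linarith))
    have m1 : (1 - v (nnf A)) * ((Q v (B :: M) - v (nnf B) * Q v M) * f) ∈ W.F W.D :=
      W.F_mono _ _ (by omega) (W.mul_mem _ _ _ _ h1a hg1)
    have m2 : (1 - v (nnf A)) * (v (nnf B) * Q v M * f) ∈ W.F W.D :=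
      W.F_mono _ _ (by omega) (W.mul_mem _ _ _ _ h1a (W.mul_mem _ _ _ _ hbQ hf))
    have hsum : W.N ((1 - v (nnf A)) * Q v (B :: M) * f) ≤
        W.N ((1 - v (nnf A)) * ((Q v (B :: M) - v (nnf B) * Q v M) * f)) +
          W.N ((1 - v (nnf A)) * (v (nnf B) * Q v M * f)) := by
      have e : (1 - v (nnf A)) * Q v (B :: M) * f =
          (1 - v (nnf A)) * ((Q v (B :: M) - v (nnf B) * Q v M) * f) +
            (1 - v (nnf A)) * (v (nnf B) * Q v M * f) := by ring
      rw [e]
      exact W.N_add m1 m2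
    have hQf : Q v M * f ∈ W.F (c + L') := W.mul_mem _ _ _ _ hQ' hf
    have hlen : ((B :: M).length : ℝ) = (M.length : ℝ) + 1 := by
      rw [List.length_cons]
      push_cast
      ring
    have hYp : 1 + 4 * ε ≤ (1 + 4 * ε) ^ (B :: M).length := by
      rw [List.length_cons]
      exact le_self_pow₀ hY (Nat.succ_ne_zero _)
    have hY0 : (0 : ℝ) ≤ (M.length : ℝ) := Nat.cast_nonneg _
    have hp0 : (0 : ℝ) ≤ (1 + 4 * ε) ^ (B :: M).length := by positivity
    have hεN : 0 ≤ ε * W.N f := mul_nonneg hε hN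
    rcases List.mem_cons.mp hA with hAB | hAM
    · have hT2 : W.N ((1 - v (nnf A)) * (v (nnf B) * Q v M * f)) ≤
          (1 + 4 * ε) * (ε * W.N f) := by
        have e : (1 - v (nnf A)) * (v (nnf B) * Q v M * f) =
            -((v (nnf A) * v (nnf A) - v (nnf A)) * (Q v M * f)) := by
          rw [← hAB]
          ring
        rw [e, W.N_neg]
        have h1 := (h.val.bit _ hAs').bit (Q v M * f) (W.F_mono _ _ (by omega) hQf)
        have h2 := (W.contr h (nnf (conjF M)) (by rw [nnf_size, size_conjF]; exact hMs')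
          (L' := L') (by omega) hf).1
        have h2' : W.N (Q v M * f) ≤ (1 + 4 * ε) * W.N f := h2
        calc _ ≤ ε * W.N (Q v M * f) := h1
          _ ≤ ε * ((1 + 4 * ε) * W.N f) := mul_le_mul_of_nonneg_left h2' hε
          _ = _ := by ring
      rw [hlen]
      have h3 : (1 + 4 * ε) * (ε * W.N f) ≤ (1 + 4 * ε) ^ (B :: M).length * (ε * W.N f) :=
        mul_le_mul_of_nonneg_right hYp hεN
      have h4 : 0 ≤ (M.length : ℝ) * ((1 + 4 * ε) ^ (B :: M).length * (ε * W.N f)) := by positivity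
      calc _ ≤ (1 + 4 * ε) * (ε * W.N f) + (1 + 4 * ε) * (ε * W.N f) :=
            hsum.trans (add_le_add hT1 hT2)
        _ ≤ 2 * ((M.length : ℝ) * ((1 + 4 * ε) ^ (B :: M).length * (ε * W.N f))) +
            2 * ((1 + 4 * ε) ^ (B :: M).length * (ε * W.N f)) := by linarith
        _ = _ := by ring
    · have hih := ih hMs' hAM
      have hT2 : W.N ((1 - v (nnf A)) * (v (nnf B) * Q v M * f)) ≤
          (1 + 4 * ε) * (2 * M.length * (1 + 4 * ε) ^ M.length * ε * W.N f) := by
        have e : (1 - v (nnf A)) * (v (nnf B) * Q v M * f) =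
            v (nnf B) * ((1 - v (nnf A)) * Q v M * f) := by ring
        rw [e]
        have hg : (1 - v (nnf A)) * Q v M * f ∈ W.F (c + c + L') :=
          W.mul_mem _ _ _ _ (W.mul_mem _ _ _ _ h1a hQ') hf
        have h1 := (W.contr h (nnf B) hBs (L' := c + c + L') (by omega) hg).1
        exact h1.trans (mul_le_mul_of_nonneg_left hih (by linarith))
      rw [hlen]
      have h3 : (1 + 4 * ε) * (ε * W.N f) ≤ (1 + 4 * ε) ^ (B :: M).length * (ε * W.N f) :=
        mul_le_mul_of_nonneg_right hYp hεN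
      have h5 : (1 + 4 * ε) * (2 * M.length * (1 + 4 * ε) ^ M.length * ε * W.N f) =
          2 * ((M.length : ℝ) * ((1 + 4 * ε) ^ (B :: M).length * (ε * W.N f))) := by
        rw [List.length_cons, pow_succ]
        ring
      have h6 : 0 ≤ (1 + 4 * ε) ^ (B :: M).length * (ε * W.N f) := by positivity
      calc _ ≤ (1 + 4 * ε) * (ε * W.N f) +
            (1 + 4 * ε) * (2 * M.length * (1 + 4 * ε) ^ M.length * ε * W.N f) :=
            hsum.trans (add_le_add hT1 hT2)
        _ ≤ 2 * ((M.length : ℝ) * ((1 + 4 * ε) ^ (B :: M).length * (ε * W.N f))) +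
            2 * ((1 + 4 * ε) ^ (B :: M).length * (ε * W.N f)) := by
            rw [h5]
            linarith
        _ = _ := by ring

theorem conj_proj {v : Fm (X × Bool) → R} {s c L L' : ℕ} {ε : ℝ} (h : W.Good v s c ε L)
    (M : List (Form X)) (hM : total M + 1 ≤ s) {A : Form X} (hA : A ∈ M) (hL : L' + 3 * c ≤ L)
    {f : R} (hf : f ∈ W.F L') :
    W.N ((1 - v (nnf A)) * Q v M * f) ≤ 6 * s * ε * W.N f := by
  have h1 := W.Conj_proj_aux h hL hf M hM hA
  have hε := h.pos
  have hN := W.N_nonneg f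
  have hlen : M.length ≤ s := (Conj_length_le M).trans (by omega)
  have hlen' : (M.length : ℝ) ≤ s := by exact_mod_cast hlen
  have h2 : (1 + 4 * ε) ^ M.length ≤ 3 := by
    have h3 : (1 + 4 * ε) ^ M.length ≤ Real.exp (4 * ε) ^ M.length := by
      refine pow_le_pow_left₀ (by linarith) ?_ _
      have := Real.add_one_le_exp (4 * ε)
      linarith
    have h4 : Real.exp (4 * ε) ^ M.length = Real.exp (M.length * (4 * ε)) := by
      rw [← Real.exp_nat_mul]
    have h5 : (M.length : ℝ) * (4 * ε) ≤ 1 := by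
      have h6 : (M.length : ℝ) * (4 * ε) ≤ s * (4 * ε) :=
        mul_le_mul_of_nonneg_right hlen' (by linarith)
      have h7 := h.small
      linarith
    have h8 : Real.exp (M.length * (4 * ε)) ≤ Real.exp 1 := Real.exp_le_exp.mpr h5
    have h9 := Real.exp_one_lt_d9
    linarith
  have h3 : (M.length : ℝ) * (1 + 4 * ε) ^ M.length ≤ s * 3 :=
    mul_le_mul hlen' h2 (by positivity) (Nat.cast_nonneg _)
  have h4 : 0 ≤ ε * W.N f := mul_nonneg hε hN
  calc _ ≤ _ := h1
    _ = 2 * ((M.length : ℝ) * (1 + 4 * ε) ^ M.length * (ε * W.N f)) := by ring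
    _ ≤ 2 * (s * 3 * (ε * W.N f)) :=
        mul_le_mul_of_nonneg_left (mul_le_mul_of_nonneg_right h3 h4) (by norm_num)
    _ = _ := by ring

theorem conj_all {v : Fm (X × Bool) → R} {s c L : ℕ} {ε θ : ℝ} (h : W.Good v s c ε L)
    (hL : 2 * c ≤ L) (M : List (Form X)) (hM : total M + 1 ≤ s) (hθ : 0 ≤ θ)
    (hA : ∀ A ∈ M, W.N (1 - v (nnf A)) ≤ θ) : W.N (1 - Q v M) ≤ 4 * s * (θ + ε) := by
  have hsz : (nnf (conjF M)).size = total M + 1 := by rw [nnf_size, size_conjF]
  have hconj : ∀ M' : List (Form X), (∀ B ∈ M', B ∈ M) →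
      Conj (fun A : Fm (X × Bool) => A = Fm.tt ∨ ∃ B ∈ M, A = nnf B) (nnf (conjF M')) := by
    intro M'
    induction M' with
    | nil => intro _; exact Conj.base _ (Or.inl rfl)
    | cons B M' ih =>
      intro hB
      exact Conj.and _ _ (Conj.base _ (Or.inr ⟨B, hB B List.mem_cons_self, rfl⟩))
        (ih fun C hC => hB C (List.mem_cons_of_mem _ hC))
  have h1 := W.conj_rel h.val h.pos hθ
    (fun A : Fm (X × Bool) => A = Fm.tt ∨ ∃ B ∈ M, A = nnf B) (by
      rintro A (rfl | ⟨B, hB, rfl⟩) _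
      · rw [h.val.v_tt, sub_self, W.N_zero]
        exact hθ
      · exact hA B hB) hL h.height h.small (nnf (conjF M)) (by rw [hsz]; exact hM)
    (hconj M fun B hB => hB)
  refine h1.trans ?_
  rw [hsz]
  have h2 : ((total M + 1 : ℕ) : ℝ) ≤ s := by exact_mod_cast hM
  have h3 := h.pos
  exact mul_le_mul_of_nonneg_right (mul_le_mul_of_nonneg_left h2 (by norm_num)) (by linarith)

end World

end Pool.Agent.MP_9cec2c_lc.SL
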