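import Pool.Agent.Lib.MP_9cec2c_lc.FS.LowH

/-!
The height of dag-like refutations: a derivation of height `h` unfolds to a tree-like derivation with
at most `K ^ (h + 1)` lines of the same sizes.
-/

set_option autoImplicit false

open Finset
open scoped Classical

namespace Pool.Agent.MP_9cec2c_lc.SL

theorem exists_prems_bound (S : Set Rule) (hS : S.Finite) : ∃ K : ℕ, 1 ≤ K ∧
    ∀ R ∈ S, 1 + R.prems.length ≤ K := by
  induction S, hS using Set.Finite.induction_on with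
  | empty => exact ⟨1, le_rfl, fun R hR => absurd hR (Set.notMem_empty R)⟩
  | @insert R S _ _ ih =>
    obtain ⟨K, hK1, hK⟩ := ih
    refine ⟨K + 1 + R.prems.length, by omega, fun R' hR' => ?_⟩
    rcases Set.mem_insert_iff.1 hR' with rfl | h
    · omega
    · have := hK R' h
      omega

theorem unfold_tree {X : Type} {S : Set Rule} {Φ : Set (Form X)} {s K h l : ℕ} (hK1 : 1 ≤ K)
    (hK : ∀ R ∈ S, 1 + R.prems.length ≤ K) {L : Fin l → Form X} (hL : IsDerivationH S Φ h L)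
    (hs : ∀ i, (L i).size ≤ s) (i : Fin l) : ∃ n : ℕ, 1 ≤ n ∧ n ≤ K ^ (h + 1) ∧
      Tree S Φ s n (L i) := by
  obtain ⟨ht, hh, hder⟩ := hL
  have key : ∀ m : ℕ, ∀ i : Fin l, ht i = m → ∃ n : ℕ, 1 ≤ n ∧ n ≤ K ^ (m + 1) ∧
      Tree S Φ s n (L i) := by
    intro m
    induction m using Nat.strong_induction_on with
    | _ m ih =>
      intro i hi
      rcases hder i with hΦ | ⟨R, hR, σ, hc, hp⟩
      · exact ⟨1, le_rfl, Nat.one_le_pow _ _ hK1, Tree.hyp _ hΦ (hs i)⟩
      · have hj : ∀ q : Fin R.prems.length, ∃ n : ℕ, 1 ≤ n ∧ n ≤ K ^ m ∧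
            Tree S Φ s n ((R.prems.get q).subst σ) := by
          intro q
          obtain ⟨j, hji, hjL⟩ := hp (R.prems.get q) (List.get_mem _ _)
          obtain ⟨n, hn1, hn, hT⟩ := ih (ht j) (by omega) j rfl
          refine ⟨n, hn1, hn.trans (Nat.pow_le_pow_right hK1 (by omega)), ?_⟩
          rw [← hjL]
          exact hT
        choose n hn1 hn hT using hj
        refine ⟨1 + ∑ q, n q, by omega, ?_, ?_⟩
        · have h1 : ∑ q, n q ≤ R.prems.length * K ^ m := by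
            calc ∑ q, n q ≤ ∑ _q : Fin R.prems.length, K ^ m := Finset.sum_le_sum fun q _ => hn q
              _ = R.prems.length * K ^ m := by
                rw [Finset.sum_const, Finset.card_univ, Fintype.card_fin, smul_eq_mul]
          have h2 : 1 ≤ K ^ m := Nat.one_le_pow _ _ hK1
          have h3 := hK R hR
          calc 1 + ∑ q, n q ≤ K ^ m + R.prems.length * K ^ m := by omega
            _ = (1 + R.prems.length) * K ^ m := by ring
            _ ≤ K * K ^ m := Nat.mul_le_mul_right _ h3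
            _ = K ^ (m + 1) := by ring
        · rw [← hc]
          exact Tree.rule R hR σ n hT (by rw [hc]; exact hs i)
  obtain ⟨n, hn1, hn, hT⟩ := key (ht i) i rfl
  exact ⟨n, hn1, hn.trans (Nat.pow_le_pow_right hK1 (by have := hh i; omega)), hT⟩

theorem low_ht (ε : ℝ) (hε : 0 < ε) (S : Set Rule) (hS : S.Finite) (hs : ∀ r ∈ S, r.Sound) :
    ∃ D₀ : ℕ, ∀ (X : Type) (F : List (List (X × Bool))) (D : ℕ), D₀ ≤ D →
    (∀ C ∈ F, C.length ≤ D / 8) → HasPE F D → ∀ (s h l : ℕ) (L : Fin l → Form X),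
      IsDerivationH S (Hyp (D / 8) F) h L → (∀ i, (L i).size ≤ s) →
      (∃ i, L i ∈ Refuting (D / 8) F) →
      (D : ℝ) ^ (2 - ε) ≤ ((h : ℝ) + 1) * s := by
  obtain ⟨K, hK1, hK⟩ := exists_prems_bound S hS
  obtain ⟨D₁, hD₁⟩ := low_tree (ε / 2) (half_pos hε) S hS hs
  have hKR : (1 : ℝ) ≤ K := by exact_mod_cast hK1
  have hlogK : 0 ≤ Real.log K := Real.log_nonneg hKR
  have h2 : Filter.Tendsto (fun D : ℕ => (D : ℝ) ^ (ε / 2)) Filter.atTop Filter.atTop :=
    (tendsto_rpow_atTop (half_pos hε)).comp tendsto_natCast_atTop_atTop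
  obtain ⟨D₂, hD₂⟩ := Filter.eventually_atTop.1 (h2.eventually_ge_atTop (1 + Real.log K))
  refine ⟨max (max D₁ D₂) 1, fun X F D hD hw hF s h l L hL hsz hi => ?_⟩
  obtain ⟨i, hi⟩ := hi
  have hDa : D₁ ≤ D := (le_max_left _ _).trans ((le_max_left _ _).trans hD)
  have hDb : D₂ ≤ D := (le_max_right _ _).trans ((le_max_left _ _).trans hD)
  have hDc : 1 ≤ D := (le_max_right _ _).trans hD
  have hD0 : (0 : ℝ) < D := by exact_mod_cast hDc
  obtain ⟨n, hn1, hn, hT⟩ := unfold_tree hK1 hK hL hsz i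
  have h3 := hD₁ X F D hDa hw hF s n (L i) hT hi
  have h4 := hD₂ D hDb
  have hn0 : (0 : ℝ) < n := by exact_mod_cast hn1
  have h5 : Real.log n ≤ (h + 1) * Real.log K := by
    have : (n : ℝ) ≤ (K : ℝ) ^ (h + 1) := by exact_mod_cast hn
    calc Real.log n ≤ Real.log ((K : ℝ) ^ (h + 1)) := Real.log_le_log hn0 this
      _ = (h + 1) * Real.log K := by
        rw [Real.log_pow]
        push_cast
        ring
  have hs0 : (0 : ℝ) ≤ s := Nat.cast_nonneg _
  have hh0 : (0 : ℝ) ≤ h := Nat.cast_nonneg _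
  have h6 : (D : ℝ) ^ (2 - ε / 2) ≤ ((h : ℝ) + 1) * s * (D : ℝ) ^ (ε / 2) := by
    calc (D : ℝ) ^ (2 - ε / 2) ≤ s * (1 + Real.log n) := h3
      _ ≤ s * (((h : ℝ) + 1) * (1 + Real.log K)) := by
        refine mul_le_mul_of_nonneg_left ?_ hs0
        nlinarith
      _ ≤ s * (((h : ℝ) + 1) * (D : ℝ) ^ (ε / 2)) := by
        refine mul_le_mul_of_nonneg_left (mul_le_mul_of_nonneg_left h4 (by linarith)) hs0
      _ = ((h : ℝ) + 1) * s * (D : ℝ) ^ (ε / 2) := by ring
  have h7 : (D : ℝ) ^ (2 - ε / 2) = (D : ℝ) ^ (2 - ε) * (D : ℝ) ^ (ε / 2) := by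
    rw [← Real.rpow_add hD0]
    congr 1
    ring
  have h8 : 0 < (D : ℝ) ^ (ε / 2) := Real.rpow_pos_of_pos hD0 _
  rw [h7] at h6
  exact le_of_mul_le_mul_right h6 h8

end Pool.Agent.MP_9cec2c_lc.SL
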