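import Mathlib

/-!
TASK NumF: the parameters. Given `ε` (assume `ε ≤ 1` w.l.o.g.: see below) and `C` let
`k = ⌈16 / ε⌉ ≥ 1` (a constant), `l' = ⌈K log D⌉` with a constant `K`, `l = ⌈K (log D + t)⌉`,
`a = ⌈(2 s / l)^(1/(2k))⌉` (at least 1). Then
* `s ≤ l (a²)^k`: `(a²)^k = a^(2k) ≥ 2 s / l`.
* `a ≤ 2 max(1, (2s/l)^(1/(2k)))`; `s ≤ D^2` (from the first hypothesis, `ε > 0`, `D ≥ 1`), so
  `a² ≤ 4 (2 D²)^(1/k) ≤ 8 D^(2/k) ≤ 8 D^(ε/8)`.
* `(2000 a²)^k (2/3)^l' ≤ 1/1000`: `(2000 a²)^k ≤ 16000^k D²`, `(2/3)^l' ≤ exp(-0.4 l') ≤ D^(-0.4 K)`.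
* `(C D^4 exp t)² (1/2)^l ≤ 1`: `(1/2)^l ≤ exp(-0.69 K (log D + t)) ≤ D^(-0.69K) exp(-0.69 K t)`, and
  `C² D^8 exp(2t)`: fine for `K ≥ 20` and large `D`.
* the last condition. `(450 l' a)^k ≤ (900 · 2K log D)^k · max(1, (2s/l)^(1/2))` up to constants, so
  `l (450 l' a)^k ≤ P (l + √(2 s l))`, `P = (C' log D)^k ≤ D^(ε/64)`; `l ≤ K' log D (1 + t)`. Hence
  `(h+1) l (450 l' a)^k ≤ P K' log D ((h+1)(1+t)) + P √(2 K' log D · (h+1)² s (1+t))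
   ≤ D^(ε/32) (D^(1 - ε/4) + D^(1 - ε/2)) ≤ D / (4 C)`,
  `k a² (450 l' a)^k ≤ k · 8 D^(ε/8) · P √(2s) ≤ D^(ε/4) D^(1-ε/2) ≤ D/(4C)` (here `s ≤ D^(2-ε)`), and the constant
  `C ≤ D/4`.
If `ε > 1`: `D^(2-ε) ≤ D^(2-1)`, and the second hypothesis `≤ D^(1-ε/4) ≤ D^(1 - 1/4)`: so the statement for
`ε = 1` applies (for `D ≥ 1`).
All inequalities hold for large `D` (`isLittleO_log_rpow_atTop`, `tendsto_rpow_atTop`).
-/

set_option autoImplicit false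

open Finset

namespace Pool.Agent.MP_9cec2c_lc.SL

/-- the number `a` -/
private theorem NumF_a {k l s : ℕ} (hk : 1 ≤ k) (hl : 1 ≤ l) (hs : 1 ≤ s) :
    ∃ a : ℕ, 1 ≤ a ∧ s ≤ l * (a ^ 2) ^ k ∧ (a ^ 2) ^ k ≤ 4 ^ k * s ∧ l * (a ^ 2) ^ k ≤ 4 ^ k * (l + s) := by
  have hex : ∃ a : ℕ, 1 ≤ a ∧ s ≤ l * (a ^ 2) ^ k := by
    refine ⟨s, hs, ?_⟩
    calc s ≤ s ^ 2 := Nat.le_self_pow two_ne_zero s
      _ ≤ (s ^ 2) ^ k := Nat.le_self_pow (by omega) _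
      _ ≤ l * (s ^ 2) ^ k := Nat.le_mul_of_pos_left _ hl
  classical
  obtain ⟨h1, h2⟩ := Nat.find_spec hex
  have hmin : ∀ b, b < Nat.find hex → ¬ (1 ≤ b ∧ s ≤ l * (b ^ 2) ^ k) := fun b hb => Nat.find_min hex hb
  generalize Nat.find hex = a at h1 h2 hmin
  refine ⟨a, h1, h2, ?_⟩
  have h4 : 1 ≤ 4 ^ k := Nat.one_le_pow _ _ (by norm_num)
  rcases Nat.lt_or_ge 1 a with ha | ha
  · have h5 := hmin (a - 1) (by omega)
    have h6 : l * ((a - 1) ^ 2) ^ k < s := by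
      by_contra hc
      exact h5 ⟨by omega, by omega⟩
    have h7 : (a ^ 2) ^ k ≤ 4 ^ k * ((a - 1) ^ 2) ^ k := by
      rw [← Nat.mul_pow]
      refine Nat.pow_le_pow_left ?_ k
      have h8 : a ≤ 2 * (a - 1) := by omega
      calc a ^ 2 ≤ (2 * (a - 1)) ^ 2 := Nat.pow_le_pow_left h8 2
        _ = 4 * (a - 1) ^ 2 := by ring
    have h9 : l * (a ^ 2) ^ k ≤ 4 ^ k * s := by
      calc l * (a ^ 2) ^ k ≤ l * (4 ^ k * ((a - 1) ^ 2) ^ k) := Nat.mul_le_mul_left _ h7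
        _ = 4 ^ k * (l * ((a - 1) ^ 2) ^ k) := by ring
        _ ≤ 4 ^ k * s := Nat.mul_le_mul_left _ h6.le
    refine ⟨le_trans (Nat.le_mul_of_pos_left _ hl) h9, h9.trans (Nat.mul_le_mul_left _ (by omega))⟩
  · have ha1 : a = 1 := by omega
    subst ha1
    rw [one_pow, one_pow, mul_one]
    refine ⟨Nat.one_le_iff_ne_zero.2 (by positivity), ?_⟩
    calc l ≤ l + s := Nat.le_add_right _ _
      _ ≤ 4 ^ k * (l + s) := Nat.le_mul_of_pos_left _ (by omega)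

private theorem NumF_aux (ε : ℝ) (hε : 0 < ε) (hε1 : ε ≤ 1) (C : ℕ) : ∃ D₀ : ℕ, ∀ D s h : ℕ, D₀ ≤ D →
    1 ≤ s → ∀ t : ℝ, 0 ≤ t → ((h : ℝ) + 1) ^ 2 * s * (1 + t) ≤ (D : ℝ) ^ (2 - ε) →
      ((h : ℝ) + 1) * (1 + t) ≤ (D : ℝ) ^ (1 - ε / 4) →
      ∃ a l' k l : ℕ, 1 ≤ a ∧ 1 ≤ l' ∧ 1 ≤ l ∧ s ≤ l * (a ^ 2) ^ k ∧
        (2000 * (a : ℝ) ^ 2) ^ k * (2 / 3) ^ l' ≤ 1 / 1000 ∧
        (C * (D : ℝ) ^ 4 * Real.exp t) ^ 2 * (1 / 2) ^ l ≤ 1 ∧
        C * ((h + 1) * (l * (450 * l' * a) ^ k)) + C * (k * (a ^ 2 * (450 * l' * a) ^ k)) + C ≤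
          D := by
  obtain ⟨k, hk1, hk⟩ : ∃ k : ℕ, 1 ≤ k ∧ 16 / ε ≤ k := by
    refine ⟨⌈16 / ε⌉₊, Nat.one_le_iff_ne_zero.2 (Nat.ceil_pos.2 (by positivity)).ne', Nat.le_ceil _⟩
  have hkε : 2 ≤ ε / 8 * k := by
    rw [div_le_iff₀ hε] at hk
    linarith
  have hk0 : (0 : ℝ) < (k : ℝ) + 1 := by positivity
  obtain ⟨η, hη0, hηk⟩ : ∃ η : ℝ, 0 < η ∧ η * (k + 1) = ε / 8 :=
    ⟨ε / 8 / (k + 1), by positivity, div_mul_cancel₀ _ hk0.ne'⟩
  obtain ⟨M, hM⟩ : ∃ M : ℝ, M = 1 + 1 / η := ⟨_, rfl⟩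
  have hM1 : 1 ≤ M := by
    rw [hM]
    have : 0 < 1 / η := by positivity
    linarith
  obtain ⟨B, hB⟩ : ∃ B : ℝ, B = (6300 * M) ^ k * (2 ^ (k + 1) * (22 * M) + 4 * k * 2 ^ k) := ⟨_, rfl⟩
  have hB0 : 0 ≤ B := by rw [hB]; positivity
  have hlarge : ∃ N : ℕ, ∀ D : ℕ, N ≤ D → 2 * (C * B) ≤ (D : ℝ) ^ (ε / 8) := by
    have h1 : Filter.Tendsto (fun D : ℕ => (D : ℝ) ^ (ε / 8)) Filter.atTop Filter.atTop :=
      (tendsto_rpow_atTop (by positivity)).comp tendsto_natCast_atTop_atTop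
    exact Filter.eventually_atTop.1 (h1.eventually_ge_atTop (2 * (C * B)))
  obtain ⟨N, hN⟩ := hlarge
  refine ⟨N + 2 * C + 1000 * 8000 ^ k, fun D s h hD hs t ht h1 h2 => ?_⟩
  have hDN := hN D (by omega)
  have hDC : 2 * C ≤ D := by omega
  have hD3 : 1000 * 8000 ^ k ≤ D := by omega
  have hD1 : 1 ≤ D := le_trans (by have : 1 ≤ 8000 ^ k := Nat.one_le_pow _ _ (by norm_num)
                                   omega) hD3
  have hDr1 : (1 : ℝ) ≤ D := by exact_mod_cast hD1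
  have hDr0 : (0 : ℝ) < D := by linarith
  obtain ⟨x, hx⟩ : ∃ x : ℝ, x = Real.log D := ⟨_, rfl⟩
  have hx0 : 0 ≤ x := by rw [hx]; exact Real.log_nonneg hDr1
  have hexp : Real.exp x = D := by rw [hx]; exact Real.exp_log hDr0
  -- `l'` and `l`
  obtain ⟨l', hl'1, hl'2, hl'3⟩ : ∃ l' : ℕ, 1 ≤ l' ∧ 12 * x ≤ l' ∧ (l' : ℝ) ≤ 14 * (1 + x) := by
    refine ⟨⌈12 * x⌉₊ + 1, by omega, ?_, ?_⟩
    · push_cast
      have := Nat.le_ceil (12 * x)
      linarith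
    · push_cast
      have := Nat.ceil_lt_add_one (show 0 ≤ 12 * x by positivity)
      linarith
  obtain ⟨l, hl1, hl2, hl3⟩ : ∃ l : ℕ, 1 ≤ l ∧ 20 * (x + t) ≤ l ∧ (l : ℝ) ≤ 22 * (1 + x) * (1 + t) := by
    refine ⟨⌈20 * (x + t)⌉₊ + 1, by omega, ?_, ?_⟩
    · push_cast
      have := Nat.le_ceil (20 * (x + t))
      linarith
    · push_cast
      have := Nat.ceil_lt_add_one (show 0 ≤ 20 * (x + t) by positivity)
      have h3 : 0 ≤ x * t := mul_nonneg hx0 ht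
      nlinarith
  obtain ⟨a, ha1, ha2, ha3, ha4⟩ := NumF_a (s := s) hk1 hl1 hs
  have ha3' : ((a : ℝ) ^ 2) ^ k ≤ 4 ^ k * s := by exact_mod_cast ha3
  have ha4' : (l : ℝ) * ((a : ℝ) ^ 2) ^ k ≤ 4 ^ k * (l + s) := by exact_mod_cast ha4
  have har1 : (1 : ℝ) ≤ a := by exact_mod_cast ha1
  have hsr1 : (1 : ℝ) ≤ s := by exact_mod_cast hs
  have hlr1 : (1 : ℝ) ≤ l := by exact_mod_cast hl1
  -- the bound for `s`
  have hh1 : (1 : ℝ) ≤ (h : ℝ) + 1 := by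
    have : (0 : ℝ) ≤ h := Nat.cast_nonneg h
    linarith
  have hsD : (s : ℝ) ≤ (D : ℝ) ^ (2 - ε) := by
    refine le_trans ?_ h1
    have h3 : (1 : ℝ) ≤ ((h : ℝ) + 1) ^ 2 := one_le_pow₀ hh1
    have h4 : (0 : ℝ) ≤ s := by linarith
    calc (s : ℝ) = 1 * s * 1 := by ring
      _ ≤ ((h : ℝ) + 1) ^ 2 * s * (1 + t) := by
          refine mul_le_mul (mul_le_mul_of_nonneg_right h3 h4) (by linarith) zero_le_one (by positivity)
  have hsD2 : (s : ℝ) ≤ (D : ℝ) ^ 2 := by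
    refine hsD.trans ?_
    rw [← Real.rpow_natCast]
    exact Real.rpow_le_rpow_of_exponent_le hDr1 (by push_cast; linarith)
  -- `A = a^k`
  obtain ⟨A, hA⟩ : ∃ A : ℝ, A = (a : ℝ) ^ k := ⟨_, rfl⟩
  have hA0 : 0 < A := by rw [hA]; positivity
  have hA2 : ((a : ℝ) ^ 2) ^ k = A ^ 2 := by rw [hA, ← pow_mul, ← pow_mul, mul_comm]
  rw [hA2] at ha3' ha4'
  obtain ⟨E, hE⟩ : ∃ E : ℝ, E = (D : ℝ) ^ (1 - ε / 4) := ⟨_, rfl⟩
  have hE0 : 0 < E := by rw [hE]; positivity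
  have h4k : (4 : ℝ) ^ k = (2 ^ k) ^ 2 := by
    rw [← pow_mul, mul_comm, pow_mul]; norm_num
  have h2k : (0 : ℝ) < 2 ^ k := by positivity
  refine ⟨a, l', k, l, ha1, hl'1, hl1, ha2, ?_, ?_, ?_⟩
  · -- first condition
    have h3 : (2000 * (a : ℝ) ^ 2) ^ k ≤ 8000 ^ k * (D : ℝ) ^ 2 := by
      rw [mul_pow, hA2]
      calc (2000 : ℝ) ^ k * A ^ 2 ≤ 2000 ^ k * (4 ^ k * s) := mul_le_mul_of_nonneg_left ha3' (by positivity)
        _ = 8000 ^ k * s := by rw [← mul_assoc, ← mul_pow]; norm_num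
        _ ≤ 8000 ^ k * (D : ℝ) ^ 2 := mul_le_mul_of_nonneg_left hsD2 (by positivity)
    have h4 : ((2 : ℝ) / 3) ^ l' ≤ Real.exp (-(4 * x)) := by
      have h5 : (2 : ℝ) / 3 ≤ Real.exp (-(1 / 3)) := by
        have := Real.add_one_le_exp (-(1 / 3) : ℝ)
        linarith
      calc ((2 : ℝ) / 3) ^ l' ≤ (Real.exp (-(1 / 3))) ^ l' := pow_le_pow_left₀ (by norm_num) h5 _
        _ = Real.exp (l' * (-(1 / 3))) := (Real.exp_nat_mul _ _).symm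
        _ ≤ Real.exp (-(4 * x)) := Real.exp_le_exp.2 (by linarith)
    have h5 : Real.exp (-(4 * x)) = 1 / (D : ℝ) ^ 4 := by
      rw [Real.exp_neg, show (4 : ℝ) * x = ((4 : ℕ) : ℝ) * x by norm_num, Real.exp_nat_mul, hexp, one_div]
    have h6 : (1000 : ℝ) * 8000 ^ k ≤ D := by exact_mod_cast hD3
    calc (2000 * (a : ℝ) ^ 2) ^ k * (2 / 3) ^ l' ≤ (8000 ^ k * (D : ℝ) ^ 2) * (1 / (D : ℝ) ^ 4) := by
          rw [← h5]
          exact mul_le_mul h3 h4 (by positivity) (by positivity)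
      _ = 8000 ^ k / (D : ℝ) ^ 2 := by field_simp
      _ ≤ 1 / 1000 := by
          rw [div_le_div_iff₀ (by positivity) (by norm_num)]
          have h7 : (D : ℝ) ≤ (D : ℝ) ^ 2 := le_self_pow₀ hDr1 two_ne_zero
          linarith
  · -- second condition
    have h4 : ((1 : ℝ) / 2) ^ l ≤ Real.exp (-(10 * (x + t))) := by
      have h5 : (1 : ℝ) / 2 ≤ Real.exp (-(1 / 2)) := by
        have := Real.add_one_le_exp (-(1 / 2) : ℝ)
        linarith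
      calc ((1 : ℝ) / 2) ^ l ≤ (Real.exp (-(1 / 2))) ^ l := pow_le_pow_left₀ (by norm_num) h5 _
        _ = Real.exp (l * (-(1 / 2))) := (Real.exp_nat_mul _ _).symm
        _ ≤ Real.exp (-(10 * (x + t))) := Real.exp_le_exp.2 (by linarith)
    have hC2 : (C : ℝ) ≤ D := by
      have : C ≤ D := by omega
      exact_mod_cast this
    have h5 : (C * (D : ℝ) ^ 4 * Real.exp t) ^ 2 ≤ Real.exp (10 * (x + t)) := by
      calc (C * (D : ℝ) ^ 4 * Real.exp t) ^ 2 ≤ (D * (D : ℝ) ^ 4 * Real.exp t) ^ 2 := by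
            refine pow_le_pow_left₀ (by positivity) ?_ 2
            refine mul_le_mul_of_nonneg_right (mul_le_mul_of_nonneg_right hC2 (by positivity)) (by positivity)
        _ = Real.exp (10 * x + 2 * t) := by
            rw [Real.exp_add, show (10 : ℝ) * x = ((10 : ℕ) : ℝ) * x by norm_num, Real.exp_nat_mul, hexp,
              show (2 : ℝ) * t = ((2 : ℕ) : ℝ) * t by norm_num, Real.exp_nat_mul]
            ring
        _ ≤ Real.exp (10 * (x + t)) := Real.exp_le_exp.2 (by linarith)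
    calc (C * (D : ℝ) ^ 4 * Real.exp t) ^ 2 * (1 / 2) ^ l
        ≤ Real.exp (10 * (x + t)) * Real.exp (-(10 * (x + t))) := mul_le_mul h5 h4 (by positivity) (by positivity)
      _ = 1 := by rw [← Real.exp_add, add_neg_cancel, Real.exp_zero]
  · -- last condition
    obtain ⟨Λ, hΛ⟩ : ∃ Λ : ℝ, Λ = 22 * (1 + x) := ⟨_, rfl⟩
    have hΛ1 : 1 ≤ Λ := by rw [hΛ]; linarith
    -- first term
    have hT1 : ((h : ℝ) + 1) * (l * A) ≤ 2 ^ (k + 1) * Λ * E := by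
      refine le_of_pow_le_pow_left₀ (n := 2) two_ne_zero (by positivity) ?_
      have h3 : ((h : ℝ) + 1) * l ≤ Λ * E := by
        calc ((h : ℝ) + 1) * l ≤ ((h : ℝ) + 1) * (22 * (1 + x) * (1 + t)) :=
              mul_le_mul_of_nonneg_left hl3 (by positivity)
          _ = Λ * (((h : ℝ) + 1) * (1 + t)) := by rw [hΛ]; ring
          _ ≤ Λ * E := mul_le_mul_of_nonneg_left (by rw [hE]; exact h2) (by positivity)
      have h4 : ((h : ℝ) + 1) ^ 2 * l * s ≤ Λ * E ^ 2 := by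
        calc ((h : ℝ) + 1) ^ 2 * l * s ≤ ((h : ℝ) + 1) ^ 2 * (22 * (1 + x) * (1 + t)) * s := by
              refine mul_le_mul_of_nonneg_right (mul_le_mul_of_nonneg_left hl3 (by positivity)) (by positivity)
          _ = Λ * (((h : ℝ) + 1) ^ 2 * s * (1 + t)) := by rw [hΛ]; ring
          _ ≤ Λ * (D : ℝ) ^ (2 - ε) := mul_le_mul_of_nonneg_left h1 (by positivity)
          _ ≤ Λ * E ^ 2 := by
              refine mul_le_mul_of_nonneg_left ?_ (by positivity)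
              rw [hE, ← Real.rpow_natCast ((D : ℝ) ^ (1 - ε / 4)), ← Real.rpow_mul hDr0.le]
              exact Real.rpow_le_rpow_of_exponent_le hDr1 (by push_cast; linarith)
      calc (((h : ℝ) + 1) * (l * A)) ^ 2 = ((h : ℝ) + 1) ^ 2 * l * (l * A ^ 2) := by ring
        _ ≤ ((h : ℝ) + 1) ^ 2 * l * (4 ^ k * (l + s)) := mul_le_mul_of_nonneg_left ha4' (by positivity)
        _ = 4 ^ k * ((((h : ℝ) + 1) * l) ^ 2 + ((h : ℝ) + 1) ^ 2 * l * s) := by ring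
        _ ≤ 4 ^ k * ((Λ * E) ^ 2 + Λ * E ^ 2) := by
            refine mul_le_mul_of_nonneg_left (add_le_add ?_ h4) (by positivity)
            exact pow_le_pow_left₀ (by positivity) h3 2
        _ ≤ 4 ^ k * ((Λ * E) ^ 2 + (Λ * E) ^ 2) := by
            refine mul_le_mul_of_nonneg_left (add_le_add le_rfl ?_) (by positivity)
            rw [mul_pow]
            refine mul_le_mul_of_nonneg_right ?_ (by positivity)
            exact le_self_pow₀ hΛ1 two_ne_zero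
        _ ≤ (2 ^ (k + 1) * Λ * E) ^ 2 := by
            rw [h4k]
            have h5 : 0 ≤ (2 ^ k * Λ * E) ^ 2 := by positivity
            have h6 : (2 ^ (k + 1) * Λ * E) ^ 2 = 4 * (2 ^ k * Λ * E) ^ 2 := by ring
            have h7 : ((2 : ℝ) ^ k) ^ 2 * ((Λ * E) ^ 2 + (Λ * E) ^ 2) = 2 * (2 ^ k * Λ * E) ^ 2 := by ring
            rw [h6, h7]
            linarith
    -- second term
    have hT2 : (a : ℝ) ^ 2 * A ≤ 4 * 2 ^ k * E := by
      have h3 : (a : ℝ) ^ 2 ≤ 4 * (D : ℝ) ^ (ε / 8) := by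
        refine le_of_pow_le_pow_left₀ (n := k) (by omega) (by positivity) ?_
        rw [hA2, mul_pow]
        refine ha3'.trans (mul_le_mul_of_nonneg_left (hsD2.trans ?_) (by positivity))
        rw [← Real.rpow_natCast ((D : ℝ) ^ (ε / 8)), ← Real.rpow_mul hDr0.le, ← Real.rpow_natCast]
        exact Real.rpow_le_rpow_of_exponent_le hDr1 (by push_cast; linarith)
      have h4 : A ≤ 2 ^ k * (D : ℝ) ^ (1 - ε / 2) := by
        refine le_of_pow_le_pow_left₀ (n := 2) two_ne_zero (by positivity) ?_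
        rw [mul_pow, ← h4k]
        refine ha3'.trans (mul_le_mul_of_nonneg_left (hsD.trans ?_) (by positivity))
        rw [← Real.rpow_natCast ((D : ℝ) ^ (1 - ε / 2)), ← Real.rpow_mul hDr0.le]
        exact Real.rpow_le_rpow_of_exponent_le hDr1 (by push_cast; linarith)
      calc (a : ℝ) ^ 2 * A ≤ (4 * (D : ℝ) ^ (ε / 8)) * (2 ^ k * (D : ℝ) ^ (1 - ε / 2)) :=
            mul_le_mul h3 h4 hA0.le (by positivity)
        _ = 4 * 2 ^ k * ((D : ℝ) ^ (ε / 8) * (D : ℝ) ^ (1 - ε / 2)) := by ring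
        _ ≤ 4 * 2 ^ k * E := by
            refine mul_le_mul_of_nonneg_left ?_ (by positivity)
            rw [← Real.rpow_add hDr0, hE]
            exact Real.rpow_le_rpow_of_exponent_le hDr1 (by linarith)
    -- logarithms
    have hlog : 1 + x ≤ M * (D : ℝ) ^ η := by
      have h3 : Real.log D ≤ (D : ℝ) ^ η / η := Real.log_le_rpow_div hDr0.le hη0
      have h4 : (1 : ℝ) ≤ (D : ℝ) ^ η := Real.one_le_rpow hDr1 hη0.le
      rw [hM, hx, add_mul, one_mul, one_div, inv_mul_eq_div]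
      linarith
    have hDη : (1 : ℝ) ≤ (D : ℝ) ^ η := Real.one_le_rpow hDr1 hη0.le
    have hP : (450 * (l' : ℝ)) ^ k ≤ (6300 * M) ^ k * ((D : ℝ) ^ η) ^ k := by
      rw [← mul_pow]
      refine pow_le_pow_left₀ (by positivity) ?_ k
      calc 450 * (l' : ℝ) ≤ 450 * (14 * (1 + x)) := mul_le_mul_of_nonneg_left hl'3 (by norm_num)
        _ = 6300 * (1 + x) := by ring
        _ ≤ 6300 * (M * (D : ℝ) ^ η) := mul_le_mul_of_nonneg_left hlog (by norm_num)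
        _ = 6300 * M * (D : ℝ) ^ η := by ring
    have hsum : ((h : ℝ) + 1) * (l * A) + k * ((a : ℝ) ^ 2 * A) ≤
        (2 ^ (k + 1) * (22 * M) + 4 * k * 2 ^ k) * ((D : ℝ) ^ η * E) := by
      have h3 : 2 ^ (k + 1) * Λ * E ≤ 2 ^ (k + 1) * (22 * M) * ((D : ℝ) ^ η * E) := by
        calc 2 ^ (k + 1) * Λ * E = 2 ^ (k + 1) * 22 * E * (1 + x) := by rw [hΛ]; ring
          _ ≤ 2 ^ (k + 1) * 22 * E * (M * (D : ℝ) ^ η) := mul_le_mul_of_nonneg_left hlog (by positivity)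
          _ = _ := by ring
      have h4 : (k : ℝ) * ((a : ℝ) ^ 2 * A) ≤ 4 * k * 2 ^ k * ((D : ℝ) ^ η * E) := by
        calc (k : ℝ) * ((a : ℝ) ^ 2 * A) ≤ k * (4 * 2 ^ k * E) := mul_le_mul_of_nonneg_left hT2 (by positivity)
          _ = 4 * k * 2 ^ k * (1 * E) := by ring
          _ ≤ 4 * k * 2 ^ k * ((D : ℝ) ^ η * E) := by
              refine mul_le_mul_of_nonneg_left (mul_le_mul_of_nonneg_right hDη hE0.le) (by positivity)
      rw [add_mul]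
      linarith
    have hmain : (C : ℝ) * ((450 * (l' : ℝ)) ^ k * (((h : ℝ) + 1) * (l * A) + k * ((a : ℝ) ^ 2 * A))) ≤
        C * B * (D : ℝ) ^ (1 - ε / 8) := by
      have h3 : (450 * (l' : ℝ)) ^ k * (((h : ℝ) + 1) * (l * A) + k * ((a : ℝ) ^ 2 * A)) ≤
          ((6300 * M) ^ k * ((D : ℝ) ^ η) ^ k) *
            ((2 ^ (k + 1) * (22 * M) + 4 * k * 2 ^ k) * ((D : ℝ) ^ η * E)) :=
        mul_le_mul hP hsum (by positivity) (by positivity)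
      have h4 : ((D : ℝ) ^ η) ^ k * ((D : ℝ) ^ η * E) = (D : ℝ) ^ (1 - ε / 8) := by
        rw [← mul_assoc, ← pow_succ, ← Real.rpow_natCast ((D : ℝ) ^ η), ← Real.rpow_mul hDr0.le, hE,
          ← Real.rpow_add hDr0]
        congr 1
        push_cast
        linarith
      calc (C : ℝ) * ((450 * (l' : ℝ)) ^ k * (((h : ℝ) + 1) * (l * A) + k * ((a : ℝ) ^ 2 * A)))
          ≤ C * (((6300 * M) ^ k * ((D : ℝ) ^ η) ^ k) *
            ((2 ^ (k + 1) * (22 * M) + 4 * k * 2 ^ k) * ((D : ℝ) ^ η * E))) :=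
            mul_le_mul_of_nonneg_left h3 (by positivity)
        _ = C * B * (((D : ℝ) ^ η) ^ k * ((D : ℝ) ^ η * E)) := by rw [hB]; ring
        _ = _ := by rw [h4]
    have hfin : C * B * (D : ℝ) ^ (1 - ε / 8) ≤ D / 2 := by
      have h3 : (D : ℝ) ^ (ε / 8) * (D : ℝ) ^ (1 - ε / 8) = D := by
        rw [← Real.rpow_add hDr0]
        have : ε / 8 + (1 - ε / 8) = 1 := by ring
        rw [this, Real.rpow_one]
      have h4 : 2 * (C * B) * (D : ℝ) ^ (1 - ε / 8) ≤ (D : ℝ) ^ (ε / 8) * (D : ℝ) ^ (1 - ε / 8) :=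
        mul_le_mul_of_nonneg_right hDN (by positivity)
      rw [h3] at h4
      linarith
    have hC2 : (C : ℝ) ≤ D / 2 := by
      have h3 : ((2 * C : ℕ) : ℝ) ≤ D := by exact_mod_cast hDC
      push_cast at h3
      linarith
    have hreal : (C : ℝ) * (((h : ℝ) + 1) * (l * (450 * l' * a) ^ k)) +
        C * (k * ((a : ℝ) ^ 2 * (450 * l' * a) ^ k)) + C ≤ D := by
      have h3 : (450 * (l' : ℝ) * a) ^ k = (450 * (l' : ℝ)) ^ k * A := by rw [mul_pow, hA]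
      rw [h3]
      have h4 : (C : ℝ) * (((h : ℝ) + 1) * (l * ((450 * (l' : ℝ)) ^ k * A))) +
          C * (k * ((a : ℝ) ^ 2 * ((450 * (l' : ℝ)) ^ k * A))) =
          (C : ℝ) * ((450 * (l' : ℝ)) ^ k * (((h : ℝ) + 1) * (l * A) + k * ((a : ℝ) ^ 2 * A))) := by ring
      rw [h4]
      linarith
    exact_mod_cast hreal

theorem fs_num (ε : ℝ) (hε : 0 < ε) (C : ℕ) : ∃ D₀ : ℕ, ∀ D s h : ℕ, D₀ ≤ D → 1 ≤ s →
    ∀ t : ℝ, 0 ≤ t → ((h : ℝ) + 1) ^ 2 * s * (1 + t) ≤ (D : ℝ) ^ (2 - ε) →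
      ((h : ℝ) + 1) * (1 + t) ≤ (D : ℝ) ^ (1 - ε / 4) →
      ∃ a l' k l : ℕ, 1 ≤ a ∧ 1 ≤ l' ∧ 1 ≤ l ∧ s ≤ l * (a ^ 2) ^ k ∧
        (2000 * (a : ℝ) ^ 2) ^ k * (2 / 3) ^ l' ≤ 1 / 1000 ∧
        (C * (D : ℝ) ^ 4 * Real.exp t) ^ 2 * (1 / 2) ^ l ≤ 1 ∧
        C * ((h + 1) * (l * (450 * l' * a) ^ k)) + C * (k * (a ^ 2 * (450 * l' * a) ^ k)) + C ≤
          D := by
  rcases le_or_gt ε 1 with hε1 | hε1
  · exact NumF_aux ε hε hε1 C
  · obtain ⟨D₀, hD₀⟩ := NumF_aux 1 one_pos le_rfl C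
    refine ⟨D₀ + 1, fun D s h hD hs t ht h1 h2 => hD₀ D s h (by omega) hs t ht ?_ ?_⟩
    · refine h1.trans (Real.rpow_le_rpow_of_exponent_le ?_ (by linarith))
      exact_mod_cast (show 1 ≤ D by omega)
    · refine h2.trans (Real.rpow_le_rpow_of_exponent_le ?_ (by linarith))
      exact_mod_cast (show 1 ≤ D by omega)

end Pool.Agent.MP_9cec2c_lc.SL
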