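import Pool.Agent.Lib.MP_9cec2c_lc.SL.ShTop
import Pool.Agent.Lib.MP_9cec2c_lc.FS.Bool
import Pool.Agent.Lib.MP_9cec2c_lc.FS.Cond

/-!
TASK PE: valuations in the world of a pseudo-expectation.

`pe_hyp`. Hypotheses: `N ((1 - v A) g) ≤ N ((1 - Â) g) + N ((v A - Â) g)`, `Â = (nnf φ).val xb`: the first is 0
(`hyp_nullB` with `a = B`), the second `≤ 8 |A| ε N g ≤ 8 b ε N g` (`exact_op`, `B + 2c + 2|A| ≤ L`). All terms belong
to `F D`.
Refuting formulas: `ff`: `v ff = 0`, `N 0 = 0`. `A = ¬φ`, `φ` a conjunction: `nnf A = dual (nnf φ)`,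
`v (dual) g = (v dual - (1 - v φ)) g + (1 - v φ) g`; `dual_op`: `≤ 8 s ε N g`. For the second `op_of_cond`
with `z = 1 - v φ ∈ F c`: in the world `W.cond g` (good with `L - B`) `conj_rel` with
`T A' = ∃ ψ ∈ Hyp b F, A' = nnf ψ`, `δ = 8 b ε` (by the first part, `N_g (1 - v A') = N ((1 - v A') g) / N g`), so
`≤ 4 s (8 b ε + ε) ≤ 36 b s ε` (`b ≥ 1`; an induction turns `IsConj` into `Conj T`). Total `≤ 44 b s ε`.
`pe_good`: unfold `HasPE`, `W = peW E ..`, `c₀ = (450 l' a)^k`, `c = 200 l c₀`, `L = B + 4 c + 2 b`,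
`L₁ = L + 1000 l c₀`, `v = topv (lev xb l' (a²) k) ((a²)^k) l`. `levels` with `L₁` (`L₁ + 2 + k (200 a² c₀) ≤ D`
by `hD`), then `top` (`L₁ + 2 c₀ ≤ D`: if `k ≥ 1` from `200 a² c₀ ≥ 2 c₀`, if `k = 0`, `c₀ = 1`), `isVal_mono` to
sizes `≤ s`. Literals: `topv_lit`, `lev_lit`, `xb_flip`. `Good.small`: `hε`.
`pe_exact`: `v A = A.val xb`: `IsVal` with `c = s`, `ε = 0` (`val_idem`, `val_mem`, both gates hold exactly:
the elements are 0, `N 0 = 0`), `L = B + 4 s + 2 b`.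
-/

set_option autoImplicit false

open Finset
open scoped Classical

namespace Pool.Agent.MP_9cec2c_lc.SL

private theorem PE_conj {X : Type} {b : ℕ} {F : List (List (X × Bool))} {φ : Form X}
    (h : IsConj (Hyp b F) φ) : Conj (fun A' => ∃ ψ ∈ Hyp b F, A' = nnf ψ) (nnf φ) := by
  induction h with
  | base A hA => exact Conj.base _ ⟨A, hA, rfl⟩
  | and A B _ _ ihA ihB => exact Conj.and _ _ ihA ihB

theorem pe_hyp {X : Type} {F : List (List (X × Bool))} {E : ((X → Bool) → ℝ) →ₗ[ℝ] ℝ}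
    (h1 : E 1 = 1) {D w b s c B L : ℕ} {ε : ℝ} (hE : ∀ f ∈ Poly X D, 0 ≤ E (f * f))
    (hF : ∀ C ∈ F, E (viol C) = 0) (hw : ∀ C ∈ F, C.length ≤ w) (hb : 1 ≤ b)
    {v : Fm (X × Bool) → (X → Bool) → ℝ} (h : (peW E h1 D hE).Good v s c ε L)
    (hlit : ∀ y, v (Fm.lit y) = xb y) (hL : B + 4 * c + 2 * b ≤ L) (hD : w + 2 * (b + B) ≤ D) :
    (∀ A ∈ Hyp b F, A.size ≤ s → ∀ g ∈ (peW E h1 D hE).F B,
      (peW E h1 D hE).N ((1 - v (nnf A)) * g) ≤ 8 * b * ε * (peW E h1 D hE).N g) ∧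
    ∀ A ∈ Refuting b F, A.size ≤ s → ∀ g ∈ (peW E h1 D hE).F B,
      (peW E h1 D hE).N (v (nnf A) * g) ≤ 60 * b * s * ε * (peW E h1 D hE).N g := by
  have hheight := h.height
  have hε := h.pos
  have hDD : (peW E h1 D hE).D = D := rfl
  rw [hDD] at hheight
  have part1 : ∀ A ∈ Hyp b F, A.size ≤ s → ∀ g ∈ (peW E h1 D hE).F B,
      (peW E h1 D hE).N ((1 - v (nnf A)) * g) ≤ 8 * b * ε * (peW E h1 D hE).N g := by
    intro A hA hAs g hg
    have hsz : (nnf A).size = A.size := nnf_size A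
    have hAb : A.size ≤ b := hA.1
    have e1 := hyp_nullB h1 (a := B) hE hF hw hD hA hg
    have e2 := (peW E h1 D hE).exact_op h xb (fun y => ⟨xb_mem y, xb_idem y⟩) hlit (nnf A)
      (by omega) (L' := B) (by omega) hg
    have m1 : (nnf A).val xb ∈ (peW E h1 D hE).F b :=
      (peW E h1 D hE).F_mono _ _ (by omega) ((peW E h1 D hE).val_mem (fun y => xb_mem y) (nnf A))
    have m2 : v (nnf A) ∈ (peW E h1 D hE).F c := (h.val.bit (nnf A) (by omega)).mem
    have m3 : (1 - (nnf A).val xb) * g ∈ (peW E h1 D hE).F (peW E h1 D hE).D :=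
      (peW E h1 D hE).F_mono _ _ (by rw [hDD]; omega)
        ((peW E h1 D hE).mul_mem b B _ _ (Submodule.sub_mem _ ((peW E h1 D hE).one_mem' b) m1) hg)
    have m4 : (v (nnf A) - (nnf A).val xb) * g ∈ (peW E h1 D hE).F (peW E h1 D hE).D :=
      (peW E h1 D hE).F_mono _ _ (by rw [hDD]; omega)
        ((peW E h1 D hE).mul_mem (c + b) B _ _ (Submodule.sub_mem _
          ((peW E h1 D hE).F_mono _ _ (by omega) m2) ((peW E h1 D hE).F_mono _ _ (by omega) m1)) hg)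
    have e3 : (1 - v (nnf A)) * g = (1 - (nnf A).val xb) * g - (v (nnf A) - (nnf A).val xb) * g := by
      ring
    rw [e3]
    refine ((peW E h1 D hE).N_sub m3 m4).trans ?_
    rw [e1, zero_add]
    refine e2.trans ?_
    have h5 : ((nnf A).size : ℝ) ≤ b := by
      rw [hsz]
      exact_mod_cast hAb
    have h6 := (peW E h1 D hE).N_nonneg g
    have h7 : 8 * ((nnf A).size : ℝ) * ε ≤ 8 * b * ε := by
      have h8 := mul_le_mul_of_nonneg_right h5 hε
      linarith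
    exact mul_le_mul_of_nonneg_right h7 h6
  refine ⟨part1, ?_⟩
  intro A hA hAs g hg
  have hNg := (peW E h1 D hE).N_nonneg g
  have hb' : (1 : ℝ) ≤ b := by exact_mod_cast hb
  have hs' : (1 : ℝ) ≤ s := by exact_mod_cast h.one
  have hbs : (s : ℝ) ≤ b * s := by nlinarith
  rcases hA with rfl | ⟨φ, hφ, rfl⟩
  · have e1 : v (nnf (Form.ff : Form X)) = 0 := h.val.v_ff
    rw [e1, zero_mul, (peW E h1 D hE).N_zero]
    positivity
  · have hsz : (nnf φ).size = φ.size := nnf_size φ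
    have hφs : φ.size ≤ s := hAs
    have e1 : nnf (Form.neg φ) = (nnf φ).dual flip := rfl
    have e2 := (peW E h1 D hE).dual_op h (nnf φ) (by omega) (L' := B) (by omega) hg
    have m1 : v (nnf φ) ∈ (peW E h1 D hE).F c := (h.val.bit (nnf φ) (by omega)).mem
    have m2 : v ((nnf φ).dual flip) ∈ (peW E h1 D hE).F c :=
      (h.val.bit _ (by rw [dual_size]; omega)).mem
    have m3 : 1 - v (nnf φ) ∈ (peW E h1 D hE).F c :=
      Submodule.sub_mem _ ((peW E h1 D hE).one_mem' c) m1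
    have hBD : B ≤ (peW E h1 D hE).D := by rw [hDD]; omega
    have e3 := (peW E h1 D hE).op_of_cond (η := 36 * b * s * ε) hg m3 (by rw [hDD]; omega) hBD (by
      intro h0
      have hgood := (peW E h1 D hE).cond_good h hg hBD h0 (by omega)
      have hpos : 0 < (peW E h1 D hE).N g := lt_of_le_of_ne hNg (Ne.symm h0)
      have h8 := ((peW E h1 D hE).cond g B hg hBD h0).conj_rel (δ := 8 * b * ε) hgood.val hε
        (by positivity) (fun A' => ∃ ψ ∈ Hyp b F, A' = nnf ψ) (by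
          rintro A' ⟨ψ, hψ, rfl⟩ hs2
          rw [(peW E h1 D hE).cond_N hg hBD h0, div_le_iff₀ hpos]
          refine part1 ψ hψ ?_ g hg
          rw [← nnf_size ψ]
          exact hs2) (by omega) hgood.height h.small (nnf φ) (by omega) (PE_conj hφ)
      refine h8.trans ?_
      have h9 : ((nnf φ).size : ℝ) ≤ s := by
        rw [hsz]
        exact_mod_cast hφs
      have h10 : 8 * b * ε + ε ≤ 9 * b * ε := by nlinarith
      have h11 : (0 : ℝ) ≤ 8 * b * ε + ε := by positivity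
      calc 4 * ((nnf φ).size : ℝ) * (8 * b * ε + ε) ≤ 4 * (s : ℝ) * (8 * b * ε + ε) :=
            mul_le_mul_of_nonneg_right (by linarith) h11
        _ ≤ 4 * (s : ℝ) * (9 * b * ε) := mul_le_mul_of_nonneg_left h10 (by positivity)
        _ = 36 * b * s * ε := by ring)
    have m4 : (v ((nnf φ).dual flip) - (1 - v (nnf φ))) * g ∈
        (peW E h1 D hE).F (peW E h1 D hE).D :=
      (peW E h1 D hE).F_mono _ _ (by rw [hDD]; omega)
        ((peW E h1 D hE).mul_mem c B _ _ (Submodule.sub_mem _ m2 m3) hg)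
    have m5 : (1 - v (nnf φ)) * g ∈ (peW E h1 D hE).F (peW E h1 D hE).D :=
      (peW E h1 D hE).F_mono _ _ (by rw [hDD]; omega)
        ((peW E h1 D hE).mul_mem c B _ _ m3 hg)
    have e4 : v ((nnf φ).dual flip) * g =
        (v ((nnf φ).dual flip) - (1 - v (nnf φ))) * g + (1 - v (nnf φ)) * g := by ring
    rw [e1, e4]
    refine ((peW E h1 D hE).N_add m4 m5).trans ?_
    have h12 : 8 * (s : ℝ) * ε ≤ 8 * (b * s) * ε := by
      have := mul_le_mul_of_nonneg_right hbs hε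
      linarith
    have h13 : 8 * (s : ℝ) * ε * (peW E h1 D hE).N g ≤ 8 * (b * s) * ε * (peW E h1 D hE).N g :=
      mul_le_mul_of_nonneg_right h12 hNg
    have h14 : 0 ≤ b * s * ε * (peW E h1 D hE).N g := by positivity
    calc _ ≤ 8 * (s : ℝ) * ε * (peW E h1 D hE).N g + 36 * b * s * ε * (peW E h1 D hE).N g :=
          add_le_add e2 e3
      _ ≤ 60 * b * s * ε * (peW E h1 D hE).N g := by linarith

theorem pe_good {X : Type} {F : List (List (X × Bool))} {D w b s a l' k l B : ℕ}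
    (hF : HasPE F D) (hw : ∀ C ∈ F, C.length ≤ w) (hb : 1 ≤ b) (hs : 1 ≤ s) (ha : 1 ≤ a)
    (hl' : 1 ≤ l') (hl : 1 ≤ l) (hsk : s ≤ l * (a ^ 2) ^ k)
    (hη : (2000 * (a : ℝ) ^ 2) ^ k * (2 / 3) ^ l' ≤ 1 / 1000)
    (hε : 4 * (s : ℝ) * (1 / 2) ^ l ≤ 1)
    (hD : 2 * B + 9 * (200 * l * (450 * l' * a) ^ k) + 2 * b + w + 2 +
      k * (200 * a ^ 2 * (450 * l' * a) ^ k) ≤ D) :
    ∃ (W : World ((X → Bool) → ℝ)) (v : Fm (X × Bool) → (X → Bool) → ℝ),
      W.Good v s (200 * l * (450 * l' * a) ^ k) ((1 / 2) ^ l)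
        (B + 4 * (200 * l * (450 * l' * a) ^ k) + 2 * b) ∧
      (∀ A ∈ Hyp b F, A.size ≤ s → ∀ g ∈ W.F B,
        W.N ((1 - v (nnf A)) * g) ≤ 8 * b * (1 / 2) ^ l * W.N g) ∧
      ∀ A ∈ Refuting b F, A.size ≤ s → ∀ g ∈ W.F B,
        W.N (v (nnf A) * g) ≤ 60 * b * s * (1 / 2) ^ l * W.N g := by
  obtain ⟨E, h1, hE, hFE⟩ := hF
  have hFv : ∀ C ∈ F, E (viol C) = 0 := by
    intro C hC
    rw [← hFE C hC]
    congr 1
  generalize hc0 : (450 * l' * a) ^ k = c₀ at *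
  have hc0pos : 1 ≤ c₀ := by
    rw [← hc0]
    exact Nat.one_le_pow _ _ (by positivity)
  have hDD : (peW E h1 D hE).D = D := rfl
  have hx : ∀ y : X × Bool, (xb y : (X → Bool) → ℝ) ∈ (peW E h1 D hE).F 1 ∧
      (xb y : (X → Bool) → ℝ) * xb y = xb y := fun y => ⟨xb_mem y, xb_idem y⟩
  have hη1 : (2000 * (a : ℝ) ^ 2) ^ k * (2 / 3) ^ l' ≤ 1 := hη.trans (by norm_num)
  have hk2 : 2 * c₀ ≤ 2 + k * (200 * a ^ 2 * c₀) := by
    rcases Nat.eq_zero_or_pos k with hk | hk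
    · have h3 : c₀ = 1 := by rw [← hc0, hk, pow_zero]
      omega
    · have h3 : 1 ≤ a ^ 2 := Nat.one_le_pow _ _ ha
      have h4 : 1 * (2 * c₀) ≤ k * (200 * a ^ 2 * c₀) := by
        apply Nat.mul_le_mul hk
        have h5 : 2 * c₀ ≤ 200 * a ^ 2 * c₀ := Nat.mul_le_mul_right c₀ (by omega)
        exact h5
      omega
  have hv1 := (peW E h1 D hE).levels (xb : X × Bool → (X → Bool) → ℝ) hx (m := a) (l := l') (k := k)
    (L := B + 4 * (200 * l * c₀) + 2 * b + 1000 * l * c₀) ha hl' hη1 (by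
      rw [hDD, hc0]
      have h5 : 1000 * l * c₀ = 5 * (200 * l * c₀) := by ring
      omega)
  rw [hc0] at hv1
  have hv2 := (peW E h1 D hE).top hv1 (τ := (a ^ 2) ^ k) (L' := B + 4 * (200 * l * c₀) + 2 * b)
    (l := l) (Nat.one_le_pow _ _ (Nat.one_le_pow _ _ ha)) hl (by positivity) hη (by
      rw [hDD]
      have h5 : 1000 * l * c₀ = 5 * (200 * l * c₀) := by ring
      omega) (le_refl _)
  have hv3 := (peW E h1 D hE).isVal_mono hv2 hsk (le_refl _) (le_refl _) (le_refl _)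
  have hlit : ∀ y : X × Bool, topv (lev (xb : X × Bool → (X → Bool) → ℝ) l' (a ^ 2) k)
      ((a ^ 2) ^ k) l (Fm.lit y) = xb y := by
    intro y
    have h6 : lev (xb : X × Bool → (X → Bool) → ℝ) l' (a ^ 2) k (Fm.lit y) = xb y :=
      World.lev_lit _ l' a k ha y
    rw [World.topv_lit (v := lev (xb : X × Bool → (X → Bool) → ℝ) l' (a ^ 2) k) _ _ y (by rw [h6]; exact xb_idem y), h6]
  have hgood : (peW E h1 D hE).Good
      (topv (lev (xb : X × Bool → (X → Bool) → ℝ) l' (a ^ 2) k) ((a ^ 2) ^ k) l) s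
      (200 * l * c₀) ((1 / 2) ^ l) (B + 4 * (200 * l * c₀) + 2 * b) := by
    refine ⟨hv3, ?_, by positivity, ?_, hε, hs⟩
    · intro y
      rw [hlit, hlit, xb_flip]
    · rw [hDD]
      omega
  have hmain := pe_hyp h1 (w := w) (b := b) hE hFv hw hb hgood hlit (B := B) (le_refl _) (by omega)
  exact ⟨peW E h1 D hE, _, hgood, hmain.1, hmain.2⟩

theorem pe_exact {X : Type} {F : List (List (X × Bool))} {D w b s B : ℕ}
    (hF : HasPE F D) (hw : ∀ C ∈ F, C.length ≤ w) (hb : 1 ≤ b) (hs : 1 ≤ s)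
    (hD : 2 * B + 6 * s + 2 * b + w ≤ D) :
    ∃ (W : World ((X → Bool) → ℝ)) (v : Fm (X × Bool) → (X → Bool) → ℝ),
      W.Good v s s 0 (B + 4 * s + 2 * b) ∧
      (∀ A ∈ Hyp b F, A.size ≤ s → ∀ g ∈ W.F B, W.N ((1 - v (nnf A)) * g) ≤ 0 * W.N g) ∧
      ∀ A ∈ Refuting b F, A.size ≤ s → ∀ g ∈ W.F B, W.N (v (nnf A) * g) ≤ 0 * W.N g := by
  obtain ⟨E, h1, hE, hFE⟩ := hF
  have hFv : ∀ C ∈ F, E (viol C) = 0 := by
    intro C hC
    rw [← hFE C hC]
    congr 1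
  have hDD : (peW E h1 D hE).D = D := rfl
  have hN0 : ∀ f z : (X → Bool) → ℝ, z = 0 → (peW E h1 D hE).N (z * f) ≤
      0 * (peW E h1 D hE).N f := by
    intro f z hz
    rw [hz, zero_mul, (peW E h1 D hE).N_zero, zero_mul]
  have hval : (peW E h1 D hE).IsVal
      (fun A : Fm (X × Bool) => A.val (xb : X × Bool → (X → Bool) → ℝ)) s s 0
      (B + 4 * s + 2 * b) := by
    refine ⟨rfl, rfl, ?_, ?_, ?_⟩
    · intro A hA
      refine ⟨(peW E h1 D hE).F_mono _ _ hA ((peW E h1 D hE).val_mem (fun y => xb_mem y) A), ?_⟩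
      intro f _
      exact hN0 f _ (sub_eq_zero.2 (World.val_idem (fun y => xb_idem y) A))
    · intro A A' _ f _
      exact hN0 f _ (sub_eq_zero.2 rfl)
    · intro A A' _ f _
      exact hN0 f _ (sub_eq_zero.2 rfl)
  have hgood : (peW E h1 D hE).Good
      (fun A : Fm (X × Bool) => A.val (xb : X × Bool → (X → Bool) → ℝ)) s s 0
      (B + 4 * s + 2 * b) := by
    refine ⟨hval, fun y => xb_flip y, le_refl _, ?_, ?_, hs⟩
    · rw [hDD]
      omega
    · rw [mul_zero]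
      exact zero_le_one
  have hmain := pe_hyp h1 (w := w) (b := b) hE hFv hw hb hgood (fun y => rfl) (B := B) (le_refl _)
    (by omega)
  refine ⟨peW E h1 D hE, _, hgood, ?_, ?_⟩
  · intro A hA hAs g hg
    have h2 := hmain.1 A hA hAs g hg
    rwa [mul_zero] at h2
  · intro A hA hAs g hg
    have h2 := hmain.2 A hA hAs g hg
    rwa [mul_zero] at h2

end Pool.Agent.MP_9cec2c_lc.SL
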