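import Pool.Agent.Lib.MP_9cec2c_lc.FS.TreeE
import Pool.Agent.Lib.MP_9cec2c_lc.FS.PE
import Pool.Agent.Lib.MP_9cec2c_lc.FS.NumF

/-!
Tree-like refutations.

`low_tree`: `C₁` = constant of `tree_low`, `b = w = D / 8`. `n ≥ 1`, `s ≥ 1`. Suppose `s (1 + log n) < D^(2-ε)`.
Case 1: `2 (2 C₁ + 6) s ≤ D`: `pe_exact` with `B = C₁ s`, `tree_low` with `ε = 0`: `1 ≤ n (0 + 0) + 0`,
contradiction. Case 2: `s ≥ D/C₂`, so `1 + log n ≤ C₂ D^(1-ε) ≤ D^(1-ε/4)`, `fs_num` with `h = 0`, `t = log n`;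
`pe_good` with `B = C₁ c`; `tree_low`: `1 ≤ n (8 b e + C₁ s e) + 60 b s e < 1` (`n = exp t`, `s ≤ D²`, `b ≤ D`,
`e ≤ 1/(C D^4 n)²`).
-/

set_option autoImplicit false

open Finset
open scoped Classical

namespace Pool.Agent.MP_9cec2c_lc.SL

private theorem LowH_size {X : Type} (A : Form X) : 1 ≤ A.size := by
  induction A <;> simp only [Form.size] <;> omega

private theorem LowH_tree1 {X : Type} {S : Set Rule} {Φ : Set (Form X)} {s n : ℕ}
    {A : Form X} (hd : Tree S Φ s n A) : 1 ≤ n ∧ A.size ≤ s := by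
  cases hd with
  | hyp _ hA hs => exact ⟨le_rfl, hs⟩
  | rule R hR σ n _ hs => exact ⟨by omega, hs⟩

/-- The smallness of `e`. -/
private theorem LowH_e {C D n e : ℝ} (hC : 1 ≤ C) (hD : 1 ≤ D) (hn : 1 ≤ n) (he : 0 ≤ e)
    (h : (C * D ^ 4 * n) ^ 2 * e ≤ 1) : C * (D ^ 3 * (n * e)) ≤ 1 := by
  refine le_trans ?_ h
  have hD5 : 1 ≤ D ^ 5 := one_le_pow₀ hD
  have hCn : 1 ≤ C * n := by nlinarith
  have h1 : 1 ≤ C * n * D ^ 5 := by nlinarith
  have h2 : 0 ≤ C * (D ^ 3 * (n * e)) := by positivity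
  have e1 : (C * D ^ 4 * n) ^ 2 * e = (C * (D ^ 3 * (n * e))) * (C * n * D ^ 5) := by ring
  rw [e1]
  exact le_mul_of_one_le_right h2 h1

/-- The room for the degrees. -/
private theorem LowH_nat {C C₁ b l q k a D : ℕ} (hC : C = 2 * (400 * C₁ + 2100))
    (hb : 3 * b + 2 ≤ D / 2) (hD : C * ((0 + 1) * (l * q)) + C * (k * (a ^ 2 * q)) + C ≤ D) :
    2 * (C₁ * (200 * l * q)) + 9 * (200 * l * q) + 2 * b + b + 2 +
      k * (200 * a ^ 2 * q) ≤ D := by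
  have f1 : (400 * C₁ + 1800) * (l * q) ≤ (400 * C₁ + 2100) * (l * q) :=
    Nat.mul_le_mul_right _ (by omega)
  have f2 : 200 * (k * (a ^ 2 * q)) ≤ (400 * C₁ + 2100) * (k * (a ^ 2 * q)) :=
    Nat.mul_le_mul_right _ (by omega)
  have e1 : 2 * (C₁ * (200 * l * q)) + 9 * (200 * l * q) = (400 * C₁ + 1800) * (l * q) := by ring
  have e3 : k * (200 * a ^ 2 * q) = 200 * (k * (a ^ 2 * q)) := by ring
  have e4 : C * ((0 + 1) * (l * q)) = 2 * ((400 * C₁ + 2100) * (l * q)) := by rw [hC]; ring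
  have e5 : C * (k * (a ^ 2 * q)) = 2 * ((400 * C₁ + 2100) * (k * (a ^ 2 * q))) := by rw [hC]; ring
  rw [e1, e3]
  rw [e4, e5] at hD
  omega

theorem low_tree (ε : ℝ) (hε : 0 < ε) (S : Set Rule) (hS : S.Finite) (hs : ∀ r ∈ S, r.Sound) :
    ∃ D₀ : ℕ, ∀ (X : Type) (F : List (List (X × Bool))) (D : ℕ), D₀ ≤ D →
    (∀ C ∈ F, C.length ≤ D / 8) → HasPE F D → ∀ (s n : ℕ) (A : Form X),
      Tree S (Hyp (D / 8) F) s n A → A ∈ Refuting (D / 8) F →
      (D : ℝ) ^ (2 - ε) ≤ s * (1 + Real.log n) := by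
  obtain ⟨C₁, hC₁, htl⟩ := tree_low S hS hs
  obtain ⟨C, hC⟩ : ∃ C : ℕ, C = 2 * (400 * C₁ + 2100) := ⟨_, rfl⟩
  obtain ⟨D₀, hD₀⟩ := fs_num ε hε C
  have hlim : ∀ᶠ D : ℕ in Filter.atTop, ((4 * C₁ + 12 : ℕ) : ℝ) ≤ (D : ℝ) ^ (3 * ε / 4) :=
    ((tendsto_rpow_atTop (by positivity)).comp tendsto_natCast_atTop_atTop).eventually_ge_atTop _
  obtain ⟨D₁, hD₁⟩ := Filter.eventually_atTop.1 hlim
  refine ⟨D₀ + D₁ + 32, fun X F D hD hw hPE s n A hT hA => ?_⟩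
  obtain ⟨b, hb⟩ : ∃ b, b = D / 8 := ⟨_, rfl⟩
  rw [← hb] at hw hT hA
  by_contra hcon
  push Not at hcon
  obtain ⟨hn1, hAs⟩ := LowH_tree1 hT
  have hs1 : 1 ≤ s := (LowH_size A).trans hAs
  have hD1 : (1 : ℝ) ≤ (D : ℝ) := by exact_mod_cast (by omega : 1 ≤ D)
  have hs1' : (1 : ℝ) ≤ (s : ℝ) := by exact_mod_cast hs1
  have hn1' : (1 : ℝ) ≤ (n : ℝ) := by exact_mod_cast hn1
  have hlog : 0 ≤ Real.log n := Real.log_nonneg hn1'
  have hB0 : (0 : ℝ) ≤ (b : ℝ) := Nat.cast_nonneg b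
  have hbD : (b : ℝ) ≤ (D : ℝ) := by exact_mod_cast (by omega : b ≤ D)
  have hC₁0 : (0 : ℝ) ≤ (C₁ : ℝ) := Nat.cast_nonneg C₁
  by_cases hcase : 2 * ((2 * C₁ + 6) * s) ≤ D
  · obtain ⟨W, v, hgood, hΦ, hΨ⟩ := pe_exact (b := b) (B := C₁ * s) (s := s) hPE hw (by omega) hs1
      (by
        have e1 : (2 * C₁ + 6) * s = 2 * (C₁ * s) + 6 * s := by ring
        omega)
    have h1 := htl _ W X v s s _ 0 0 0 hgood (by omega) le_rfl (Hyp b F) (Refuting b F)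
      (fun A hA hAs => by
        have h2 := hΦ A hA hAs 1 (W.one_mem' _)
        rwa [mul_one, zero_mul] at h2)
      (fun A hA hAs => by
        have h2 := hΨ A hA hAs 1 (W.one_mem' _)
        rwa [mul_one, zero_mul] at h2) n A hT hA
    rw [mul_zero, zero_add, mul_zero, zero_add] at h1
    linarith
  · push Not at hcase
    -- `D ≤ (4 C₁ + 12) s`
    have hDs : D ≤ (4 * C₁ + 12) * s := by
      have e1 : (4 * C₁ + 12) * s = 2 * ((2 * C₁ + 6) * s) := by ring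
      omega
    have hDs' : (D : ℝ) ≤ ((4 * C₁ + 12 : ℕ) : ℝ) * s := by exact_mod_cast hDs
    have hD2 : (D : ℝ) ^ (2 - ε) ≤ (D : ℝ) ^ 2 := by
      rw [← Real.rpow_two]
      exact Real.rpow_le_rpow_of_exponent_le hD1 (by linarith)
    have hsD : (s : ℝ) ≤ (D : ℝ) ^ 2 := by nlinarith
    have hD0 : (0 : ℝ) < (D : ℝ) := by linarith
    have ht : 1 + Real.log n ≤ (D : ℝ) ^ (1 - ε / 4) := by
      have h1 : (D : ℝ) * (1 + Real.log n) ≤ (D : ℝ) * (D : ℝ) ^ (1 - ε / 4) := by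
        calc (D : ℝ) * (1 + Real.log n) ≤ (((4 * C₁ + 12 : ℕ) : ℝ) * s) * (1 + Real.log n) :=
              mul_le_mul_of_nonneg_right hDs' (by linarith)
          _ = ((4 * C₁ + 12 : ℕ) : ℝ) * (s * (1 + Real.log n)) := by ring
          _ ≤ ((4 * C₁ + 12 : ℕ) : ℝ) * (D : ℝ) ^ (2 - ε) :=
              mul_le_mul_of_nonneg_left hcon.le (Nat.cast_nonneg _)
          _ ≤ (D : ℝ) ^ (3 * ε / 4) * (D : ℝ) ^ (2 - ε) :=
              mul_le_mul_of_nonneg_right (hD₁ D (by omega)) (Real.rpow_nonneg hD0.le _)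
          _ = (D : ℝ) * (D : ℝ) ^ (1 - ε / 4) := by
              have e2 : (D : ℝ) * (D : ℝ) ^ (1 - ε / 4) = (D : ℝ) ^ (1 + (1 - ε / 4)) := by
                rw [Real.rpow_add hD0, Real.rpow_one]
              rw [e2, ← Real.rpow_add hD0]
              congr 1
              ring
      exact le_of_mul_le_mul_left h1 hD0
    obtain ⟨a, l', k, l, ha, hl', hl, hsk, hη, hex, hroom⟩ := hD₀ D s 0 (by omega) hs1
      (Real.log n) hlog (by
        rw [Nat.cast_zero, zero_add, one_pow, one_mul]; exact hcon.le) (by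
        rw [Nat.cast_zero, zero_add, one_mul]; exact ht)
    rw [Real.exp_log (by linarith)] at hex
    have he0 : (0 : ℝ) ≤ (1 / 2) ^ l := by positivity
    have hC1 : (1 : ℝ) ≤ (C : ℝ) := by exact_mod_cast (by omega : 1 ≤ C)
    have hx := LowH_e hC1 hD1 hn1' he0 hex
    set x : ℝ := (D : ℝ) ^ 3 * (n * (1 / 2) ^ l) with hxdef
    have hne0 : (0 : ℝ) ≤ n * (1 / 2) ^ l := by positivity
    have hx0 : 0 ≤ x := by positivity
    have hene : (1 / 2 : ℝ) ^ l ≤ n * (1 / 2) ^ l := le_mul_of_one_le_left he0 hn1'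
    have hD23 : (D : ℝ) ^ 2 ≤ (D : ℝ) ^ 3 := pow_le_pow_right₀ hD1 (by norm_num)
    have hD13 : (D : ℝ) ≤ (D : ℝ) ^ 3 := by
      calc (D : ℝ) = (D : ℝ) ^ 1 := (pow_one _).symm
        _ ≤ (D : ℝ) ^ 3 := pow_le_pow_right₀ hD1 (by norm_num)
    have hsx : (s : ℝ) * (n * (1 / 2) ^ l) ≤ x :=
      mul_le_mul_of_nonneg_right (hsD.trans hD23) hne0
    have hnx : (b : ℝ) * (n * (1 / 2) ^ l) ≤ x :=
      mul_le_mul_of_nonneg_right (hbD.trans hD13) hne0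
    have hbsx' : (b : ℝ) * (s * (1 / 2) ^ l) ≤ x := by
      have h1 : (b : ℝ) * s ≤ (D : ℝ) ^ 3 := by
        calc (b : ℝ) * s ≤ (D : ℝ) * (D : ℝ) ^ 2 := mul_le_mul hbD hsD (by linarith) (by linarith)
          _ = (D : ℝ) ^ 3 := by ring
      calc (b : ℝ) * (s * (1 / 2) ^ l) = (b * s) * (1 / 2) ^ l := by ring
        _ ≤ (D : ℝ) ^ 3 * (n * (1 / 2) ^ l) := mul_le_mul h1 hene he0 (by positivity)
    have hsx' : (s : ℝ) * (1 / 2) ^ l ≤ x :=
      (mul_le_mul_of_nonneg_left hene (by linarith)).trans hsx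
    have hCb : (2 * (68 + (C₁ : ℝ))) * x ≤ 1 := by
      refine le_trans (mul_le_mul_of_nonneg_right ?_ hx0) hx
      have : 2 * (68 + C₁) ≤ C := by omega
      exact_mod_cast this
    have hC4 : (4 : ℝ) * x ≤ 1 := by
      refine le_trans (mul_le_mul_of_nonneg_right ?_ hx0) hx
      have : 4 ≤ C := by omega
      exact_mod_cast this
    have hroom' := LowH_nat (b := b) (C₁ := C₁) hC (by omega) hroom
    obtain ⟨W, v, hgood, hΦ, hΨ⟩ := pe_good (b := b)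
      (B := C₁ * (200 * l * (450 * l' * a) ^ k))
      hPE hw (by omega) hs1 ha hl' hl hsk hη (by linarith) hroom'
    have h1 := htl _ W X v s (200 * l * (450 * l' * a) ^ k) _ _ (8 * b * (1 / 2) ^ l)
      (60 * b * s * (1 / 2) ^ l) hgood (by omega) (by positivity)
      (Hyp b F) (Refuting b F)
      (fun A hA hAs => by
        have h2 := hΦ A hA hAs 1 (W.one_mem' _)
        rwa [mul_one, W.N_one, mul_one] at h2)
      (fun A hA hAs => by
        have h2 := hΨ A hA hAs 1 (W.one_mem' _)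
        rwa [mul_one, W.N_one, mul_one] at h2) n A hT hA
    have h3 : (n : ℝ) * (8 * b * (1 / 2) ^ l + C₁ * s * (1 / 2) ^ l) + 60 * b * s * (1 / 2) ^ l ≤
        (68 + C₁) * x := by
      have k2 : (C₁ : ℝ) * (s * (n * (1 / 2) ^ l)) ≤ C₁ * x :=
        mul_le_mul_of_nonneg_left hsx hC₁0
      have e1 : (n : ℝ) * (8 * b * (1 / 2) ^ l + C₁ * s * (1 / 2) ^ l) + 60 * b * s * (1 / 2) ^ l =
          8 * ((b : ℝ) * (n * (1 / 2) ^ l)) + (C₁ : ℝ) * (s * (n * (1 / 2) ^ l)) +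
            60 * ((b : ℝ) * (s * (1 / 2) ^ l)) := by ring
      rw [e1]
      linarith
    linarith

end Pool.Agent.MP_9cec2c_lc.SL
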