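import Pool.Agent.Lib.MP_9cec2c_lc.FS.Time
import Pool.Agent.Lib.MP_9cec2c_lc.FS.PE
import Pool.Agent.Lib.MP_9cec2c_lc.FS.NumF

/-!
Time and space; total size.

`low_time`. `C₁` = constant of `time`, `b = w = D / 8`. Suppose `s (1 + log T) < D^(2-ε)`. `T ≥ 1`, since
`M 0 = []` has no member. Put `σ = s + 1`.
Case 1: `2 (2 C₁ + 6) σ ≤ D`: `pe_exact` with `B = C₁ σ` and `time` with `ε = 0`, `η = η' = 0`
(`C₁ c ≤ L`: `c = σ`; hypotheses: `F c ⊆ F B`): contradiction.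
Case 2: else `1 + log T < D^(2-ε)/s ≤ C₂ D^(1-ε) ≤ D^(1-ε/2)`. Apply `fs_num` with `ε/2`, `h = 0`,
`t = log T`, `s := σ` and a large constant `C`: its hypotheses are `σ (1 + t) ≤ 2 s (1+t) ≤ 2 D^(2-ε) ≤ D^(2-ε/2)`
and `1 + t ≤ D^(1 - ε/8)`. `pe_good` with `B = C₁ c`, `c = 200 l (450 l' a)^k`, and `time` with `e = (1/2)^l`,
`η = 8 b e`, `η' = 60 b σ e`: `T = exp t`, `σ ≤ 2 D²`, `√(σ e) ≤ 2 D / (C D^4 T)`, so
`C₁ (T + 1) σ (8 b e + √(σ e)) + 120 b σ e < 1/2`. (`4 σ e ≤ 1` too.)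
`low_size`: `M t` = the list of the first `t` lines, `T = l`, `s = σ := Σ size`; `total (M t) ≤ σ`, `l ≤ σ` (sizes
`≥ 1`). `low_time` with `ε/2`: `D^(2-ε/2) ≤ σ (1 + log l) ≤ σ (1 + log σ)`. If `σ < D^(2-ε)`, the right side is at
most `D^(2-ε) (1 + 2 log D) < D^(2-ε/2)` for large `D`: contradiction.
-/

set_option autoImplicit false

open Finset
open scoped Classical

namespace Pool.Agent.MP_9cec2c_lc.SL

private theorem LowT_ev (δ : ℝ) (hδ : 0 < δ) (K : ℝ) :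
    ∃ D₀ : ℕ, ∀ D : ℕ, D₀ ≤ D → K ≤ (D : ℝ) ^ δ := by
  have h1 : Filter.Tendsto (fun D : ℕ => (D : ℝ) ^ δ) Filter.atTop Filter.atTop :=
    (tendsto_rpow_atTop hδ).comp tendsto_natCast_atTop_atTop
  exact Filter.eventually_atTop.1 (h1.eventually_ge_atTop K)

private theorem LowT_fin {C₁ b C σ D T e : ℝ} (hC₁ : 1 ≤ C₁) (hb : 0 ≤ b) (hbD : b ≤ D)
    (hC : 10000 * C₁ ≤ C) (hσ0 : 0 ≤ σ) (hσ : σ ≤ 2 * D ^ 2) (hD : 1 ≤ D) (hT : 1 ≤ T)
    (he : 0 ≤ e) (h : (C * D ^ 4 * T) ^ 2 * e ≤ 1) :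
    4 * σ * e ≤ 1 ∧
      C₁ * (T + 1) * σ * (8 * b * e + Real.sqrt (σ * e)) + 2 * (60 * b * σ * e) < 1 / 2 := by
  obtain ⟨x, hx⟩ : ∃ x, x = Real.sqrt e := ⟨_, rfl⟩
  have hx0 : 0 ≤ x := by rw [hx]; exact Real.sqrt_nonneg e
  have hxe : x ^ 2 = e := by rw [hx]; exact Real.sq_sqrt he
  have hD2 : 1 ≤ D ^ 2 := one_le_pow₀ hD
  have hD3 : 1 ≤ D ^ 3 := one_le_pow₀ hD
  have hD4 : 1 ≤ D ^ 4 := one_le_pow₀ hD
  have hC0 : 0 ≤ C := by linarith
  have hZ : C * D ^ 4 * T * x ≤ 1 := by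
    have h1 : (C * D ^ 4 * T * x) ^ 2 ≤ 1 := by
      rw [mul_pow, hxe]
      exact h
    have h2 : 0 ≤ C * D ^ 4 * T * x := by positivity
    nlinarith
  obtain ⟨Y, hY⟩ : ∃ Y, Y = C₁ * D ^ 4 * T * x := ⟨_, rfl⟩
  have hY0 : 0 ≤ Y := by rw [hY]; positivity
  have hY1 : 10000 * Y ≤ 1 := by
    have h1 : 10000 * C₁ * (D ^ 4 * T * x) ≤ C * (D ^ 4 * T * x) :=
      mul_le_mul_of_nonneg_right hC (by positivity)
    rw [hY]
    nlinarith
  have hsub : ∀ u : ℝ, 0 ≤ u → u ≤ C₁ * D ^ 4 * T → u * x ≤ Y := by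
    intro u _ hu
    rw [hY]
    exact mul_le_mul_of_nonneg_right hu hx0
  have hD14 : D ≤ D ^ 4 := by
    nlinarith [mul_nonneg (by linarith : (0 : ℝ) ≤ D) (by linarith : (0 : ℝ) ≤ D ^ 3 - 1)]
  have hD34 : D ^ 3 ≤ D ^ 4 := by nlinarith
  have hKT : D ^ 4 ≤ C₁ * D ^ 4 * T := by
    have h1 : D ^ 4 * 1 ≤ D ^ 4 * (C₁ * T) := mul_le_mul_of_nonneg_left (by nlinarith) (by linarith)
    nlinarith
  have hxY : x ≤ Y := by
    have := hsub 1 (by norm_num) (by linarith)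
    linarith
  have hDx : D * x ≤ Y := hsub D (by linarith) (by linarith)
  have hD3x : D ^ 3 * x ≤ Y := hsub _ (by linarith) (by linarith)
  have hsq : Real.sqrt (σ * e) ≤ 2 * (D * x) := by
    rw [show 2 * (D * x) = Real.sqrt ((2 * (D * x)) ^ 2) from
      (Real.sqrt_sq (by positivity)).symm]
    refine Real.sqrt_le_sqrt ?_
    rw [← hxe]
    have : σ * x ^ 2 ≤ 2 * D ^ 2 * x ^ 2 := mul_le_mul_of_nonneg_right hσ (by positivity)
    nlinarith [mul_nonneg (by positivity : (0 : ℝ) ≤ D ^ 2) (by positivity : (0 : ℝ) ≤ x ^ 2)]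
  have hDx2 : (D * x) ^ 2 ≤ Y ^ 2 := pow_le_pow_left₀ (by positivity) hDx 2
  have hσe : σ * e ≤ 2 * Y ^ 2 := by
    rw [← hxe]
    have : σ * x ^ 2 ≤ 2 * D ^ 2 * x ^ 2 := mul_le_mul_of_nonneg_right hσ (by positivity)
    nlinarith
  have hYY : Y ^ 2 ≤ Y := by nlinarith
  refine ⟨by nlinarith, ?_⟩
  -- the first summand
  have hT1 : C₁ * (T + 1) * σ ≤ 4 * (C₁ * T * D ^ 2) := by
    have h1 : C₁ * (T + 1) ≤ C₁ * (2 * T) := mul_le_mul_of_nonneg_left (by linarith) (by linarith)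
    have h2 : C₁ * (T + 1) * σ ≤ C₁ * (2 * T) * (2 * D ^ 2) :=
      mul_le_mul h1 hσ hσ0 (by positivity)
    linarith
  have hA : 8 * b * e + Real.sqrt (σ * e) ≤ 8 * D * x ^ 2 + 2 * (D * x) := by
    have h1 : 8 * b * x ^ 2 ≤ 8 * D * x ^ 2 :=
      mul_le_mul_of_nonneg_right (by linarith) (by positivity)
    rw [← hxe] at hsq ⊢
    linarith
  have hB : C₁ * (T + 1) * σ * (8 * b * e + Real.sqrt (σ * e)) ≤
      4 * (C₁ * T * D ^ 2) * (8 * D * x ^ 2 + 2 * (D * x)) := by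
    refine mul_le_mul hT1 hA ?_ (by positivity)
    have := Real.sqrt_nonneg (σ * e)
    positivity
  have h1 : C₁ * T * D ^ 3 * x ≤ Y := by
    refine hsub _ (by positivity) ?_
    have h2 : C₁ * T * D ^ 3 ≤ C₁ * T * D ^ 4 := mul_le_mul_of_nonneg_left hD34 (by positivity)
    nlinarith
  have h3 : C₁ * T * D ^ 3 * x * x ≤ Y * Y := mul_le_mul h1 hxY hx0 hY0
  have h4 : b * (σ * e) ≤ D * (2 * (D ^ 2 * x ^ 2)) := by
    refine mul_le_mul hbD ?_ (by positivity) (by linarith)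
    rw [← hxe]
    have : σ * x ^ 2 ≤ 2 * D ^ 2 * x ^ 2 := mul_le_mul_of_nonneg_right hσ (by positivity)
    linarith
  have h5 : D ^ 3 * x * x ≤ Y * Y := mul_le_mul hD3x hxY hx0 hY0
  have h7 : 4 * (C₁ * T * D ^ 2) * (8 * D * x ^ 2 + 2 * (D * x)) =
      32 * (C₁ * T * D ^ 3 * x * x) + 8 * (C₁ * T * D ^ 3 * x) := by
    ring
  have h8 : 2 * (60 * b * σ * e) = 120 * (b * (σ * e)) := by ring
  have h9 : D * (2 * (D ^ 2 * x ^ 2)) = 2 * (D ^ 3 * x * x) := by ring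
  rw [h7] at hB
  rw [h9] at h4
  rw [h8]
  nlinarith

theorem low_time (ε : ℝ) (hε : 0 < ε) (S : Set Rule) (hS : S.Finite) (hs : ∀ r ∈ S, r.Sound) :
    ∃ D₀ : ℕ, ∀ (X : Type) (F : List (List (X × Bool))) (D : ℕ), D₀ ≤ D →
    (∀ C ∈ F, C.length ≤ D / 8) → HasPE F D → ∀ (s T : ℕ) (M : ℕ → List (Form X)), M 0 = [] →
      (∀ t < T, Step S (Hyp (D / 8) F) (M t) (M (t + 1))) → (∀ t ≤ T, total (M t) ≤ s) →
      (∃ A ∈ M T, A ∈ Refuting (D / 8) F) → (D : ℝ) ^ (2 - ε) ≤ s * (1 + Real.log T) := by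
  obtain ⟨C₁, hC₁, htime⟩ := time S hS hs
  obtain ⟨C, hCdef⟩ : ∃ C : ℕ, C = 2 * (10000 * C₁ + 10000) := ⟨_, rfl⟩
  obtain ⟨D₁, hD₁⟩ := fs_num (ε / 2) (by linarith) C
  obtain ⟨D₂, hD₂⟩ := LowT_ev (ε / 2) (by linarith) 2
  obtain ⟨D₃, hD₃⟩ := LowT_ev (7 * ε / 8) (by linarith) (2 * (4 * C₁ + 12))
  refine ⟨D₁ + D₂ + D₃ + 32, ?_⟩
  intro X F D hD hw hPE s T M hM0 hstep htot hex
  obtain ⟨A, hAT, hAR⟩ := hex
  obtain ⟨b, hb⟩ : ∃ b, b = D / 8 := ⟨_, rfl⟩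
  rw [← hb] at hw hstep hAR
  by_contra hcon
  push Not at hcon
  have hD1 : (1 : ℝ) ≤ D := by exact_mod_cast (by omega : 1 ≤ D)
  have hD0 : (0 : ℝ) < D := by linarith
  -- T ≥ 1, s ≥ 1
  have hT : 1 ≤ T := by
    rcases Nat.eq_zero_or_pos T with h | h
    · rw [h, hM0] at hAT
      exact absurd hAT List.not_mem_nil
    · exact h
  have hT' : (1 : ℝ) ≤ T := by exact_mod_cast hT
  have hs1 : 1 ≤ s := by
    have h1 := htot T le_rfl
    have h2 : A.size ≤ total (M T) := by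
      unfold total
      exact List.single_le_sum (fun _ _ => Nat.zero_le _) _ (List.mem_map.2 ⟨A, hAT, rfl⟩)
    have h3 := form_size_pos' A
    omega
  have hs1' : (1 : ℝ) ≤ s := by exact_mod_cast hs1
  have hlog : 0 ≤ Real.log T := Real.log_nonneg hT'
  have htot' : ∀ t ≤ T, total (M t) + 1 ≤ s + 1 := fun t ht => Nat.succ_le_succ (htot t ht)
  by_cases hcase : 2 * ((2 * C₁ + 6) * (s + 1)) ≤ D
  · -- exact valuations
    obtain ⟨W, v, hG, hΦ, hΨ⟩ := pe_exact (b := b) (s := s + 1) (B := C₁ * (s + 1)) hPE hw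
      (by omega) (by omega) (by
        have e1 : (2 * C₁ + 6) * (s + 1) = 2 * (C₁ * (s + 1)) + 6 * (s + 1) := by ring
        omega)
    have hle : s + 1 ≤ C₁ * (s + 1) := Nat.le_mul_of_pos_left _ (by omega)
    refine htime _ W X v (s + 1) (s + 1) _ 0 0 0 hG ?_ le_rfl (Hyp b F)
      (Refuting b F) ?_ ?_ T M hM0 hstep htot' ?_ A hAT hAR
    · omega
    · exact fun A' hA' hs' g hg => hΦ A' hA' hs' g (W.F_mono _ _ hle hg)
    · exact fun A' hA' hs' g hg => hΨ A' hA' hs' g (W.F_mono _ _ hle hg)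
    · simp
  · -- approximate valuations
    have hσD : D < (4 * C₁ + 12) * (s + 1) := by
      have e1 : (4 * C₁ + 12) * (s + 1) = 2 * ((2 * C₁ + 6) * (s + 1)) := by ring
      omega
    have hσD' : (D : ℝ) ≤ (4 * C₁ + 12) * ((s : ℝ) + 1) := by exact_mod_cast hσD.le
    obtain ⟨K, hK⟩ : ∃ K : ℝ, K = 4 * C₁ + 12 := ⟨_, rfl⟩
    have hK0 : 0 < K := by rw [hK]; positivity
    have hDK : (D : ℝ) ≤ 2 * K * s := by
      rw [← hK] at hσD'
      nlinarith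
    -- the hypotheses of fs_num
    have hr1 : (D : ℝ) ^ (2 - ε / 2) = (D : ℝ) ^ (2 - ε) * (D : ℝ) ^ (ε / 2) := by
      rw [← Real.rpow_add hD0]
      congr 1
      ring
    have hr2 : (D : ℝ) ^ (1 - ε / 8) = (D : ℝ) ^ (1 - ε) * (D : ℝ) ^ (7 * ε / 8) := by
      rw [← Real.rpow_add hD0]
      congr 1
      ring
    have hr3 : (D : ℝ) ^ (2 - ε) = (D : ℝ) ^ (1 - ε) * D := by
      rw [show (2 : ℝ) - ε = (1 - ε) + 1 by ring, Real.rpow_add hD0, Real.rpow_one]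
    have hp1 : 0 < (D : ℝ) ^ (2 - ε) := Real.rpow_pos_of_pos hD0 _
    have hp2 : 0 < (D : ℝ) ^ (1 - ε) := Real.rpow_pos_of_pos hD0 _
    have hE1 : (2 : ℝ) ≤ (D : ℝ) ^ (ε / 2) := hD₂ D (by omega)
    have hE2 : 2 * K ≤ (D : ℝ) ^ (7 * ε / 8) := by
      rw [hK]
      exact hD₃ D (by omega)
    have hH1 : (((0 : ℕ) : ℝ) + 1) ^ 2 * ((s + 1 : ℕ) : ℝ) * (1 + Real.log T) ≤
        (D : ℝ) ^ (2 - ε / 2) := by
      rw [hr1]
      push_cast
      have h1 : ((s : ℝ) + 1) * (1 + Real.log T) ≤ 2 * (s * (1 + Real.log T)) := by nlinarith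
      have h2 : (D : ℝ) ^ (2 - ε) * 2 ≤ (D : ℝ) ^ (2 - ε) * (D : ℝ) ^ (ε / 2) :=
        mul_le_mul_of_nonneg_left hE1 hp1.le
      nlinarith
    have hlogK : 1 + Real.log T ≤ 2 * K * (D : ℝ) ^ (1 - ε) := by
      have h1 : (1 + Real.log T) * D ≤ (1 + Real.log T) * (2 * K * s) :=
        mul_le_mul_of_nonneg_left hDK (by linarith)
      have h2 : (1 + Real.log T) * (2 * K * s) ≤ 2 * K * (D : ℝ) ^ (2 - ε) := by
        have := mul_le_mul_of_nonneg_left hcon.le (by linarith : (0 : ℝ) ≤ 2 * K)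
        linarith
      rw [hr3] at h2
      have h3 : (1 + Real.log T) * D ≤ 2 * K * (D : ℝ) ^ (1 - ε) * D := by linarith
      exact le_of_mul_le_mul_right h3 hD0
    have hH2 : (((0 : ℕ) : ℝ) + 1) * (1 + Real.log T) ≤ (D : ℝ) ^ (1 - ε / 2 / 4) := by
      rw [show (1 : ℝ) - ε / 2 / 4 = 1 - ε / 8 by ring, hr2]
      have h1 : (D : ℝ) ^ (1 - ε) * (2 * K) ≤ (D : ℝ) ^ (1 - ε) * (D : ℝ) ^ (7 * ε / 8) :=
        mul_le_mul_of_nonneg_left hE2 hp2.le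
      push_cast
      linarith
    obtain ⟨a, l', k, l, ha, hl', hl, hsk, hη, hexp, hdeg⟩ :=
      hD₁ D (s + 1) 0 (by omega) (by omega) (Real.log T) hlog hH1 hH2
    rw [Real.exp_log (by linarith : (0 : ℝ) < T)] at hexp
    -- sizes
    have hsD : (s : ℝ) ≤ (D : ℝ) ^ 2 := by
      have h1 : (s : ℝ) ≤ s * (1 + Real.log T) := by nlinarith
      have h2 : (D : ℝ) ^ (2 - ε) ≤ (D : ℝ) ^ (2 : ℝ) :=
        Real.rpow_le_rpow_of_exponent_le hD1 (by linarith)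
      rw [Real.rpow_two] at h2
      linarith
    have hσ2 : ((s + 1 : ℕ) : ℝ) ≤ 2 * (D : ℝ) ^ 2 := by
      push_cast
      nlinarith
    have hbD : ((b : ℕ) : ℝ) ≤ (D : ℝ) := by exact_mod_cast (by omega : b ≤ D)
    have hC₁' : (1 : ℝ) ≤ (C₁ : ℝ) := by exact_mod_cast hC₁
    have hCC : 10000 * (C₁ : ℝ) ≤ (C : ℝ) := by
      exact_mod_cast (by rw [hCdef]; omega : 10000 * C₁ ≤ C)
    obtain ⟨hfin1, hfin2⟩ := LowT_fin (C₁ := (C₁ : ℝ)) (b := (b : ℝ)) (C := (C : ℝ))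
      (σ := ((s + 1 : ℕ) : ℝ)) (D := (D : ℝ)) (T := (T : ℝ)) (e := (1 / 2 : ℝ) ^ l)
      hC₁' (Nat.cast_nonneg _) hbD hCC (Nat.cast_nonneg _) hσ2 hD1 hT' (by positivity) hexp
    obtain ⟨c₀, hc₀⟩ : ∃ c₀, c₀ = (450 * l' * a) ^ k := ⟨_, rfl⟩
    rw [← hc₀] at hdeg
    have hdeg' : 2 * (C₁ * (200 * l * c₀)) + 9 * (200 * l * c₀) + 2 * b + b + 2 +
        k * (200 * a ^ 2 * c₀) ≤ D := by
      have e1 : C * ((0 + 1) * (l * c₀)) = 2 * ((10000 * C₁ + 10000) * (l * c₀)) := by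
        rw [hCdef]; ring
      have e2 : 2 * (C₁ * (200 * l * c₀)) + 9 * (200 * l * c₀) = (400 * C₁ + 1800) * (l * c₀) := by
        ring
      have e3 : k * (200 * a ^ 2 * c₀) = 200 * (k * (a ^ 2 * c₀)) := by ring
      have e4 : C * (k * (a ^ 2 * c₀)) = 2 * ((10000 * C₁ + 10000) * (k * (a ^ 2 * c₀))) := by
        rw [hCdef]; ring
      have i1 : (400 * C₁ + 1800) * (l * c₀) ≤ (10000 * C₁ + 10000) * (l * c₀) :=
        Nat.mul_le_mul_right _ (by omega)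
      have i2 : 200 * (k * (a ^ 2 * c₀)) ≤ (10000 * C₁ + 10000) * (k * (a ^ 2 * c₀)) :=
        Nat.mul_le_mul_right _ (by omega)
      rw [e1, e4] at hdeg
      omega
    obtain ⟨W, v, hG, hΦ, hΨ⟩ := pe_good (b := b) (s := s + 1) (a := a) (l' := l') (k := k)
      (l := l) (B := C₁ * (200 * l * c₀)) hPE hw (by omega) (by omega) ha hl' hl hsk hη hfin1
      (by rw [← hc₀]; exact hdeg')
    rw [← hc₀] at hG
    have hle : 200 * l * c₀ ≤ C₁ * (200 * l * c₀) := Nat.le_mul_of_pos_left _ (by omega)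
    refine htime _ W X v (s + 1) (200 * l * c₀) _ ((1 / 2) ^ l)
      (8 * (b : ℝ) * (1 / 2) ^ l)
      (60 * (b : ℝ) * ((s + 1 : ℕ) : ℝ) * (1 / 2) ^ l) hG ?_ (by positivity)
      (Hyp b F) (Refuting b F) ?_ ?_ T M hM0 hstep htot' ?_ A hAT hAR
    · omega
    · exact fun A' hA' hs' g hg => hΦ A' hA' hs' g (W.F_mono _ _ hle hg)
    · exact fun A' hA' hs' g hg => hΨ A' hA' hs' g (W.F_mono _ _ hle hg)
    · exact hfin2

/-- The list of the first `t` lines. -/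
private def LowT_M {X : Type} {l : ℕ} (L : Fin l → Form X) (t : ℕ) : List (Form X) :=
  ((List.finRange l).filter (fun i => decide (i.val < t))).map L

private theorem LowT_mem {X : Type} {l : ℕ} (L : Fin l → Form X) (t : ℕ) (A : Form X) :
    A ∈ LowT_M L t ↔ ∃ i : Fin l, i.val < t ∧ L i = A := by
  unfold LowT_M
  simp only [List.mem_map, List.mem_filter, List.mem_finRange, true_and, decide_eq_true_eq]

private theorem LowT_total {X : Type} {l : ℕ} (L : Fin l → Form X) (t : ℕ) :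
    total (LowT_M L t) ≤ ∑ i, (L i).size := by
  unfold total LowT_M
  rw [List.map_map, Fin.sum_univ_def]
  refine List.Sublist.sum_le_sum ?_ (fun _ _ => Nat.zero_le _)
  exact List.Sublist.map _ List.filter_sublist

theorem low_size (ε : ℝ) (hε : 0 < ε) (S : Set Rule) (hS : S.Finite) (hs : ∀ r ∈ S, r.Sound) :
    ∃ D₀ : ℕ, ∀ (X : Type) (F : List (List (X × Bool))) (D : ℕ), D₀ ≤ D →
    (∀ C ∈ F, C.length ≤ D / 8) → HasPE F D → ∀ (l : ℕ) (L : Fin l → Form X),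
      IsDerivation S (Hyp (D / 8) F) L → (∃ i, L i ∈ Refuting (D / 8) F) →
      (D : ℝ) ^ (2 - ε) ≤ (∑ i, (L i).size : ℕ) := by
  obtain ⟨D₁, hD₁⟩ := low_time (ε / 2) (by linarith) S hS hs
  obtain ⟨D₂, hD₂⟩ := LowT_ev (ε / 4) (by linarith) (2 + 8 / ε)
  refine ⟨D₁ + D₂ + 1, ?_⟩
  intro X F D hD hw hPE l L hder hex
  obtain ⟨i₀, hi₀⟩ := hex
  have hD1 : (1 : ℝ) ≤ D := by exact_mod_cast (by omega : 1 ≤ D)
  have hD0 : (0 : ℝ) < D := by linarith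
  have hl1 : 1 ≤ l := by
    have := i₀.isLt
    omega
  have hlσ : l ≤ ∑ i, (L i).size := by
    calc l = ∑ _i : Fin l, 1 := by simp
      _ ≤ ∑ i, (L i).size := Finset.sum_le_sum (fun i _ => form_size_pos' (L i))
  obtain ⟨σ, hσ⟩ : ∃ σ, σ = ∑ i, (L i).size := ⟨_, rfl⟩
  rw [← hσ] at hlσ ⊢
  have h1 := hD₁ X F D (by omega) hw hPE σ l (LowT_M L) (by
      unfold LowT_M
      have : ((List.finRange l).filter (fun i => decide (i.val < 0))) = [] := by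
        rw [List.filter_eq_nil_iff]
        intro i _
        simp
      rw [this, List.map_nil])
    (by
      intro t _ A hA
      obtain ⟨i, hi, rfl⟩ := (LowT_mem L (t + 1) A).1 hA
      rcases hder i with h | ⟨r, hr, τ, hτ, hp⟩
      · exact Or.inr (Or.inl h)
      · refine Or.inr (Or.inr ⟨r, hr, τ, hτ, ?_⟩)
        intro P hP
        obtain ⟨j, hj, hjP⟩ := hp P hP
        refine (LowT_mem L t _).2 ⟨j, ?_, hjP⟩
        have : j.val < i.val := hj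
        omega)
    (by
      intro t _
      rw [hσ]
      exact LowT_total L t)
    ⟨L i₀, (LowT_mem L l _).2 ⟨i₀, i₀.isLt, rfl⟩, hi₀⟩
  by_contra hcon
  push Not at hcon
  have hl1' : (1 : ℝ) ≤ l := by exact_mod_cast hl1
  have hlσ' : (l : ℝ) ≤ σ := by exact_mod_cast hlσ
  have hσ1 : (1 : ℝ) ≤ σ := by linarith
  have hlog1 : Real.log l ≤ Real.log σ := Real.log_le_log (by linarith) hlσ'
  have hlogD : 0 ≤ Real.log D := Real.log_nonneg hD1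
  have hlog2 : Real.log σ ≤ 2 * Real.log D := by
    have h2 : Real.log σ ≤ Real.log ((D : ℝ) ^ (2 - ε)) :=
      Real.log_le_log (by linarith) hcon.le
    rw [Real.log_rpow hD0] at h2
    nlinarith
  obtain ⟨y, hy⟩ : ∃ y, y = (D : ℝ) ^ (ε / 4) := ⟨_, rfl⟩
  have hy1 : 2 + 8 / ε ≤ y := by
    rw [hy]
    exact hD₂ D (by omega)
  have h8 : 0 < 8 / ε := by positivity
  have hlog3 : Real.log D ≤ y / (ε / 4) := by
    rw [hy]
    exact Real.log_le_rpow_div hD0.le (by linarith)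
  have hlog4 : 2 * Real.log D ≤ 8 / ε * y := by
    have : y / (ε / 4) = 4 / ε * y := by
      field_simp
    rw [this] at hlog3
    have h84 : 8 / ε = 2 * (4 / ε) := by ring
    rw [h84]
    linarith
  have hyy : (D : ℝ) ^ (ε / 2) = y * y := by
    rw [hy, ← Real.rpow_add hD0]
    congr 1
    ring
  have hr1 : (D : ℝ) ^ (2 - ε / 2) = (D : ℝ) ^ (2 - ε) * (D : ℝ) ^ (ε / 2) := by
    rw [← Real.rpow_add hD0]
    congr 1
    ring
  have hp1 : 0 < (D : ℝ) ^ (2 - ε) := Real.rpow_pos_of_pos hD0 _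
  have h2 : (σ : ℝ) * (1 + Real.log l) ≤ (D : ℝ) ^ (2 - ε) * (1 + 8 / ε * y) := by
    refine mul_le_mul hcon.le (by linarith) ?_ hp1.le
    have := Real.log_nonneg hl1'
    linarith
  have h3 : 1 + 8 / ε * y < y * y := by nlinarith
  have h4 : (D : ℝ) ^ (2 - ε) * (1 + 8 / ε * y) < (D : ℝ) ^ (2 - ε) * (y * y) :=
    mul_lt_mul_of_pos_left h3 hp1
  rw [hr1, hyy] at h1
  linarith

end Pool.Agent.MP_9cec2c_lc.SL
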