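import Pool.Agent.Lib.MP_9cec2c_lc.FS.LowT
import Pool.Agent.Lib.MP_9cec2c_lc.RC.RcMain

/-!
Total size of refutations of random 3-CNFs.
-/

set_option autoImplicit false

open Finset
open scoped Classical

namespace Pool.Agent.MP_9cec2c_lc.SL

theorem cnf3_width {N M : ℕ} (c : Fin M → Clause3 N) : ∀ C ∈ cnf3 c, C.length ≤ 3 := by
  intro C hC
  unfold cnf3 at hC
  rw [List.mem_ofFn] at hC
  obtain ⟨j, hj⟩ := hC
  rw [← hj, List.length_ofFn]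

theorem rand_num (ε κ : ℝ) (hε : 0 < ε) (hκ : 0 < κ) (D₀ : ℕ) : ∃ N₀ : ℕ, 1 ≤ N₀ ∧
    ∀ N : ℕ, N₀ ≤ N → D₀ ≤ ⌊κ * N⌋₊ ∧
      (N : ℝ) ^ (2 - ε) ≤ (⌊κ * N⌋₊ : ℝ) ^ (2 - ε / 2) := by
  have h1 : Filter.Tendsto (fun N : ℕ => κ * (N : ℝ)) Filter.atTop Filter.atTop :=
    Filter.Tendsto.const_mul_atTop hκ tendsto_natCast_atTop_atTop
  have h2 : Filter.Tendsto (fun N : ℕ => (N : ℝ) ^ (ε / 2)) Filter.atTop Filter.atTop :=
    (tendsto_rpow_atTop (half_pos hε)).comp tendsto_natCast_atTop_atTop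
  have e1 := h1.eventually_ge_atTop (D₀ + 2 : ℝ)
  have e2 := h2.eventually_ge_atTop ((2 / κ) ^ (2 - ε / 2) + 1)
  rcases le_or_gt ε 4 with h4 | h4
  · obtain ⟨N₁, hN₁⟩ := Filter.eventually_atTop.1 (e1.and e2)
    refine ⟨max N₁ 1, le_max_right _ _, fun N hN => ?_⟩
    have hN1 : 1 ≤ N := (le_max_right _ _).trans hN
    obtain ⟨ha, hb⟩ := hN₁ N ((le_max_left _ _).trans hN)
    have hN0 : (0 : ℝ) < N := by exact_mod_cast hN1
    have hfl : κ * (N : ℝ) - 1 < ⌊κ * N⌋₊ := Nat.sub_one_lt_floor _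
    have hhalf : κ * (N : ℝ) / 2 ≤ (⌊κ * N⌋₊ : ℝ) := by
      have : (0 : ℝ) ≤ D₀ := Nat.cast_nonneg _
      linarith
    refine ⟨?_, ?_⟩
    · refine Nat.le_floor ?_
      linarith
    · have hp : 0 ≤ 2 - ε / 2 := by linarith
      refine le_trans ?_ (Real.rpow_le_rpow (by positivity) hhalf hp)
      have h5 : (κ * (N : ℝ) / 2) ^ (2 - ε / 2) = (κ / 2) ^ (2 - ε / 2) * (N : ℝ) ^ (2 - ε / 2) := by
        rw [show κ * (N : ℝ) / 2 = κ / 2 * N by ring, Real.mul_rpow (by positivity) hN0.le]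
      have h6 : (N : ℝ) ^ (2 - ε / 2) = (N : ℝ) ^ (2 - ε) * (N : ℝ) ^ (ε / 2) := by
        rw [← Real.rpow_add hN0]
        congr 1
        ring
      have h7 : (κ / 2) ^ (2 - ε / 2) * (2 / κ) ^ (2 - ε / 2) = 1 := by
        rw [← Real.mul_rpow (by positivity) (by positivity)]
        rw [show κ / 2 * (2 / κ) = 1 by field_simp]
        exact Real.one_rpow _
      have h8 : 0 ≤ (κ / 2) ^ (2 - ε / 2) := Real.rpow_nonneg (by positivity) _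
      have h9 : 0 ≤ (N : ℝ) ^ (2 - ε) := Real.rpow_nonneg hN0.le _
      rw [h5, h6]
      calc (N : ℝ) ^ (2 - ε) = (N : ℝ) ^ (2 - ε) * 1 := (mul_one _).symm
        _ = (N : ℝ) ^ (2 - ε) * ((κ / 2) ^ (2 - ε / 2) * (2 / κ) ^ (2 - ε / 2)) := by rw [h7]
        _ ≤ (N : ℝ) ^ (2 - ε) * ((κ / 2) ^ (2 - ε / 2) * (N : ℝ) ^ (ε / 2)) := by
            refine mul_le_mul_of_nonneg_left (mul_le_mul_of_nonneg_left ?_ h8) h9
            linarith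
        _ = (κ / 2) ^ (2 - ε / 2) * ((N : ℝ) ^ (2 - ε) * (N : ℝ) ^ (ε / 2)) := by ring
  · -- the left side is small
    have h3 : Filter.Tendsto (fun N : ℕ => ((N : ℝ)) ^ (-(ε / 2))) Filter.atTop (nhds 0) :=
      (tendsto_rpow_neg_atTop (half_pos hε)).comp tendsto_natCast_atTop_atTop
    have e3 : ∀ᶠ N : ℕ in Filter.atTop, (N : ℝ) ^ (-(ε / 2)) < κ ^ (2 - ε / 2) :=
      h3.eventually_lt_const (Real.rpow_pos_of_pos hκ _)
    obtain ⟨N₁, hN₁⟩ := Filter.eventually_atTop.1 (e1.and e3)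
    refine ⟨max N₁ 1, le_max_right _ _, fun N hN => ?_⟩
    have hN1 : 1 ≤ N := (le_max_right _ _).trans hN
    obtain ⟨ha, hb⟩ := hN₁ N ((le_max_left _ _).trans hN)
    have hN0 : (0 : ℝ) < N := by exact_mod_cast hN1
    have hD0 : (0 : ℝ) ≤ D₀ := Nat.cast_nonneg _
    have hfl : κ * (N : ℝ) - 1 < ⌊κ * N⌋₊ := Nat.sub_one_lt_floor _
    have hfp : (0 : ℝ) < ⌊κ * N⌋₊ := by linarith
    have hfu : (⌊κ * N⌋₊ : ℝ) ≤ κ * N := Nat.floor_le (by positivity)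
    refine ⟨?_, ?_⟩
    · refine Nat.le_floor ?_
      linarith
    · have hp : 2 - ε / 2 ≤ 0 := by linarith
      refine le_trans ?_ (Real.rpow_le_rpow_of_nonpos hfp hfu hp)
      rw [Real.mul_rpow hκ.le hN0.le]
      have h6 : (N : ℝ) ^ (2 - ε) = (N : ℝ) ^ (-(ε / 2)) * (N : ℝ) ^ (2 - ε / 2) := by
        rw [← Real.rpow_add hN0]
        congr 1
        ring
      rw [h6]
      exact mul_le_mul_of_nonneg_right hb.le (Real.rpow_nonneg hN0.le _)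

theorem rand_size (Δ : ℕ) : ∃ κ : ℝ, 0 < κ ∧
    (∃ C : ℝ, ∀ N : ℕ, 1 ≤ N →
      prob (fun c : Fin (Δ * N) → Clause3 N => ¬ HasPE (cnf3 c) ⌊κ * N⌋₊) ≤ C / N) ∧
    ∀ ε : ℝ, 0 < ε → ∀ S : Set Rule, S.Finite → (∀ R ∈ S, R.Sound) → ∃ C : ℝ,
    ∀ N : ℕ, 1 ≤ N → prob (fun c : Fin (Δ * N) → Clause3 N =>
      ∃ (l : ℕ) (L : Fin l → Form (Fin N)), IsDerivation S (Hyp (⌊κ * N⌋₊ / 8) (cnf3 c)) L ∧
        (∃ i, L i ∈ Refuting (⌊κ * N⌋₊ / 8) (cnf3 c)) ∧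
        ((∑ i, (L i).size : ℕ) : ℝ) < (N : ℝ) ^ (2 - ε)) ≤ C / N := by
  obtain ⟨κ, C₁, hκ, hC₁, h1⟩ := rc_pe' Δ
  refine ⟨κ, hκ, ⟨C₁, h1⟩, fun ε hε S hS hs => ?_⟩
  obtain ⟨D₀, hD₀⟩ := low_size (ε / 2) (half_pos hε) S hS hs
  obtain ⟨N₀, hN₀1, hN₀⟩ := rand_num ε κ hε hκ (D₀ + 32)
  refine ⟨C₁ + N₀, fun N hN => ?_⟩
  have hN0 : (0 : ℝ) < N := by exact_mod_cast hN
  rcases le_or_gt N₀ N with hNN | hNN
  · refine (prob_mono ?_).trans ((h1 N hN).trans ?_)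
    · rintro c ⟨l, L, hL, hi, hsz⟩ hPE
      obtain ⟨ha, hb⟩ := hN₀ N hNN
      have h2 := hD₀ (Fin N) (cnf3 c) ⌊κ * N⌋₊ (by omega)
        (fun C hC => (cnf3_width c C hC).trans (by omega)) hPE l L hL hi
      exact absurd (hb.trans h2) (not_le.2 hsz)
    · refine div_le_div_of_nonneg_right ?_ hN0.le
      have : (0 : ℝ) ≤ N₀ := Nat.cast_nonneg _
      linarith
  · refine (prob_le_one _).trans ?_
    rw [one_le_div hN0]
    have : (N : ℝ) ≤ N₀ := by exact_mod_cast hNN.le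
    linarith

end Pool.Agent.MP_9cec2c_lc.SL
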