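import Pool.Agent.Lib.MP_9cec2c_lc.FS.Scheme

/-!
TASK Rules: `A ↦ E (1 - v A)` is subadditive for sound rules, up to `C s ε`.

`rule_E`: let all variables of `r` be `< q` (such a `q` exists: `varLT_exists`, a bound for finitely many
schemes), `p = mv v s q σ`, `h_i = 1 - schF q P_i` for the premises, `h_0 = 1 - schF q concl`. Soundness:
`h_0 ≤ Σ h_i` pointwise (if `h_0 b = 1` the conclusion is false under `b`, so some premise is false). Put
`n = number of premises`, `g = (Σ h_i - h_0) / (n + 1) ∈ [0, 1]`, `u = √g` (pointwise, `|u| ≤ 1`). `J2` with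
`g = h = u`, `f = 1`: `N (mle u p · mle u p - mle g p) ≤ 4 q ε (1+4ε)^q ≤ 4 q 2^q ε`; so
`E (mle g p) ≥ E ((mle u p)²) - 4 q 2^q ε ≥ - 4 q 2^q ε` (`E_le_N`). By linearity (`mle_add`, `mle_sub`,
`mle_smul`, induction on the list) `(n+1) E (mle g p) = Σ E (mle h_i p) - E (mle h_0 p)`, and
`mle h_i p = 1 - mle (schF q P_i) p` is within `C s ε` of `1 - v (nnf (P_i.subst σ))` (`scheme_val` for
`f = 1`, `L' = 0`, `E_le_N`). For the list of premises take the maximum of the constants (or induct on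
the list for the sum of the errors). `s ≥ 1`.
`rules_E`: the maximum over the finite set `S` (`Set.Finite.induction_on` or `Finset.sup`); enlarging `C`
is harmless (`0 ≤ ε`).
`rules_N`: `u = 1 - v B`, `N_le_E`: `N(u)² ≤ E u + N (u u - u)`, `u u - u = v B v B - v B` (bit, `f = 1`), so
`≤ Σ E (1 - v P_i) + C s ε + ε ≤ n θ + (C + 1) s ε` (`E_le_N`, `n ≤ C`).
-/

set_option autoImplicit false

open Finset

namespace Pool.Agent.MP_9cec2c_lc.SL

theorem varLT_mono {r r' : ℕ} (h : r ≤ r') (F : Form ℕ) (hF : F.VarLT r) : F.VarLT r' := by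
  induction F with
  | var i => exact lt_of_lt_of_le hF h
  | tt => trivial
  | ff => trivial
  | neg A ih => exact ih hF
  | and A B ihA ihB => exact ⟨ihA hF.1, ihB hF.2⟩
  | or A B ihA ihB => exact ⟨ihA hF.1, ihB hF.2⟩
  | imp A B ihA ihB => exact ⟨ihA hF.1, ihB hF.2⟩

theorem varLT_exists (F : Form ℕ) : ∃ r, F.VarLT r := by
  induction F with
  | var i => exact ⟨i + 1, Nat.lt_succ_self i⟩
  | tt => exact ⟨0, trivial⟩
  | ff => exact ⟨0, trivial⟩
  | neg A ih => exact ih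
  | and A B ihA ihB =>
    obtain ⟨a, ha⟩ := ihA
    obtain ⟨b, hb⟩ := ihB
    exact ⟨max a b, varLT_mono (le_max_left a b) A ha, varLT_mono (le_max_right a b) B hb⟩
  | or A B ihA ihB =>
    obtain ⟨a, ha⟩ := ihA
    obtain ⟨b, hb⟩ := ihB
    exact ⟨max a b, varLT_mono (le_max_left a b) A ha, varLT_mono (le_max_right a b) B hb⟩
  | imp A B ihA ihB =>
    obtain ⟨a, ha⟩ := ihA
    obtain ⟨b, hb⟩ := ihB
    exact ⟨max a b, varLT_mono (le_max_left a b) A ha, varLT_mono (le_max_right a b) B hb⟩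

private theorem Rules_listLT (Ps : List (Form ℕ)) : ∃ q, ∀ P ∈ Ps, P.VarLT q := by
  induction Ps with
  | nil => exact ⟨0, fun P hP => absurd hP (List.not_mem_nil)⟩
  | cons Q Ps ih =>
    obtain ⟨a, ha⟩ := ih
    obtain ⟨b, hb⟩ := varLT_exists Q
    refine ⟨max a b, fun P hP => ?_⟩
    rcases List.mem_cons.1 hP with h | h
    · rw [h]
      exact varLT_mono (le_max_right a b) Q hb
    · exact varLT_mono (le_max_left a b) P (ha P h)

private theorem Rules_one (q : ℕ) (P : Form ℕ) (hP : P.VarLT q) : ∃ C : ℕ, ∀ (R : Type)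
    [CommRing R] [Algebra ℝ R]
    (W : World R) (X : Type) (v : Fm (X × Bool) → R) (s c L : ℕ) (ε : ℝ),
    W.Good v s c ε L → C * c ≤ L → ∀ σ : ℕ → Form X, (P.subst σ).size ≤ s →
      |W.E (1 - v (nnf (P.subst σ))) - W.E (1 - mle (schF q P) (mv v s q σ))| ≤ C * s * ε := by
  obtain ⟨C, hC⟩ := scheme_val q P hP
  refine ⟨C + q, ?_⟩
  intro R _ _ W X v s c L ε hG hL σ hσ
  have hL1 : C * c ≤ L := le_trans (Nat.mul_le_mul_right c (Nat.le_add_right C q)) hL
  have hL2 : q * c ≤ L := le_trans (Nat.mul_le_mul_right c (Nat.le_add_left q C)) hL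
  have h1 := hC R W X v s c L 0 ε hG (by omega) σ hσ 1 W.one_mem
  rw [mul_one, W.N_one, mul_one] at h1
  have hD := hG.height
  have hm1 : v (nnf (P.subst σ)) ∈ W.F W.D :=
    W.F_mono c W.D (by omega) (hG.val.bit _ (by rw [nnf_size]; exact hσ)).mem
  have hm2 : mle (schF q P) (mv v s q σ) ∈ W.F W.D :=
    W.F_mono (q * c) W.D (by omega) (mle_mem W _ (fun i => (mv_bit W hG q σ i).mem))
  have h2 := W.E_le_N (Submodule.sub_mem _ hm1 hm2)
  have h3 : W.E (1 - v (nnf (P.subst σ))) - W.E (1 - mle (schF q P) (mv v s q σ)) =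
      -W.E (v (nnf (P.subst σ)) - mle (schF q P) (mv v s q σ)) := by
    simp only [map_sub]
    ring
  rw [h3, abs_neg]
  refine le_trans h2 (le_trans h1 ?_)
  have h4 : (0 : ℝ) ≤ (q : ℝ) * s * ε := mul_nonneg (by positivity) hG.pos
  push_cast
  nlinarith

private theorem Rules_list (q : ℕ) (Ps : List (Form ℕ)) (hP : ∀ P ∈ Ps, P.VarLT q) :
    ∃ C : ℕ, ∀ (R : Type) [CommRing R] [Algebra ℝ R]
    (W : World R) (X : Type) (v : Fm (X × Bool) → R) (s c L : ℕ) (ε : ℝ),
    W.Good v s c ε L → C * c ≤ L → ∀ σ : ℕ → Form X, (∀ P ∈ Ps, (P.subst σ).size ≤ s) →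
      |(Ps.map (fun P => W.E (1 - v (nnf (P.subst σ))))).sum -
        (Ps.map (fun P => W.E (1 - mle (schF q P) (mv v s q σ)))).sum| ≤ C * s * ε := by
  induction Ps with
  | nil =>
    refine ⟨0, ?_⟩
    intro R _ _ W X v s c L ε hG hL σ hσ
    simp
  | cons Q Ps ih =>
    obtain ⟨C1, h1⟩ := ih (fun P h => hP P (List.mem_cons_of_mem Q h))
    obtain ⟨C2, h2⟩ := Rules_one q Q (hP Q List.mem_cons_self)
    refine ⟨C1 + C2, ?_⟩
    intro R _ _ W X v s c L ε hG hL σ hσ
    have hL1 : C1 * c ≤ L := le_trans (Nat.mul_le_mul_right c (Nat.le_add_right C1 C2)) hL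
    have hL2 : C2 * c ≤ L := le_trans (Nat.mul_le_mul_right c (Nat.le_add_left C2 C1)) hL
    have e1 := abs_le.1 (h1 R W X v s c L ε hG hL1 σ (fun P h => hσ P (List.mem_cons_of_mem Q h)))
    have e2 := abs_le.1 (h2 R W X v s c L ε hG hL2 σ (hσ Q List.mem_cons_self))
    simp only [List.map_cons, List.sum_cons]
    rw [abs_le]
    push_cast
    constructor <;> linarith [e1.1, e1.2, e2.1, e2.2]

private theorem Rules_sumE {R : Type} [CommRing R] [Algebra ℝ R] (W : World R) {q : ℕ}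
    (Ps : List (Form ℕ)) (p : Fin q → R) :
    (Ps.map (fun P => W.E (1 - mle (schF q P) p))).sum =
      W.E (mle (fun b => (Ps.map (fun P => 1 - schF q P b)).sum) p) := by
  induction Ps with
  | nil =>
    have : (mle (fun _ : Fin q → Bool => (0 : ℝ)) p : R) = 0 := by
      rw [mle_const, map_zero]
    simp only [List.map_nil, List.sum_nil, this, map_zero]
  | cons Q Ps ih =>
    have h1 : (mle (fun b : Fin q → Bool => 1 - schF q Q b) p : R) = 1 - mle (schF q Q) p := by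
      have := mle_sub (fun _ : Fin q → Bool => (1 : ℝ)) (schF q Q) p
      rw [this, mle_const, map_one]
    simp only [List.map_cons, List.sum_cons]
    rw [mle_add (fun b => 1 - schF q Q b) (fun b => (Ps.map (fun P => 1 - schF q P b)).sum) p,
      h1, map_add, ← ih]

private theorem Rules_pt (r : Rule) (hr : r.Sound) (q : ℕ) (b : Fin q → Bool) :
    1 - schF q r.concl b ≤ (r.prems.map (fun P => 1 - schF q P b)).sum := by
  have hnn : ∀ P : Form ℕ, 0 ≤ 1 - schF q P b := by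
    intro P
    have := (abs_le.1 (abs_schF q P b)).2
    linarith
  have hsum : 0 ≤ (r.prems.map (fun P => 1 - schF q P b)).sum := by
    refine List.sum_nonneg ?_
    intro y hy
    obtain ⟨P, _, rfl⟩ := List.mem_map.1 hy
    exact hnn P
  by_cases hc : r.concl.eval (fun i => if h : i < q then b ⟨i, h⟩ else false) = true
  · have : schF q r.concl b = 1 := by
      unfold schF
      rw [hc]
      rfl
    rw [this]
    linarith
  · have hex : ∃ P ∈ r.prems, ¬ P.eval (fun i => if h : i < q then b ⟨i, h⟩ else false) = true := by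
      by_contra hcon
      push Not at hcon
      exact hc (hr _ hcon)
    obtain ⟨P, hP, hPf⟩ := hex
    have h0 : schF q r.concl b = 0 := by
      unfold schF ind
      rw [if_neg hc]
    have h1 : schF q P b = 0 := by
      unfold schF ind
      rw [if_neg hPf]
    have h2 : 1 - schF q P b ≤ (r.prems.map (fun P => 1 - schF q P b)).sum := by
      refine List.single_le_sum ?_ _ (List.mem_map.2 ⟨P, hP, rfl⟩)
      intro y hy
      obtain ⟨P', _, rfl⟩ := List.mem_map.1 hy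
      exact hnn P'
    rw [h0]
    rw [h1] at h2
    exact h2

private theorem Rules_sum_le {q : ℕ} (Ps : List (Form ℕ)) (b : Fin q → Bool) :
    (Ps.map (fun P => 1 - schF q P b)).sum ≤ Ps.length := by
  induction Ps with
  | nil => simp
  | cons Q Ps ih =>
    simp only [List.map_cons, List.sum_cons, List.length_cons]
    push_cast
    have h0 : 0 ≤ schF q Q b := by
      unfold schF ind
      split_ifs <;> norm_num
    linarith

theorem rule_E (r : Rule) (hr : r.Sound) : ∃ C : ℕ, ∀ (R : Type) [CommRing R] [Algebra ℝ R]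
    (W : World R) (X : Type) (v : Fm (X × Bool) → R) (s c L : ℕ) (ε : ℝ),
    W.Good v s c ε L → C * c ≤ L → ∀ σ : ℕ → Form X, (∀ P ∈ r.prems, (P.subst σ).size ≤ s) →
      (r.concl.subst σ).size ≤ s →
      W.E (1 - v (nnf (r.concl.subst σ))) ≤
        (r.prems.map (fun P => W.E (1 - v (nnf (P.subst σ))))).sum + C * s * ε := by
  obtain ⟨q1, hq1⟩ := Rules_listLT r.prems
  obtain ⟨q2, hq2⟩ := varLT_exists r.concl
  obtain ⟨q, hqd⟩ : ∃ q, q = max q1 q2 := ⟨_, rfl⟩
  have hP : ∀ P ∈ r.prems, P.VarLT q :=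
    fun P h => varLT_mono (by rw [hqd]; exact le_max_left q1 q2) P (hq1 P h)
  have hQ : r.concl.VarLT q := varLT_mono (by rw [hqd]; exact le_max_right q1 q2) _ hq2
  obtain ⟨C1, hC1⟩ := Rules_list q r.prems hP
  obtain ⟨C2, hC2⟩ := Rules_one q r.concl hQ
  obtain ⟨n, hn⟩ : ∃ n, n = r.prems.length := ⟨_, rfl⟩
  refine ⟨C1 + C2 + 2 * q + (n + 1) * (4 * q * 2 ^ q), ?_⟩
  intro R _ _ W X v s c L ε hG hL σ hσP hσ
  have hε := hG.pos
  have hL1 : C1 * c ≤ L := le_trans (Nat.mul_le_mul_right c (by omega)) hL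
  have hL2 : C2 * c ≤ L := le_trans (Nat.mul_le_mul_right c (by omega)) hL
  have hL3 : 2 * q * c ≤ L := le_trans (Nat.mul_le_mul_right c (by omega)) hL
  have hD := hG.height
  have e1 := abs_le.1 (hC1 R W X v s c L ε hG hL1 σ hσP)
  have e2 := abs_le.1 (hC2 R W X v s c L ε hG hL2 σ hσ)
  have hs1 : (1 : ℝ) ≤ s := by exact_mod_cast hG.one
  have hε4 : 1 + 4 * ε ≤ 2 := by
    have := hG.small
    nlinarith
  -- the positive function
  obtain ⟨g, hg⟩ : ∃ g : (Fin q → Bool) → ℝ, g = fun b =>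
      ((r.prems.map (fun P => 1 - schF q P b)).sum - (1 - schF q r.concl b)) / (n + 1) := ⟨_, rfl⟩
  have hn0 : (0 : ℝ) < n + 1 := by positivity
  have hg0 : ∀ b, 0 ≤ g b := by
    intro b
    rw [hg]
    refine div_nonneg ?_ hn0.le
    linarith [Rules_pt r hr q b]
  have hg1 : ∀ b, g b ≤ 1 := by
    intro b
    rw [hg]
    simp only
    rw [div_le_one hn0]
    have h1 := Rules_sum_le r.prems b
    have h2 : schF q r.concl b ≤ 1 := (abs_le.1 (abs_schF q r.concl b)).2
    rw [← hn] at h1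
    linarith
  obtain ⟨u, hu⟩ : ∃ u : (Fin q → Bool) → ℝ, u = fun b => Real.sqrt (g b) := ⟨_, rfl⟩
  have hu1 : ∀ b, |u b| ≤ 1 := by
    intro b
    rw [hu]
    simp only
    rw [abs_of_nonneg (Real.sqrt_nonneg _)]
    exact Real.sqrt_le_one.2 (hg1 b)
  have huu : (fun b => u b * u b) = g := by
    funext b
    rw [hu]
    exact Real.mul_self_sqrt (hg0 b)
  have hbit : ∀ i, W.IsBit c ε L (mv v s q σ i) := fun i => mv_bit W hG q σ i
  have hJ := W.J2 hε hD 0 (mv v s q σ) hbit u u hu1 hu1 (by omega) 1 W.one_mem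
  rw [huu, mul_one, W.N_one, mul_one] at hJ
  have hmu : mle u (mv v s q σ) ∈ W.F (q * c) := mle_mem W _ (fun i => (hbit i).mem)
  have hmg : mle g (mv v s q σ) ∈ W.F (q * c) := mle_mem W _ (fun i => (hbit i).mem)
  have h2q : q * c + q * c ≤ W.D := by
    have : q * c + q * c = 2 * q * c := by ring
    omega
  have hmuu : mle u (mv v s q σ) * mle u (mv v s q σ) ∈ W.F W.D :=
    W.F_mono _ _ h2q (W.mul_mem _ _ _ _ hmu hmu)
  have hmg' : mle g (mv v s q σ) ∈ W.F W.D := W.F_mono _ _ (by omega) hmg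
  have hmu' : mle u (mv v s q σ) ∈ W.F W.D := W.F_mono _ _ (by omega) hmu
  have hE := W.E_le_N (Submodule.sub_mem _ hmuu hmg')
  have hpos := W.pos _ hmu'
  have hpow : (1 + 4 * ε) ^ q ≤ 2 ^ q := pow_le_pow_left₀ (by linarith) hε4 q
  have hEg : -(4 * q * ε * 2 ^ q) ≤ W.E (mle g (mv v s q σ)) := by
    have h1 := (abs_le.1 (le_trans hE hJ)).2
    rw [map_sub] at h1
    have h2 : 4 * (q : ℝ) * ε * (1 + 4 * ε) ^ q ≤ 4 * q * ε * 2 ^ q :=
      mul_le_mul_of_nonneg_left hpow (by positivity)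
    linarith
  have hlin : (n + 1 : ℝ) * W.E (mle g (mv v s q σ)) =
      (r.prems.map (fun P => W.E (1 - mle (schF q P) (mv v s q σ)))).sum -
        W.E (1 - mle (schF q r.concl) (mv v s q σ)) := by
    have h1 : (mle (fun b : Fin q → Bool => 1 - schF q r.concl b) (mv v s q σ) : R) =
        1 - mle (schF q r.concl) (mv v s q σ) := by
      have := mle_sub (fun _ : Fin q → Bool => (1 : ℝ)) (schF q r.concl) (mv v s q σ)
      rw [this, mle_const, map_one]
    rw [Rules_sumE W r.prems (mv v s q σ), ← h1, ← map_sub, ← mle_sub, ← smul_eq_mul,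
      ← map_smul, ← mle_smul]
    congr 2
    funext b
    rw [hg]
    simp only
    field_simp
  have h5 : (n + 1 : ℝ) * (-(4 * q * ε * 2 ^ q)) ≤ (n + 1 : ℝ) * W.E (mle g (mv v s q σ)) :=
    mul_le_mul_of_nonneg_left hEg hn0.le
  have h6 : ((n : ℝ) + 1) * (4 * q * ε * 2 ^ q) ≤ ((n : ℝ) + 1) * (4 * q * 2 ^ q) * s * ε := by
    have : 0 ≤ ((n : ℝ) + 1) * (4 * q * ε * 2 ^ q) := by positivity
    nlinarith
  have h7 : 0 ≤ (2 * (q : ℝ)) * s * ε := by positivity
  push_cast
  rw [hlin] at h5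
  nlinarith [e1.1, e1.2, e2.1, e2.2]

private theorem Rules_bound (S : Set Rule) (hS : S.Finite) (C : Rule → ℕ) :
    ∃ B : ℕ, ∀ r ∈ S, C r ≤ B := by
  refine ⟨∑ r ∈ hS.toFinset, C r, fun r hr => ?_⟩
  exact Finset.single_le_sum (f := C) (fun _ _ => Nat.zero_le _) (hS.mem_toFinset.2 hr)

theorem rules_E (S : Set Rule) (hS : S.Finite) (hs : ∀ r ∈ S, r.Sound) : ∃ C : ℕ, 1 ≤ C ∧
    ∀ r ∈ S, r.prems.length ≤ C ∧ ∀ (R : Type) [CommRing R] [Algebra ℝ R]
    (W : World R) (X : Type) (v : Fm (X × Bool) → R) (s c L : ℕ) (ε : ℝ),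
    W.Good v s c ε L → C * c ≤ L → ∀ σ : ℕ → Form X, (∀ P ∈ r.prems, (P.subst σ).size ≤ s) →
      (r.concl.subst σ).size ≤ s →
      W.E (1 - v (nnf (r.concl.subst σ))) ≤
        (r.prems.map (fun P => W.E (1 - v (nnf (P.subst σ))))).sum + C * s * ε := by
  classical
  obtain ⟨B, hB⟩ := Rules_bound S hS
    (fun r => (if h : r.Sound then Classical.choose (rule_E r h) else 0) + r.prems.length)
  refine ⟨B + 1, by omega, ?_⟩
  intro r hr
  have h1 := hB r hr
  simp only [dif_pos (hs r hr)] at h1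
  refine ⟨by omega, ?_⟩
  intro R _ _ W X v s c L ε hG hL σ hσP hσ
  have h2 := Classical.choose_spec (rule_E r (hs r hr))
  obtain ⟨K, hK⟩ : ∃ K, K = Classical.choose (rule_E r (hs r hr)) := ⟨_, rfl⟩
  rw [← hK] at h1 h2
  have h3 : K * c ≤ L := le_trans (Nat.mul_le_mul_right c (by omega)) hL
  have h4 := h2 R W X v s c L ε hG h3 σ hσP hσ
  have h5 : (K : ℝ) * s * ε ≤ ((B + 1 : ℕ) : ℝ) * s * ε := by
    refine mul_le_mul_of_nonneg_right ?_ hG.pos
    refine mul_le_mul_of_nonneg_right ?_ (Nat.cast_nonneg s)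
    exact_mod_cast (by omega : K ≤ B + 1)
  linarith

private theorem Rules_sumle {R : Type} [CommRing R] [Algebra ℝ R] (W : World R) {X : Type}
    {v : Fm (X × Bool) → R} {s c L : ℕ} {ε θ : ℝ} (hG : W.Good v s c ε L) (σ : ℕ → Form X)
    (Ps : List (Form ℕ))
    (h : ∀ P ∈ Ps, (P.subst σ).size ≤ s ∧ W.N (1 - v (nnf (P.subst σ))) ≤ θ) :
    (Ps.map (fun P => W.E (1 - v (nnf (P.subst σ))))).sum ≤ Ps.length * θ := by
  induction Ps with
  | nil => simp
  | cons Q Ps ih =>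
    have h1 := ih (fun P hP => h P (List.mem_cons_of_mem Q hP))
    obtain ⟨h2, h3⟩ := h Q List.mem_cons_self
    have hD := hG.height
    have hm1 : v (nnf (Q.subst σ)) ∈ W.F W.D :=
      W.F_mono c W.D (by omega) (hG.val.bit _ (by rw [nnf_size]; exact h2)).mem
    have h4 := W.E_le_N (Submodule.sub_mem _ (W.one_mem' W.D) hm1)
    simp only [List.map_cons, List.sum_cons, List.length_cons]
    push_cast
    have h5 := (abs_le.1 h4).2
    linarith

theorem rules_N (S : Set Rule) (hS : S.Finite) (hs : ∀ r ∈ S, r.Sound) : ∃ C : ℕ, 2 ≤ C ∧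
    ∀ r ∈ S, ∀ (R : Type) [CommRing R] [Algebra ℝ R]
    (W : World R) (X : Type) (v : Fm (X × Bool) → R) (s c L : ℕ) (ε θ : ℝ),
    W.Good v s c ε L → C * c ≤ L → 0 ≤ θ → ∀ σ : ℕ → Form X,
      (∀ P ∈ r.prems, (P.subst σ).size ≤ s ∧ W.N (1 - v (nnf (P.subst σ))) ≤ θ) →
      (r.concl.subst σ).size ≤ s →
      W.N (1 - v (nnf (r.concl.subst σ))) ^ 2 ≤ C * (θ + s * ε) := by
  obtain ⟨C, hC1, hC⟩ := rules_E S hS hs
  refine ⟨C + 1, by omega, ?_⟩
  intro r hr R _ _ W X v s c L ε θ hG hL hθ σ hσP hσ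
  obtain ⟨hlen, hC'⟩ := hC r hr
  have hL1 : C * c ≤ L := le_trans (Nat.mul_le_mul_right c (by omega)) hL
  have h1 := hC' R W X v s c L ε hG hL1 σ (fun P hP => (hσP P hP).1) hσ
  have h2 := Rules_sumle W hG σ r.prems hσP
  have hD := hG.height
  have hbit := hG.val.bit (nnf (r.concl.subst σ)) (by rw [nnf_size]; exact hσ)
  have hu : 1 - v (nnf (r.concl.subst σ)) ∈ W.F c :=
    Submodule.sub_mem _ (W.one_mem' c) hbit.mem
  have h3 := W.N_le_E hu (by omega)
  have h4 := hbit.bit 1 (W.one_mem' L)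
  rw [mul_one, W.N_one, mul_one] at h4
  have h5 : (1 - v (nnf (r.concl.subst σ))) * (1 - v (nnf (r.concl.subst σ))) -
      (1 - v (nnf (r.concl.subst σ))) =
      v (nnf (r.concl.subst σ)) * v (nnf (r.concl.subst σ)) - v (nnf (r.concl.subst σ)) := by
    ring
  rw [h5] at h3
  have h6 : (r.prems.length : ℝ) * θ ≤ C * θ :=
    mul_le_mul_of_nonneg_right (by exact_mod_cast hlen) hθ
  have hs1 : (1 : ℝ) ≤ s := by exact_mod_cast hG.one
  have h7 : ε ≤ s * ε := by nlinarith [hG.pos]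
  push_cast
  nlinarith

end Pool.Agent.MP_9cec2c_lc.SL
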