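import Pool.Agent.Lib.MP_9cec2c_lc.FS.Cond

/-!
Definitions and TASK Scheme: the value of an instance of a scheme is close to the multilinear extension
of the scheme at the values of the metavariables.

Induction on `F`, which gives a constant `C` for every scheme. Write `p = mv v s r σ` (each `p i` is a
`(c, ε, L)`-bit: `h.val.bit` with `nnf_size`, and `0` is one), `F̂ = mle (schF r F) p`,
`e_F = v (nnf (F.subst σ)) - F̂`. Contractions: `contr` (factor `1 + 4ε ≤ 2`) for `v`, and
`N (F̂ f) ≤ 2^r N f` for `L' + r c ≤ L` by `J1` (`|schF| ≤ 1`, `(1 + 4ε)^r ≤ 2^r`, and `N² ≤ 2^r N²` gives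
`N ≤ 2^r N`). Degrees: `F̂ ∈ F (r c)` (`mle_mem`), `v (..) ∈ F c`.
* `var i`: `i < r` and `(σ i).size ≤ s`, `mle (fun b => ind (b i)) p = p i` (`mle_mono` for `{i}`): `e = 0`.
* `tt`, `ff`: `v tt = 1`, `v ff = 0`, `mle_const`.
* `neg A`: `nnf (¬A) = dual (nnf A)`: `e = (v (dual) - (1 - v)) - e_A` (`dual_op`; `schF (neg A) = 1 - schF A`,
  `mle_sub`, `mle_const`). Sizes: `(A.subst σ).size ≤ s`.
* `and A B`: `e = [v (A ∧ B) - v A v B] + v A e_B + e_A B̂ + [Â B̂ - mle (schF A · schF B)]`: gate `h.val.and`,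
  `contr` for `e_B f ∈ F (max c (r c) + L')`, the bound for `A` applied to `B̂ f ∈ F (r c + L')`, and `J2`
  (`4 r ε (1+4ε)^r ≤ 4 r 2^r ε`). The total is at most `(ε + 2 C_B s ε + C_A s ε 2^r + 4 r 2^r ε) N f`.
* `or A B`: gate `h.val.or`; `v A + v B - v A v B - (Â + B̂ - mle (AB))`, with the same estimate of
  `v A v B - Â B̂`. * `imp A B`: `nnf = or (dual (nnf A)) (nnf B)`: combine `neg` and `or`.
Choose `C_F` large (degrees: `C_F ≥ C_A + r + 2` etc.; note `0 ≤ c`, `r c + c ≤ (r + 1) c`).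
-/

set_option autoImplicit false

open Finset

namespace Pool.Agent.MP_9cec2c_lc.SL

/-- All variables of the scheme are less than `r`. -/
def Form.VarLT (r : ℕ) : Form ℕ → Prop
  | Form.var i => i < r
  | Form.tt => True
  | Form.ff => True
  | Form.neg A => A.VarLT r
  | Form.and A B => A.VarLT r ∧ B.VarLT r
  | Form.or A B => A.VarLT r ∧ B.VarLT r
  | Form.imp A B => A.VarLT r ∧ B.VarLT r

/-- The truth value of a scheme with the variables `0, …, r - 1` as a real function. -/
noncomputable def schF (r : ℕ) (F : Form ℕ) : (Fin r → Bool) → ℝ :=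
  fun b => ind (F.eval (fun i => if h : i < r then b ⟨i, h⟩ else false))

/-- The values of the metavariables. -/
noncomputable def mv {R : Type} [CommRing R] {X : Type} (v : Fm (X × Bool) → R) (s r : ℕ)
    (σ : ℕ → Form X) : Fin r → R :=
  fun i => if (σ i).size ≤ s then v (nnf (σ i)) else 0

theorem mv_bit {R : Type} [CommRing R] [Algebra ℝ R] (W : World R) {X : Type}
    {v : Fm (X × Bool) → R} {s c L : ℕ} {ε : ℝ} (h : W.Good v s c ε L) (r : ℕ) (σ : ℕ → Form X)
    (i : Fin r) : W.IsBit c ε L (mv v s r σ i) := by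
  unfold mv
  split_ifs with hs
  · exact h.val.bit _ (by rw [nnf_size]; exact hs)
  · refine ⟨Submodule.zero_mem _, fun f _ => ?_⟩
    have h1 : ((0 : R) * 0 - 0) * f = 0 := by ring
    rw [h1, W.N_zero]
    exact mul_nonneg h.pos (W.N_nonneg f)

theorem abs_schF (r : ℕ) (F : Form ℕ) (b : Fin r → Bool) : |schF r F b| ≤ 1 := by
  unfold schF ind
  split_ifs <;> simp

/-- `v A` is close to the multilinear extension of `g` at `p`. -/
private def Scheme_Ap {R : Type} [CommRing R] [Algebra ℝ R] (W : World R) {X : Type}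
    (v : Fm (X × Bool) → R) (s c L : ℕ) (ε : ℝ) {r : ℕ} (p : Fin r → R) (A : Fm (X × Bool))
    (g : (Fin r → Bool) → ℝ) (C : ℕ) : Prop :=
  ∀ L' : ℕ, L' + C * c ≤ L → ∀ f ∈ W.F L', W.N ((v A - mle g p) * f) ≤ C * s * ε * W.N f

section Scheme_aux

variable {R : Type} [CommRing R] [Algebra ℝ R] {W : World R} {X : Type}
  {v : Fm (X × Bool) → R} {s c L : ℕ} {ε : ℝ} {r : ℕ} {p : Fin r → R}

private theorem Scheme_of_eq (h : W.Good v s c ε L) {A : Fm (X × Bool)} {g : (Fin r → Bool) → ℝ}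
    (hA : v A = mle g p) (C : ℕ) : Scheme_Ap W v s c L ε p A g C := by
  intro L' _ f _
  rw [hA, sub_self, zero_mul, W.N_zero]
  have := h.pos
  have := W.N_nonneg f
  positivity

private theorem Scheme_pow (h : W.Good v s c ε L) : (1 + 4 * ε) ^ r ≤ 2 ^ r := by
  have h1 := h.pos
  have h2 := h.small
  have h3 : (1 : ℝ) ≤ s := by exact_mod_cast h.one
  refine pow_le_pow_left₀ (by linarith) ?_ r
  nlinarith

private theorem Scheme_le_s (h : W.Good v s c ε L) : ε ≤ s * ε := by
  have h1 := h.pos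
  have h3 : (1 : ℝ) ≤ s := by exact_mod_cast h.one
  nlinarith

/-- Multiplication by a multilinear extension of a bounded function. -/
private theorem Scheme_J1 (h : W.Good v s c ε L) (hp : ∀ i, W.IsBit c ε L (p i))
    {g : (Fin r → Bool) → ℝ} (hg : ∀ b, |g b| ≤ 1) {L' : ℕ} (hL : L' + r * c ≤ L) {f : R}
    (hf : f ∈ W.F L') : W.N (mle g p * f) ≤ 2 ^ r * W.N f := by
  have h1 := World.J1 W h.pos zero_le_one h.height L' p hp g hg hL f hf
  have h2 : (1 : ℝ) ^ 2 * (1 + 4 * ε) ^ r * W.N f ^ 2 ≤ (2 ^ r * W.N f) ^ 2 := by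
    rw [one_pow, one_mul, mul_pow]
    refine mul_le_mul_of_nonneg_right ?_ (sq_nonneg _)
    refine (Scheme_pow h).trans ?_
    have h3 : (1 : ℝ) ≤ 2 ^ r := one_le_pow₀ one_le_two
    nlinarith
  exact (pow_le_pow_iff_left₀ (W.N_nonneg _)
    (mul_nonneg (by positivity) (W.N_nonneg _)) two_ne_zero).mp (h1.trans h2)

private theorem Scheme_memD (h : W.Good v s c ε L) {z : R} {a : ℕ} (hz : z ∈ W.F a)
    (ha : a ≤ L) : z ∈ W.F W.D :=
  W.F_mono a W.D (by have := h.height; omega) hz

private theorem Scheme_neg (h : W.Good v s c ε L) (hp : ∀ i, W.IsBit c ε L (p i))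
    {A : Fm (X × Bool)} {g : (Fin r → Bool) → ℝ} {C : ℕ} (hs : A.size ≤ s)
    (hA : Scheme_Ap W v s c L ε p A g C) :
    Scheme_Ap W v s c L ε p (A.dual flip) (fun b => 1 - g b) (C + r + 8) := by
  intro L' hL f hf
  have hc1 : (C + r + 8) * c = C * c + r * c + 8 * c := by ring
  rw [hc1] at hL
  have h1 := W.dual_op h A hs (L' := L') (by omega) hf
  have h2 := hA L' (by omega) f hf
  have hm1 : v A ∈ W.F c := (h.val.bit A hs).mem
  have hm2 : v (A.dual flip) ∈ W.F c := (h.val.bit _ (by rw [dual_size]; exact hs)).mem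
  have hm3 : mle g p ∈ W.F (r * c) := mle_mem W g fun i => (hp i).mem
  have e1 : (v (A.dual flip) - mle (fun b => 1 - g b) p) * f =
      (v (A.dual flip) - (1 - v A)) * f - (v A - mle g p) * f := by
    rw [mle_sub (fun _ => (1 : ℝ)) g p, mle_const, map_one]
    ring
  have hmA : (v (A.dual flip) - (1 - v A)) * f ∈ W.F (c + L') :=
    W.mul_mem _ _ _ _ (Submodule.sub_mem _ hm2 (Submodule.sub_mem _ (W.one_mem' c) hm1)) hf
  have hmB : (v A - mle g p) * f ∈ W.F (c + r * c + L') :=
    W.mul_mem _ _ _ _ (Submodule.sub_mem _ (W.F_mono _ _ (by omega) hm1)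
      (W.F_mono _ _ (by omega) hm3)) hf
  rw [e1]
  refine (W.N_sub (Scheme_memD h hmA (by omega)) (Scheme_memD h hmB (by omega))).trans ?_
  refine (add_le_add h1 h2).trans ?_
  have hN := W.N_nonneg f
  have he := h.pos
  have h5 : (0 : ℝ) ≤ (s : ℝ) * ε * W.N f := by positivity
  push_cast
  have h6 : (0 : ℝ) ≤ (r : ℝ) * ((s : ℝ) * ε * W.N f) := by positivity
  nlinarith

private theorem Scheme_mul (h : W.Good v s c ε L) (hp : ∀ i, W.IsBit c ε L (p i))
    {A B : Fm (X × Bool)} {g k : (Fin r → Bool) → ℝ} {C C' : ℕ} (hsA : A.size ≤ s)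
    (hsB : B.size ≤ s) (hg : ∀ b, |g b| ≤ 1) (hk : ∀ b, |k b| ≤ 1)
    (hA : Scheme_Ap W v s c L ε p A g C) (hB : Scheme_Ap W v s c L ε p B k C')
    {L' : ℕ} (hL : L' + (C + C' + 2 * r + 4) * c ≤ L) {f : R} (hf : f ∈ W.F L') :
    W.N ((v A * v B - mle (fun b => g b * k b) p) * f) ≤
      (2 * C' + C * 2 ^ r + 4 * r * 2 ^ r) * s * ε * W.N f := by
  have hc1 : (C + C' + 2 * r + 4) * c = C * c + C' * c + 2 * (r * c) + 4 * c := by ring
  rw [hc1] at hL
  have hmA : v A ∈ W.F c := (h.val.bit A hsA).mem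
  have hmB : v B ∈ W.F c := (h.val.bit B hsB).mem
  have hmg : mle g p ∈ W.F (r * c) := mle_mem W g fun i => (hp i).mem
  have hmk : mle k p ∈ W.F (r * c) := mle_mem W k fun i => (hp i).mem
  have hmgk : mle (fun b => g b * k b) p ∈ W.F (r * c) := mle_mem W _ fun i => (hp i).mem
  have hmeB : (v B - mle k p) * f ∈ W.F (c + r * c + L') :=
    W.mul_mem _ _ _ _ (Submodule.sub_mem _ (W.F_mono _ _ (by omega) hmB)
      (W.F_mono _ _ (by omega) hmk)) hf
  have hmkf : mle k p * f ∈ W.F (r * c + L') := W.mul_mem _ _ _ _ hmk hf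
  -- the three parts
  have hN := W.N_nonneg f
  have he := h.pos
  have hs0 : (0 : ℝ) ≤ s := Nat.cast_nonneg s
  have h1 : W.N (v A * ((v B - mle k p) * f)) ≤ 2 * (C' * s * ε * W.N f) := by
    obtain ⟨h11, _, h12⟩ := W.contr h A hsA (L' := c + r * c + L') (by omega) hmeB
    have h13 := hB L' (by omega) f hf
    refine h11.trans ?_
    refine (mul_le_mul_of_nonneg_right h12 (W.N_nonneg _)).trans ?_
    exact mul_le_mul_of_nonneg_left h13 (by norm_num)
  have h2 : W.N ((v A - mle g p) * (mle k p * f)) ≤ C * s * ε * (2 ^ r * W.N f) := by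
    have h21 := hA (r * c + L') (by omega) _ hmkf
    have h22 := Scheme_J1 h hp hk (L' := L') (by omega) hf
    exact h21.trans (mul_le_mul_of_nonneg_left h22 (by positivity))
  have h3 : W.N ((mle g p * mle k p - mle (fun b => g b * k b) p) * f) ≤
      4 * r * 2 ^ r * (s * ε) * W.N f := by
    have h31 := World.J2 W h.pos h.height L' p hp g k hg hk
      (by have : 2 * r * c = 2 * (r * c) := by ring
          omega) f hf
    refine h31.trans ?_
    refine mul_le_mul_of_nonneg_right ?_ hN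
    have h32 := Scheme_pow (r := r) h
    have h33 := Scheme_le_s h
    have h34 : (0 : ℝ) ≤ 4 * r := by positivity
    calc 4 * (r : ℝ) * ε * (1 + 4 * ε) ^ r ≤ 4 * (r : ℝ) * (s * ε) * 2 ^ r := by gcongr
      _ = 4 * r * 2 ^ r * (s * ε) := by ring
  have e1 : (v A * v B - mle (fun b => g b * k b) p) * f =
      (v A * ((v B - mle k p) * f) + (v A - mle g p) * (mle k p * f)) +
        (mle g p * mle k p - mle (fun b => g b * k b) p) * f := by ring
  have m1 : v A * ((v B - mle k p) * f) ∈ W.F (c + (c + r * c + L')) :=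
    W.mul_mem _ _ _ _ hmA hmeB
  have m2 : (v A - mle g p) * (mle k p * f) ∈ W.F (c + r * c + (r * c + L')) :=
    W.mul_mem _ _ _ _ (Submodule.sub_mem _ (W.F_mono _ _ (by omega) hmA)
      (W.F_mono _ _ (by omega) hmg)) hmkf
  have m3 : (mle g p * mle k p - mle (fun b => g b * k b) p) * f ∈
      W.F (r * c + r * c + L') :=
    W.mul_mem _ _ _ _ (Submodule.sub_mem _ (W.mul_mem _ _ _ _ hmg hmk)
      (W.F_mono _ _ (by omega) hmgk)) hf
  have d1 := Scheme_memD h m1 (by omega)
  have d2 := Scheme_memD h m2 (by omega)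
  have d3 := Scheme_memD h m3 (by omega)
  rw [e1]
  refine (W.N_add (Submodule.add_mem _ d1 d2) d3).trans ?_
  refine (add_le_add ((W.N_add d1 d2).trans (add_le_add h1 h2)) h3).trans (le_of_eq ?_)
  ring

private theorem Scheme_and (h : W.Good v s c ε L) (hp : ∀ i, W.IsBit c ε L (p i))
    {A B : Fm (X × Bool)} {g k : (Fin r → Bool) → ℝ} {C C' : ℕ} (hs : A.size + B.size ≤ s)
    (hg : ∀ b, |g b| ≤ 1) (hk : ∀ b, |k b| ≤ 1)
    (hA : Scheme_Ap W v s c L ε p A g C) (hB : Scheme_Ap W v s c L ε p B k C') :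
    Scheme_Ap W v s c L ε p (A.and B) (fun b => g b * k b)
      (C + 3 * C' + C * 2 ^ r + 4 * r * 2 ^ r + 2 * r + 4) := by
  intro L' hL f hf
  have hc1 : (C + 3 * C' + C * 2 ^ r + 4 * r * 2 ^ r + 2 * r + 4) * c =
      C * c + 3 * (C' * c) + (C * 2 ^ r + 4 * r * 2 ^ r) * c + 2 * (r * c) + 4 * c := by ring
  rw [hc1] at hL
  have hc2 : (C + C' + 2 * r + 4) * c = C * c + C' * c + 2 * (r * c) + 4 * c := by ring
  have hmA : v A ∈ W.F c := (h.val.bit A (by omega)).mem
  have hmB : v B ∈ W.F c := (h.val.bit B (by omega)).mem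
  have hmAB : v (A.and B) ∈ W.F c := (h.val.bit (A.and B) hs).mem
  have hmgk : mle (fun b => g b * k b) p ∈ W.F (r * c) := mle_mem W _ fun i => (hp i).mem
  have h1 := h.val.and A B hs f (W.F_mono L' L (by omega) hf)
  have h2 := Scheme_mul h hp (by omega) (by omega) hg hk hA hB (L' := L') (by omega) hf
  have e1 : (v (A.and B) - mle (fun b => g b * k b) p) * f =
      (v (A.and B) - v A * v B) * f + (v A * v B - mle (fun b => g b * k b) p) * f := by ring
  have m1 : (v (A.and B) - v A * v B) * f ∈ W.F (c + c + L') :=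
    W.mul_mem _ _ _ _ (Submodule.sub_mem _ (W.F_mono _ _ (by omega) hmAB)
      (W.mul_mem _ _ _ _ hmA hmB)) hf
  have m2 : (v A * v B - mle (fun b => g b * k b) p) * f ∈ W.F (c + c + r * c + L') :=
    W.mul_mem _ _ _ _ (Submodule.sub_mem _ (W.F_mono _ _ (by omega) (W.mul_mem _ _ _ _ hmA hmB))
      (W.F_mono _ _ (by omega) hmgk)) hf
  rw [e1]
  refine (W.N_add (Scheme_memD h m1 (by omega)) (Scheme_memD h m2 (by omega))).trans ?_
  refine (add_le_add h1 h2).trans ?_
  have hN := W.N_nonneg f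
  have he := h.pos
  have h5 : (0 : ℝ) ≤ (s : ℝ) * ε * W.N f := by positivity
  have h6 : ε * W.N f ≤ (s : ℝ) * ε * W.N f := mul_le_mul_of_nonneg_right (Scheme_le_s h) hN
  have h7 : (0 : ℝ) ≤ (C + C' + 2 * r + 3 : ℝ) * ((s : ℝ) * ε * W.N f) := by positivity
  push_cast
  have h8 : ((C : ℝ) + 3 * C' + C * 2 ^ r + 4 * r * 2 ^ r + 2 * r + 4) * s * ε * W.N f =
      (2 * C' + C * 2 ^ r + 4 * r * 2 ^ r) * s * ε * W.N f +
        (C + C' + 2 * r + 3) * (s * ε * W.N f) + s * ε * W.N f := by ring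
  rw [h8]
  linarith

private theorem Scheme_or (h : W.Good v s c ε L) (hp : ∀ i, W.IsBit c ε L (p i))
    {A B : Fm (X × Bool)} {g k : (Fin r → Bool) → ℝ} {C C' : ℕ} (hs : A.size + B.size ≤ s)
    (hg : ∀ b, |g b| ≤ 1) (hk : ∀ b, |k b| ≤ 1)
    (hA : Scheme_Ap W v s c L ε p A g C) (hB : Scheme_Ap W v s c L ε p B k C') :
    Scheme_Ap W v s c L ε p (A.or B) (fun b => g b + k b - g b * k b)
      (C + 3 * C' + C * 2 ^ r + 4 * r * 2 ^ r + 2 * r + 4) := by
  intro L' hL f hf
  have hc1 : (C + 3 * C' + C * 2 ^ r + 4 * r * 2 ^ r + 2 * r + 4) * c =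
      C * c + 3 * (C' * c) + (C * 2 ^ r + 4 * r * 2 ^ r) * c + 2 * (r * c) + 4 * c := by ring
  rw [hc1] at hL
  have hc2 : (C + C' + 2 * r + 4) * c = C * c + C' * c + 2 * (r * c) + 4 * c := by ring
  have hmA : v A ∈ W.F c := (h.val.bit A (by omega)).mem
  have hmB : v B ∈ W.F c := (h.val.bit B (by omega)).mem
  have hmAB : v (A.or B) ∈ W.F c := (h.val.bit (A.or B) hs).mem
  have hmg : mle g p ∈ W.F (r * c) := mle_mem W g fun i => (hp i).mem
  have hmk : mle k p ∈ W.F (r * c) := mle_mem W k fun i => (hp i).mem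
  have hmgk : mle (fun b => g b * k b) p ∈ W.F (r * c) := mle_mem W _ fun i => (hp i).mem
  have h1 := h.val.or A B hs f (W.F_mono L' L (by omega) hf)
  have h2 := Scheme_mul h hp (by omega) (by omega) hg hk hA hB (L' := L') (by omega) hf
  have h3 := hA L' (by omega) f hf
  have h4 := hB L' (by omega) f hf
  have e1 : (v (A.or B) - mle (fun b => g b + k b - g b * k b) p) * f =
      (((v (A.or B) - (v A + v B - v A * v B)) * f + (v A - mle g p) * f) +
        (v B - mle k p) * f) - (v A * v B - mle (fun b => g b * k b) p) * f := by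
    rw [mle_sub (fun b => g b + k b) (fun b => g b * k b) p, mle_add]
    ring
  have m1 : (v (A.or B) - (v A + v B - v A * v B)) * f ∈ W.F (c + c + L') :=
    W.mul_mem _ _ _ _ (Submodule.sub_mem _ (W.F_mono _ _ (by omega) hmAB)
      (Submodule.sub_mem _ (Submodule.add_mem _ (W.F_mono _ _ (by omega) hmA)
        (W.F_mono _ _ (by omega) hmB)) (W.mul_mem _ _ _ _ hmA hmB))) hf
  have m2 : (v A * v B - mle (fun b => g b * k b) p) * f ∈ W.F (c + c + r * c + L') :=
    W.mul_mem _ _ _ _ (Submodule.sub_mem _ (W.F_mono _ _ (by omega) (W.mul_mem _ _ _ _ hmA hmB))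
      (W.F_mono _ _ (by omega) hmgk)) hf
  have m3 : (v A - mle g p) * f ∈ W.F (c + r * c + L') :=
    W.mul_mem _ _ _ _ (Submodule.sub_mem _ (W.F_mono _ _ (by omega) hmA)
      (W.F_mono _ _ (by omega) hmg)) hf
  have m4 : (v B - mle k p) * f ∈ W.F (c + r * c + L') :=
    W.mul_mem _ _ _ _ (Submodule.sub_mem _ (W.F_mono _ _ (by omega) hmB)
      (W.F_mono _ _ (by omega) hmk)) hf
  have d1 := Scheme_memD h m1 (by omega)
  have d2 := Scheme_memD h m2 (by omega)
  have d3 := Scheme_memD h m3 (by omega)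
  have d4 := Scheme_memD h m4 (by omega)
  rw [e1]
  refine (W.N_sub (Submodule.add_mem _ (Submodule.add_mem _ d1 d3) d4) d2).trans ?_
  refine (add_le_add ((W.N_add (Submodule.add_mem _ d1 d3) d4).trans
    (add_le_add ((W.N_add d1 d3).trans (add_le_add h1 h3)) h4)) h2).trans ?_
  have hN := W.N_nonneg f
  have he := h.pos
  have h5 : (0 : ℝ) ≤ (s : ℝ) * ε * W.N f := by positivity
  have h6 : ε * W.N f ≤ (s : ℝ) * ε * W.N f := mul_le_mul_of_nonneg_right (Scheme_le_s h) hN
  have h7 : (0 : ℝ) ≤ (2 * r + 3 : ℝ) * ((s : ℝ) * ε * W.N f) := by positivity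
  push_cast
  have h8 : ((C : ℝ) + 3 * C' + C * 2 ^ r + 4 * r * 2 ^ r + 2 * r + 4) * s * ε * W.N f =
      (2 * C' + C * 2 ^ r + 4 * r * 2 ^ r) * s * ε * W.N f + C * s * ε * W.N f +
        C' * s * ε * W.N f + (2 * r + 3) * (s * ε * W.N f) + s * ε * W.N f := by ring
  rw [h8]
  linarith

end Scheme_aux

private theorem Scheme_ind_not (a : Bool) : ind (!a) = 1 - ind a := by
  cases a <;> simp [ind]

private theorem Scheme_ind_and (a b : Bool) : ind (a && b) = ind a * ind b := by
  cases a <;> cases b <;> simp [ind]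

private theorem Scheme_ind_or (a b : Bool) : ind (a || b) = ind a + ind b - ind a * ind b := by
  cases a <;> cases b <;> simp [ind]

theorem scheme_val (r : ℕ) (F : Form ℕ) (hF : F.VarLT r) : ∃ C : ℕ, ∀ (R : Type) [CommRing R]
    [Algebra ℝ R] (W : World R) (X : Type) (v : Fm (X × Bool) → R) (s c L L' : ℕ) (ε : ℝ),
    W.Good v s c ε L → L' + C * c ≤ L → ∀ σ : ℕ → Form X, (F.subst σ).size ≤ s →
      ∀ f ∈ W.F L', W.N ((v (nnf (F.subst σ)) - mle (schF r F) (mv v s r σ)) * f) ≤
        C * s * ε * W.N f := by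
  have key : ∃ C : ℕ, ∀ (R : Type) [CommRing R] [Algebra ℝ R] (W : World R) (X : Type)
      (v : Fm (X × Bool) → R) (s c L : ℕ) (ε : ℝ), W.Good v s c ε L →
      ∀ σ : ℕ → Form X, (F.subst σ).size ≤ s →
        Scheme_Ap W v s c L ε (mv v s r σ) (nnf (F.subst σ)) (schF r F) C := by
    induction F with
    | var i =>
      refine ⟨0, fun R _ _ W X v s c L ε h σ hs => ?_⟩
      have hi : i < r := hF
      refine Scheme_of_eq h ?_ 0
      have h1 : schF r (Form.var i) = mono {(⟨i, hi⟩ : Fin r)} := by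
        funext b
        unfold schF mono ind
        simp only [Form.eval, hi, dif_pos, mem_singleton, forall_eq]
      rw [h1, mle_mono, prod_singleton]
      have hs' : (σ i).size ≤ s := hs
      simp only [mv, Form.subst]
      rw [if_pos hs']
    | tt =>
      refine ⟨0, fun R _ _ W X v s c L ε h σ hs => ?_⟩
      refine Scheme_of_eq h ?_ 0
      have h1 : schF r Form.tt = fun _ => (1 : ℝ) := by
        funext b
        simp [schF, Form.eval, ind]
      rw [h1, mle_const, map_one]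
      exact h.val.v_tt
    | ff =>
      refine ⟨0, fun R _ _ W X v s c L ε h σ hs => ?_⟩
      refine Scheme_of_eq h ?_ 0
      have h1 : schF r Form.ff = fun _ => (0 : ℝ) := by
        funext b
        simp [schF, Form.eval, ind]
      rw [h1, mle_const, map_zero]
      exact h.val.v_ff
    | neg A ihA =>
      obtain ⟨CA, hA⟩ := ihA hF
      refine ⟨CA + r + 8, fun R _ _ W X v s c L ε h σ hs => ?_⟩
      have hsA : (A.subst σ).size ≤ s := hs
      have h2 := Scheme_neg h (mv_bit W h r σ) (by rw [nnf_size]; exact hsA)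
        (hA R W X v s c L ε h σ hsA)
      have h1 : schF r (Form.neg A) = fun b => 1 - schF r A b := by
        funext b
        exact Scheme_ind_not _
      rw [h1]
      exact h2
    | and A B ihA ihB =>
      obtain ⟨CA, hA⟩ := ihA hF.1
      obtain ⟨CB, hB⟩ := ihB hF.2
      refine ⟨CA + 3 * CB + CA * 2 ^ r + 4 * r * 2 ^ r + 2 * r + 4,
        fun R _ _ W X v s c L ε h σ hs => ?_⟩
      have hsAB : (A.subst σ).size + (B.subst σ).size ≤ s := hs
      have h2 := Scheme_and h (mv_bit W h r σ) (A := nnf (A.subst σ)) (B := nnf (B.subst σ))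
        (by rw [nnf_size, nnf_size]; exact hsAB) (abs_schF r A) (abs_schF r B)
        (hA R W X v s c L ε h σ (by omega)) (hB R W X v s c L ε h σ (by omega))
      have h1 : schF r (Form.and A B) = fun b => schF r A b * schF r B b := by
        funext b
        exact Scheme_ind_and _ _
      rw [h1]
      exact h2
    | or A B ihA ihB =>
      obtain ⟨CA, hA⟩ := ihA hF.1
      obtain ⟨CB, hB⟩ := ihB hF.2
      refine ⟨CA + 3 * CB + CA * 2 ^ r + 4 * r * 2 ^ r + 2 * r + 4,
        fun R _ _ W X v s c L ε h σ hs => ?_⟩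
      have hsAB : (A.subst σ).size + (B.subst σ).size ≤ s := hs
      have h2 := Scheme_or h (mv_bit W h r σ) (A := nnf (A.subst σ)) (B := nnf (B.subst σ))
        (by rw [nnf_size, nnf_size]; exact hsAB) (abs_schF r A) (abs_schF r B)
        (hA R W X v s c L ε h σ (by omega)) (hB R W X v s c L ε h σ (by omega))
      have h1 : schF r (Form.or A B) = fun b => schF r A b + schF r B b -
          schF r A b * schF r B b := by
        funext b
        exact Scheme_ind_or _ _
      rw [h1]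
      exact h2
    | imp A B ihA ihB =>
      obtain ⟨CA, hA⟩ := ihA hF.1
      obtain ⟨CB, hB⟩ := ihB hF.2
      refine ⟨(CA + r + 8) + 3 * CB + (CA + r + 8) * 2 ^ r + 4 * r * 2 ^ r + 2 * r + 4,
        fun R _ _ W X v s c L ε h σ hs => ?_⟩
      have hsAB : (A.subst σ).size + (B.subst σ).size ≤ s := hs
      have h3 := Scheme_neg h (mv_bit W h r σ) (A := nnf (A.subst σ))
        (by rw [nnf_size]; omega) (hA R W X v s c L ε h σ (by omega))
      have hneg : ∀ b, |1 - schF r A b| ≤ 1 := by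
        intro b
        have h4 : 1 - schF r A b = schF r (Form.neg A) b := (Scheme_ind_not _).symm
        rw [h4]
        exact abs_schF r (Form.neg A) b
      have h2 := Scheme_or h (mv_bit W h r σ) (A := (nnf (A.subst σ)).dual flip)
        (B := nnf (B.subst σ)) (by rw [dual_size, nnf_size, nnf_size]; exact hsAB)
        hneg (abs_schF r B) h3 (hB R W X v s c L ε h σ (by omega))
      have h1 : schF r (Form.imp A B) = fun b => (1 - schF r A b) + schF r B b -
          (1 - schF r A b) * schF r B b := by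
        funext b
        have h5 : schF r (Form.imp A B) b = ind ((!(A.eval
            (fun i => if h : i < r then b ⟨i, h⟩ else false))) || (B.eval
            (fun i => if h : i < r then b ⟨i, h⟩ else false))) := rfl
        rw [h5, Scheme_ind_or, Scheme_ind_not]
        rfl
      rw [h1]
      exact h2
  obtain ⟨C, hC⟩ := key
  exact ⟨C, fun R _ _ W X v s c L L' ε h hL σ hs f hf => hC R W X v s c L ε h σ hs L' hL f hf⟩

end Pool.Agent.MP_9cec2c_lc.SL
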