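import Pool.Agent.Lib.MP_9cec2c_lc.FS.UpD

/-!
Campaign FS, upper bounds, part E: the decision tree.
-/

set_option autoImplicit false

open Finset

namespace Pool.Agent.MP_9cec2c_lc.SL.Up

open Form

variable {X : Type} {S : Set Rule} {Φ : Set (Form X)} {K t : ℕ}

/-- Derivations with at most `d` nested applications of rules in `bfRules`. -/
def TD (S : Set Rule) (Φ : Set (Form X)) (K t d : ℕ) (A : Form X) : Prop :=
  TL S Φ (K * t) ((2 * K) ^ d) (K * d) A

theorem TD.mono {d d' : ℕ} {A : Form X} (hK1 : 1 ≤ K) (H : TD S Φ K t d A) (h : d ≤ d') :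
    TD S Φ K t d' A :=
  TL.mono H (Nat.pow_le_pow_right (by omega) h) (Nat.mul_le_mul_left _ h)

theorem TD.hyp {A : Form X} (hK1 : 1 ≤ K) (hA : A ∈ Φ) (hs : A.size ≤ t) : TD S Φ K t 0 A :=
  ⟨1, by simp, TH.hyp A _ hA (hs.trans (Nat.le_mul_of_pos_left _ (by omega)))⟩

theorem TD.rule (hK1 : 1 ≤ K) (hK : SimT S K) {R : Rule} (hR : R ∈ bfRules) (σ : ℕ → Form X)
    (ht : 1 ≤ t) {d : ℕ} {B : Form X}
    (hP : ∀ P ∈ R.prems, TD S Φ K t d (P.subst σ) ∧ (P.subst σ).size ≤ t)
    (hB : R.concl.subst σ = B) (hc : B.size ≤ t) : TD S Φ K t (d + 1) B := by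
  subst hB
  refine (hK R hR X Φ t ((2 * K) ^ d) (K * d) σ ht hP hc).mono ?_ (le_of_eq (by ring))
  have h1 : 1 ≤ (2 * K) ^ d := Nat.one_le_pow _ _ (by omega)
  rw [pow_succ]
  calc K * ((2 * K) ^ d + 1) ≤ K * ((2 * K) ^ d + (2 * K) ^ d) := Nat.mul_le_mul_left _ (by omega)
    _ = (2 * K) ^ d * (2 * K) := by ring

/-- The clause which is falsified exactly by a path. -/
def gv : List (X × Bool) → Form X
  | [] => ff
  | l :: v => or (gv v) (lit (l.1, !l.2))

theorem gv_size : ∀ v : List (X × Bool), (gv v).size = v.length + 1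
  | [] => rfl
  | l :: v => by rw [gv, Form.size, gv_size v, lit_size, List.length_cons]

/-- A literal implies the clause. -/
theorem lit_gv (hK1 : 1 ≤ K) (hK : SimT S K) (N : ℕ) (ht : N + 3 ≤ t) (l : X × Bool) :
    ∀ v : List (X × Bool), v.length ≤ N → (l.1, !l.2) ∈ v →
      TD S Φ K t v.length (imp (lit l) (gv v))
  | [], _, h => by simp at h
  | p :: v, hv, h => by
    rw [List.length_cons] at hv
    have hz : (imp (lit l) (gv (p :: v))).size ≤ t := by
      rw [Form.size, gv_size, lit_size, List.length_cons]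
      omega
    by_cases hp : (l.1, !l.2) = p
    · have h1 : TD S Φ K t 1 (imp (lit l) (gv (p :: v))) := by
        refine TD.rule (d := 0) hK1 hK (R := ⟨[], imp (var 0) (or (var 1) (var 0))⟩)
          (by unfold bfRules; simp)
          (fun i => if i = 0 then lit l else gv v) (by omega) (by simp) ?_ hz
        subst hp
        simp [Form.subst, gv]
      rw [List.length_cons]
      exact h1.mono hK1 (by omega)
    · have h' : (l.1, !l.2) ∈ v := by
        rcases List.mem_cons.mp h with h | h
        · exact absurd h hp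
        · exact h
      have ih := lit_gv hK1 hK N ht l v (by omega) h'
      rw [List.length_cons]
      refine TD.rule hK1 hK (R := ⟨[imp (var 0) (var 1)], imp (var 0) (or (var 1) (var 2))⟩)
        (by unfold bfRules; simp)
        (fun i => if i = 0 then lit l else if i = 1 then gv v else lit (p.1, !p.2)) (by omega)
        ?_ ?_ hz
      · intro P hP
        rw [List.mem_singleton] at hP
        subst hP
        refine ⟨by simpa [Form.subst] using ih, ?_⟩
        simp only [Form.subst, if_true, one_ne_zero, if_false, Form.size, gv_size, lit_size]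
        omega
      · simp [Form.subst, gv]

/-- A clause implies the clause of a path which falsifies it. -/
theorem clause_gv (hK1 : 1 ≤ K) (hK : SimT S K) (N : ℕ) (ht : 2 * N + 3 ≤ t)
    (v : List (X × Bool)) (hv : v.length ≤ N) :
    ∀ C : List (X × Bool), C.length ≤ N → (∀ l ∈ C, (l.1, !l.2) ∈ v) →
      TD S Φ K t (N + C.length + 1) (imp (clause C) (gv v))
  | [], _, _ => by
    have h1 : TD S Φ K t 1 (imp (clause []) (gv v)) := by
      refine TD.rule (d := 0) hK1 hK (R := ⟨[], imp ff (var 0)⟩)
        (by unfold bfRules; simp) (fun _ => gv v) (by omega) (by simp) ?_ ?_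
      · simp [Form.subst, clause]
      · rw [Form.size, gv_size, clause_size, List.length_nil]
        omega
    exact h1.mono hK1 (by omega)
  | l :: C, hC, hl => by
    rw [List.length_cons] at hC
    have ih := clause_gv hK1 hK N ht v hv C (by omega) fun l' hl' => hl l' (List.mem_cons_of_mem _ hl')
    have h1 : TD S Φ K t (N + (C.length + 1)) (imp (lit l) (gv v)) :=
      (lit_gv (Φ := Φ) hK1 hK N (by omega) l v hv (hl l List.mem_cons_self)).mono hK1 (by omega)
    have ih' : TD S Φ K t (N + (C.length + 1)) (imp (clause C) (gv v)) := ih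
    rw [List.length_cons]
    refine TD.rule hK1 hK (R := ⟨[imp (var 0) (var 2), imp (var 1) (var 2)],
      imp (or (var 0) (var 1)) (var 2)⟩) (by unfold bfRules; simp)
      (fun i => if i = 0 then lit l else if i = 1 then clause C else gv v) (by omega) ?_ ?_ ?_
    · intro P hP
      rw [List.mem_cons, List.mem_singleton] at hP
      rcases hP with rfl | rfl
      · refine ⟨by simpa [Form.subst] using h1, ?_⟩
        have : (imp (lit l) (gv v)).size ≤ t := by
          rw [Form.size, gv_size, lit_size]
          omega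
        simpa [Form.subst] using this
      · refine ⟨by simpa [Form.subst] using ih', ?_⟩
        have : (imp (clause C) (gv v)).size ≤ t := by
          rw [Form.size, gv_size, clause_size]
          omega
        simpa [Form.subst] using this
    · simp [Form.subst, clause_cons]
    · rw [Form.size, gv_size, clause_size, List.length_cons]
      omega

/-- The decision tree. -/
theorem dtree (hK1 : 1 ≤ K) (hK : SimT S K) (F : List (List (X × Bool))) (N : ℕ)
    (ht : 2 * N + 3 ≤ t) (hF : ∀ C ∈ F, C.length ≤ N) (hΦ : ∀ C ∈ F, clause C ∈ Φ)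
    (hun : ∀ x : X → Bool, ∃ C ∈ F, ∀ l ∈ C, x l.1 ≠ l.2) :
    ∀ (xs : List X) (v : List (X × Bool)), v.length + xs.length ≤ N →
      (∀ y, y ∉ xs → ∃ b, (y, b) ∈ v) → TD S Φ K t (2 * N + 2 + xs.length) (gv v)
  | [], v, h, hv => by
    have hv' : ∀ y, ∃ b, (y, b) ∈ v := fun y => hv y (by simp)
    choose x hx using hv'
    obtain ⟨C, hC, hCl⟩ := hun x
    have hv2 : v.length ≤ N := by simpa using h
    have h1 := clause_gv (Φ := Φ) hK1 hK N ht v hv2 C (hF C hC) (by
      intro l hl
      have h1 := hCl l hl
      have h2 : x l.1 = !l.2 := by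
        revert h1
        cases x l.1 <;> cases l.2 <;> simp
      rw [← h2]
      exact hx l.1)
    have h2 : TD S Φ K t 0 (clause C) := TD.hyp hK1 (hΦ C hC) (by
      rw [clause_size]
      have := hF C hC
      omega)
    have hCN := hF C hC
    have h1' : TD S Φ K t (2 * N + 1) (imp (clause C) (gv v)) := h1.mono hK1 (by omega)
    have h2' : TD S Φ K t (2 * N + 1) (clause C) := h2.mono hK1 (by omega)
    rw [List.length_nil, add_zero]
    refine TD.rule hK1 hK mem_mp (fun i => if i = 0 then clause C else gv v) (by omega) ?_ ?_ ?_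
    · intro P hP
      rw [List.mem_cons, List.mem_singleton] at hP
      have := hF C hC
      rcases hP with rfl | rfl
      · refine ⟨by simpa [Form.subst] using h1', ?_⟩
        have : (imp (clause C) (gv v)).size ≤ t := by
          rw [Form.size, gv_size, clause_size]
          omega
        simpa [Form.subst] using this
      · refine ⟨by simpa [Form.subst] using h2', ?_⟩
        have : (clause C).size ≤ t := by
          rw [clause_size]
          omega
        simpa [Form.subst] using this
    · simp [Form.subst]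
    · rw [gv_size]
      omega
  | y :: xs, v, h, hv => by
    rw [List.length_cons] at h
    have i1 : ∀ b : Bool, TD S Φ K t (2 * N + 2 + xs.length) (gv ((y, b) :: v)) := by
      intro b
      refine dtree hK1 hK F N ht hF hΦ hun xs ((y, b) :: v)
        (by rw [List.length_cons]; omega) ?_
      intro z hz
      by_cases hzy : z = y
      · exact ⟨b, by simp [hzy]⟩
      · obtain ⟨b', hb⟩ := hv z (by simp [hz, hzy])
        exact ⟨b', List.mem_cons_of_mem _ hb⟩
    rw [List.length_cons, ← add_assoc]
    have hz : ∀ b : Bool, (gv ((y, b) :: v)).size ≤ t := by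
      intro b
      rw [gv_size, List.length_cons]
      omega
    refine TD.rule hK1 hK (R := ⟨[or (var 0) (var 1), or (var 0) (neg (var 1))], var 0⟩)
      (by unfold bfRules; simp) (fun i => if i = 0 then gv v else var y) (by omega) ?_ ?_ ?_
    · intro P hP
      rw [List.mem_cons, List.mem_singleton] at hP
      rcases hP with rfl | rfl
      · exact ⟨by simpa [Form.subst, gv, lit] using i1 false,
          by simpa [Form.subst, gv, lit] using hz false⟩
      · exact ⟨by simpa [Form.subst, gv, lit] using i1 true,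
          by simpa [Form.subst, gv, lit] using hz true⟩
    · simp [Form.subst]
    · rw [gv_size]
      omega

/-- Every unsatisfiable CNF in `N` variables has a tree-like refutation of height `O(N)` with
`2 ^ (O(N))` lines of size `O(N)`. -/
theorem tree_upper (S : Set Rule) (hS : ImplComplete S) : ∃ C : ℕ, ∀ (X : Type) [Fintype X]
    (F : List (List (X × Bool))) (N : ℕ), 1 ≤ N → Fintype.card X ≤ N → (∀ C ∈ F, C.length ≤ N) →
    (∀ x : X → Bool, ∃ C ∈ F, ∀ l ∈ C, x l.1 ≠ l.2) →
    ∃ n h : ℕ, n ≤ 2 ^ (C * N) ∧ h ≤ C * N ∧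
      TH S {φ | ∃ C ∈ F, φ = clause C} (C * N) n h Form.ff := by
  obtain ⟨K, hK1, hK⟩ := exists_simT hS
  refine ⟨6 * (K + 1), ?_⟩
  intro X _ F N hN hX hF hun
  obtain ⟨n, hn, H⟩ := dtree (Φ := {φ | ∃ C ∈ F, φ = clause C}) (t := 5 * N) hK1 hK F N (by omega)
    hF (fun C hC => ⟨C, hC, rfl⟩) hun (univ : Finset X).toList []
    (by simp only [List.length_nil, Finset.length_toList, Finset.card_univ]; omega)
    (fun y hy => absurd (Finset.mem_toList.mpr (Finset.mem_univ y)) hy)
  have e1 : 2 * N + 2 + (univ : Finset X).toList.length ≤ 5 * N := by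
    have : (univ : Finset X).toList.length ≤ N := by simpa [Finset.length_toList] using hX
    omega
  have e2 : K * (5 * N) ≤ 6 * (K + 1) * N := by
    have : 6 * (K + 1) * N = K * (5 * N) + (K + 6) * N := by ring
    omega
  have e3 : 2 * K ≤ 2 ^ (K + 1) := by
    have : K ≤ 2 ^ K := (Nat.lt_two_pow_self).le
    rw [pow_succ]
    omega
  refine ⟨n, _, hn.trans ?_, ?_, H.mono_size e2⟩
  · calc (2 * K) ^ (2 * N + 2 + (univ : Finset X).toList.length)
        ≤ (2 * K) ^ (5 * N) := Nat.pow_le_pow_right (by omega) e1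
      _ ≤ (2 ^ (K + 1)) ^ (5 * N) := Nat.pow_le_pow_left e3 _
      _ = 2 ^ ((K + 1) * (5 * N)) := by rw [← pow_mul]
      _ ≤ 2 ^ (6 * (K + 1) * N) := by
        refine Nat.pow_le_pow_right (by norm_num) ?_
        have : 6 * (K + 1) * N = (K + 1) * (5 * N) + (K + 1) * N := by ring
        omega
  · exact (Nat.mul_le_mul_left _ e1).trans e2

end Pool.Agent.MP_9cec2c_lc.SL.Up
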