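import Pool.Agent.Lib.MP_9cec2c_lc.FS.RandS
import Pool.Agent.Lib.MP_9cec2c_lc.FS.LowC
import Pool.Agent.Lib.MP_9cec2c_lc.FS.UpE
import Pool.Agent.Lib.MP_9cec2c_lc.SL.Cpl

/-!
Campaign FS: the lower and upper bounds together.
-/

set_option autoImplicit false

open Finset

namespace Pool.Agent.MP_9cec2c_lc.SL

/-- Lower bounds for the refutations of the CNF `F` by the rules in `S`. The hypotheses are the
formulas of size at most `b` that are implied by a single clause of `F`, and a refutation ends with the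
constant false or with the negation of a conjunction of such formulas (`Refuting b F`).
(A) Every refutation has total size at least `B`.
(B) A refutation in memory with `T` steps and total space `s` has `s (1 + log T) ≥ B`.
(C) A refutation of height `h` with any number of lines of size at most `s` has `(h + 1) s ≥ B`.
(D) A tree-like refutation with `n` lines of size at most `s` has `s (1 + log n) ≥ B`. -/
def LowerBound {X : Type} (S : Set Rule) (b : ℕ) (F : List (List (X × Bool))) (B : ℝ) : Prop :=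
  (∀ (l : ℕ) (L : Fin l → Form X), IsDerivation S (Hyp b F) L → (∃ i, L i ∈ Refuting b F) →
    B ≤ (∑ i, (L i).size : ℕ)) ∧
  (∀ (s T : ℕ) (M : ℕ → List (Form X)), M 0 = [] →
    (∀ t < T, Step S (Hyp b F) (M t) (M (t + 1))) → (∀ t ≤ T, total (M t) ≤ s) →
    (∃ A ∈ M T, A ∈ Refuting b F) → B ≤ s * (1 + Real.log T)) ∧
  (∀ (s h l : ℕ) (L : Fin l → Form X), IsDerivationH S (Hyp b F) h L → (∀ i, (L i).size ≤ s) →
    (∃ i, L i ∈ Refuting b F) → B ≤ ((h : ℝ) + 1) * s) ∧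
  ∀ (s n : ℕ) (A : Form X), Tree S (Hyp b F) s n A → A ∈ Refuting b F →
    B ≤ s * (1 + Real.log n)

/-- Upper bounds for the refutations of the clauses of `F` by the rules in `S`: there are
(B) a refutation in memory with total space at most `B` and at most `2 ^ B` steps,
(C) a refutation of height at most `B` with lines of size at most `B`,
(D) a tree-like refutation with at most `2 ^ B` lines of size at most `B`. -/
def UpperBound {X : Type} (S : Set Rule) (F : List (List (X × Bool))) (B : ℕ) : Prop :=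
  (∃ (T : ℕ) (M : ℕ → List (Form X)), T ≤ 2 ^ B ∧ M 0 = [] ∧
    (∀ t < T, Step S {φ | ∃ C ∈ F, φ = clause C} (M t) (M (t + 1))) ∧
    (∀ t ≤ T, total (M t) ≤ B) ∧ Form.ff ∈ M T) ∧
  (∃ (l : ℕ) (L : Fin l → Form X), IsDerivationH S {φ | ∃ C ∈ F, φ = clause C} B L ∧
    (∀ i, (L i).size ≤ B) ∧ ∃ i, L i = Form.ff) ∧
  ∃ n ≤ 2 ^ B, Tree S {φ | ∃ C ∈ F, φ = clause C} B n Form.ff

theorem LowerBound.mono {X : Type} {S : Set Rule} {b : ℕ} {F : List (List (X × Bool))} {B B' : ℝ}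
    (h : LowerBound S b F B) (hB : B' ≤ B) : LowerBound S b F B' := by
  obtain ⟨h1, h2, h3, h4⟩ := h
  exact ⟨fun l L a c => hB.trans (h1 l L a c), fun s T M a c d e => hB.trans (h2 s T M a c d e),
    fun s h' l L a c d => hB.trans (h3 s h' l L a c d), fun s n A a c => hB.trans (h4 s n A a c)⟩

theorem lower_bound (ε : ℝ) (hε : 0 < ε) (S : Set Rule) (hS : S.Finite) (hs : ∀ R ∈ S, R.Sound) :
    ∃ D₀ : ℕ, ∀ (X : Type) (F : List (List (X × Bool))) (D : ℕ), D₀ ≤ D →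
      (∀ C ∈ F, C.length < D / 8) → HasPE F D → LowerBound S (D / 8) F ((D : ℝ) ^ (2 - ε)) := by
  obtain ⟨D₁, h₁⟩ := low_size ε hε S hS hs
  obtain ⟨D₂, h₂⟩ := low_time ε hε S hS hs
  obtain ⟨D₃, h₃⟩ := low_ht ε hε S hS hs
  obtain ⟨D₄, h₄⟩ := low_tree ε hε S hS hs
  refine ⟨D₁ + D₂ + D₃ + D₄, fun X F D hD hw' hF => ?_⟩
  have hw : ∀ C ∈ F, C.length ≤ D / 8 := fun C hC => (hw' C hC).le
  exact ⟨h₁ X F D (by omega) hw hF, h₂ X F D (by omega) hw hF, h₃ X F D (by omega) hw hF,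
    h₄ X F D (by omega) hw hF⟩

theorem upper_bound (S : Set Rule) (hS : ImplComplete S) : ∃ C : ℕ, ∀ (X : Type) [Fintype X]
    (F : List (List (X × Bool))) (N : ℕ), 1 ≤ N → Fintype.card X ≤ N → (∀ C ∈ F, C.length ≤ N) →
    (∀ x : X → Bool, ∃ C ∈ F, ∀ l ∈ C, x l.1 ≠ l.2) → UpperBound S F (C * N) := by
  obtain ⟨C₁, h₁⟩ := Up.space_upper S hS
  obtain ⟨C₂, h₂⟩ := Up.tree_upper S hS
  refine ⟨C₁ + C₂, ?_⟩
  intro X _ F N hN hX hF hun
  have e1 : C₁ * N ≤ (C₁ + C₂) * N := Nat.mul_le_mul_right _ (by omega)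
  have e2 : C₂ * N ≤ (C₁ + C₂) * N := Nat.mul_le_mul_right _ (by omega)
  obtain ⟨T, M, m0, m1, m2, m3, m4⟩ := h₁ X F N hN hX hF hun
  obtain ⟨n, h, hn, hh, H⟩ := h₂ X F N hN hX hF hun
  have H' := (H.mono hh).mono_size e2
  obtain ⟨l, L, q1, q2, q3⟩ := (H'.mono e2).derivationH
  refine ⟨⟨T, M, m4.trans (Nat.pow_le_pow_right (by norm_num) e1), m0, m1,
    fun t ht => (m2 t ht).trans e1, m3⟩, ⟨l, L, q1, q2, q3⟩, n,
    hn.trans (Nat.pow_le_pow_right (by norm_num) e2), H'.tree⟩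

theorem rand_bound (Δ : ℕ) : ∃ κ : ℝ, 0 < κ ∧
    (∃ C : ℝ, ∀ N : ℕ, 1 ≤ N →
      prob (fun c : Fin (Δ * N) → Clause3 N => ¬ HasPE (cnf3 c) ⌊κ * N⌋₊) ≤ C / N) ∧
    ∀ ε : ℝ, 0 < ε → ∀ S : Set Rule, S.Finite → (∀ R ∈ S, R.Sound) → ∃ C : ℝ,
      ∀ N : ℕ, 1 ≤ N → prob (fun c : Fin (Δ * N) → Clause3 N =>
        ¬ LowerBound S (⌊κ * N⌋₊ / 8) (cnf3 c) ((N : ℝ) ^ (2 - ε))) ≤ C / N := by
  obtain ⟨κ, C₁, hκ, hC₁, h1⟩ := rc_pe' Δ
  refine ⟨κ, hκ, ⟨C₁, h1⟩, fun ε hε S hS hs => ?_⟩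
  obtain ⟨D₀, hD₀⟩ := lower_bound (ε / 2) (half_pos hε) S hS hs
  obtain ⟨N₀, hN₀1, hN₀⟩ := rand_num ε κ hε hκ (D₀ + 32)
  refine ⟨C₁ + N₀, fun N hN => ?_⟩
  have hN0 : (0 : ℝ) < N := by exact_mod_cast hN
  rcases le_or_gt N₀ N with hNN | hNN
  · refine (prob_mono ?_).trans ((h1 N hN).trans ?_)
    · intro c hc hPE
      obtain ⟨ha, hb⟩ := hN₀ N hNN
      have h2 := hD₀ (Fin N) (cnf3 c) ⌊κ * N⌋₊ (by omega)
        (fun C hC => lt_of_le_of_lt (cnf3_width c C hC) (by omega)) hPE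
      exact hc (h2.mono hb)
    · refine div_le_div_of_nonneg_right ?_ hN0.le
      have : (0 : ℝ) ≤ N₀ := Nat.cast_nonneg _
      linarith
  · refine (prob_le_one _).trans ?_
    rw [one_le_div hN0]
    have : (N : ℝ) ≤ N₀ := by exact_mod_cast hNN.le
    linarith

end Pool.Agent.MP_9cec2c_lc.SL
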