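import Pool.Agent.Lib.MP_9cec2c_lc.FS.Rules
import Pool.Agent.Lib.MP_9cec2c_lc.FS.Conj

/-!
TASK Time: refutations in small space need many steps.

`step_N`. Let `C₁` be the constant of `rules_N`, `g = Q v M ∈ F c` (`Q_mem`), `N g ≤ 2` (`contr` with `f = 1`).
Claim: `N ((1 - Q v M') g) ≤ 4 s (θ + ε) N g` with `θ = η + √(7 C₁ s ε) + 6 s ε`. Use `op_of_cond` with
`z = 1 - Q v M' ∈ F c` and `conj_all` in the world `W.cond g` (good with `L - c`, `cond_good`): for `B ∈ M'`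
* `B ∈ M`: `N_g (1 - v B) = N ((1 - v B) g) / N g ≤ 6 s ε`: `conj_proj` gives only `N ((1-v B) Q v M · 1) ≤ 6 s ε`,
  not relative to `N g`. Therefore treat the case `N g < 1/2` separately: then
  `N (1 - Q v M) ≥ 1 - N g ≥ 1/2`, and `N (1 - Q v M') ≤ 1 + N (Q v M') ≤ 3`... to avoid this, state and prove
  the claim as follows: `N ((1 - v B) g) ≤ 6 s ε` absolutely, `N g ≥ 1/2` (assume `N (1 - Q v M) ≤ 1/2`), so
  `N_g (1 - v B) ≤ 12 s ε`.
* `B ∈ Φ`: `≤ η`. * rule: all premises are in `M`, so `N_g (1 - v P) ≤ 12 s ε` and `rules_N` gives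
  `N_g (1 - v B)² ≤ C₁ (12 s ε + s ε)`.
So every `B ∈ M'` has `N_g (1 - v B) ≤ θ = η + C₂ √(s ε)` (`12 s ε ≤ 12 √(s ε)` because `s ε ≤ 1`).
Hence `N ((1 - Q v M') g) ≤ 4 s (θ + ε) · 2`, and
`N (1 - Q v M') ≤ N ((1 - Q v M')(1 - g)) + N ((1 - Q v M') g) ≤ (1 + 4ε) N (1 - g) + C s (η + √(s ε))`.
Sizes of the premises: a member of `M` has size `≤ total M ≤ s`.
`time`: by induction `N (1 - Q v (M t)) ≤ t (1+4ε)^t κ`, `κ = C s (η + √(s ε))`, as long as this is `≤ 1/2`.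
`4 T ε ≤ 1` follows from the hypothesis (`T √ε ≤ 1`, `√ε ≤ 1/4`... take the constant of the theorem large,
e.g. `C ≥ 16`), so `(1+4ε)^t ≤ 3` and `N (1 - Q v (M T)) ≤ 3 T κ ≤ 1/4`. If `A ∈ M T`, `A ∈ Ψ`, `g = Q v (M T)`:
`N g ≤ N ((1 - v A) g) + N (v A g) ≤ 6 s ε + η' N g ≤ 6 s ε + 2 η'` and `1 ≤ N (1 - g) + N g < 1`.
-/

set_option autoImplicit false

open Finset

namespace Pool.Agent.MP_9cec2c_lc.SL

theorem Time_size_le {X : Type} {A : Form X} {M : List (Form X)} (h : A ∈ M) :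
    A.size ≤ total M := by
  induction M with
  | nil => simp at h
  | cons B M ih =>
    have h1 : total (B :: M) = B.size + total M := by simp [total]
    rcases List.mem_cons.1 h with h2 | h2
    · rw [h1, h2]
      omega
    · have := ih h2
      omega

theorem Time_conjsize {X : Type} {M : List (Form X)} {s : ℕ} (h : total M + 1 ≤ s) :
    (nnf (conjF M)).size ≤ s := by
  rw [nnf_size, size_conjF]
  exact h

theorem step_N (S : Set Rule) (hS : S.Finite) (hs : ∀ r ∈ S, r.Sound) : ∃ C : ℕ, 1 ≤ C ∧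
    ∀ (R : Type) [CommRing R] [Algebra ℝ R] (W : World R) (X : Type) (v : Fm (X × Bool) → R)
    (s c L : ℕ) (ε η : ℝ), W.Good v s c ε L → C * c ≤ L → 0 ≤ η → ∀ Φ : Set (Form X),
    (∀ A ∈ Φ, A.size ≤ s → ∀ g ∈ W.F c, W.N ((1 - v (nnf A)) * g) ≤ η * W.N g) →
    ∀ M M' : List (Form X), Step S Φ M M' → total M + 1 ≤ s → total M' + 1 ≤ s →
      W.N (1 - World.Q v M) ≤ 1 / 2 →
      W.N (1 - World.Q v M') ≤
        (1 + 4 * ε) * W.N (1 - World.Q v M) + C * s * (η + Real.sqrt (s * ε)) := by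
  obtain ⟨C₁, hC₁, hR⟩ := rules_N S hS hs
  refine ⟨112 * C₁, by omega, ?_⟩
  intro R _ _ W X v s c L ε η hG hL hη Φ hΦ M M' hstep hM hM' hhalf
  have hL1 : C₁ * c ≤ L - c := by
    have h1 : (C₁ + 1) * c ≤ 112 * C₁ * c := Nat.mul_le_mul_right c (by omega)
    have h2 : (C₁ + 1) * c = C₁ * c + c := by ring
    omega
  have hL3 : 3 * c ≤ L := le_trans (Nat.mul_le_mul_right c (by omega)) hL
  have hD := hG.height
  have hε := hG.pos
  have hs1 : (1 : ℝ) ≤ s := by exact_mod_cast hG.one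
  have hsm := hG.small
  have hse0 : 0 ≤ (s : ℝ) * ε := by positivity
  have hse1 : (s : ℝ) * ε ≤ 1 := by linarith
  set q : ℝ := Real.sqrt (s * ε) with hq
  have hq0 : 0 ≤ q := Real.sqrt_nonneg _
  have hqsq : q ^ 2 = s * ε := Real.sq_sqrt hse0
  have hq1 : q ≤ 1 := by
    by_contra hcon
    push Not at hcon
    nlinarith
  have hseq : (s : ℝ) * ε ≤ q := by
    rw [← hqsq]
    nlinarith
  have hεq : ε ≤ q := le_trans (by nlinarith) hseq
  have hC₁r : (2 : ℝ) ≤ C₁ := by exact_mod_cast hC₁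
  -- the value of the conjunction of `M`
  set g : R := World.Q v M with hg
  have hgc : g ∈ W.F c := World.Q_mem W hG M hM
  have hQ'c : World.Q v M' ∈ W.F c := World.Q_mem W hG M' hM'
  have hcD : c ≤ W.D := by omega
  have h1D : ∀ a : ℕ, (1 : R) ∈ W.F a := W.one_mem'
  have hgD : g ∈ W.F W.D := W.F_mono c W.D hcD hgc
  have hone : (1 : ℝ) ≤ W.N (1 - g) + W.N g := by
    have h1 := W.N_add (f := 1 - g) (g := g) (Submodule.sub_mem _ (h1D _) hgD) hgD
    rw [sub_add_cancel, W.N_one] at h1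
    exact h1
  have hNg : 1 / 2 ≤ W.N g := by linarith
  have hNg0 : 0 < W.N g := by linarith
  have h0 : W.N g ≠ 0 := hNg0.ne'
  have hNg2 : W.N g ≤ 2 := by
    have h1 := World.contr W hG (L' := 0) (nnf (conjF M)) (Time_conjsize hM) (by omega)
      (f := 1) (h1D 0)
    rw [mul_one, W.N_one, mul_one] at h1
    exact h1.1.trans h1.2.2
  have hGc := World.cond_good W hG hgc hcD h0 (show c ≤ L by omega)
  set θ : ℝ := η + 13 * C₁ * q with hθ
  have hθ0 : 0 ≤ θ := by positivity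
  have hB : ∀ B ∈ M', (W.cond g c hgc hcD h0).N (1 - v (nnf B)) ≤ θ := by
    have hmem : ∀ B ∈ M, (W.cond g c hgc hcD h0).N (1 - v (nnf B)) ≤ 12 * (s * ε) := by
      intro B hB
      have h1 := World.conj_proj W hG M hM hB (L' := 0) (by omega) (f := 1) (h1D 0)
      rw [mul_one, W.N_one, mul_one] at h1
      rw [World.cond_N W hgc hcD h0, div_le_iff₀ hNg0]
      refine h1.trans ?_
      nlinarith
    intro B hBM'
    have hBs : B.size ≤ s := by
      have := Time_size_le hBM'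
      omega
    rcases hstep B hBM' with h1 | h1 | ⟨r, hr, σ, hσ, hP⟩
    · refine (hmem B h1).trans ?_
      rw [hθ]
      nlinarith
    · rw [World.cond_N W hgc hcD h0, div_le_iff₀ hNg0]
      refine (hΦ B h1 hBs g hgc).trans ?_
      refine mul_le_mul_of_nonneg_right ?_ hNg0.le
      rw [hθ]
      have : 0 ≤ 13 * (C₁ : ℝ) * q := by positivity
      linarith
    · have h2 := hR r hr R (W.cond g c hgc hcD h0) X v s c (L - c) ε (12 * (s * ε)) hGc hL1
        (by positivity) σ (fun P hPr => ⟨by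
          have := Time_size_le (hP P hPr)
          omega, hmem _ (hP P hPr)⟩) (by rw [hσ]; exact hBs)
      rw [hσ] at h2
      have h3 : (W.cond g c hgc hcD h0).N (1 - v (nnf B)) ^ 2 ≤ (13 * C₁ * q) ^ 2 := by
        refine h2.trans ?_
        have h4 : (13 * (C₁ : ℝ) * q) ^ 2 = 169 * (C₁ : ℝ) ^ 2 * (s * ε) := by
          rw [← hqsq]
          ring
        rw [h4]
        have h5 : (C₁ : ℝ) * (12 * (s * ε) + s * ε) = 13 * C₁ * (s * ε) := by ring
        rw [h5]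
        refine mul_le_mul_of_nonneg_right ?_ hse0
        nlinarith
      have h4 := abs_le_of_sq_le_sq' h3 (by positivity)
      rw [hθ]
      linarith [h4.2]
  have hall := World.conj_all (W.cond g c hgc hcD h0) hGc (by omega) M' hM' hθ0 hB
  rw [World.cond_N W hgc hcD h0, div_le_iff₀ hNg0] at hall
  have hsplit : W.N (1 - World.Q v M') ≤
      W.N ((1 - World.Q v M') * (1 - g)) + W.N ((1 - World.Q v M') * g) := by
    have h1 : (1 - World.Q v M' : R) ∈ W.F c := Submodule.sub_mem _ (h1D c) hQ'c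
    have h2 : (1 - World.Q v M') * (1 - g) ∈ W.F W.D :=
      W.F_mono (c + c) W.D (by omega)
        (W.mul_mem c c _ _ h1 (Submodule.sub_mem _ (h1D c) hgc))
    have h3 : (1 - World.Q v M') * g ∈ W.F W.D :=
      W.F_mono (c + c) W.D (by omega) (W.mul_mem c c _ _ h1 hgc)
    have h4 := W.N_add h2 h3
    have h5 : (1 - World.Q v M') * (1 - g) + (1 - World.Q v M') * g = 1 - World.Q v M' := by ring
    rw [h5] at h4
    exact h4
  have hfirst : W.N ((1 - World.Q v M') * (1 - g)) ≤ (1 + 4 * ε) * W.N (1 - g) := by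
    have h1 := World.contr W hG (L' := c) (nnf (conjF M')) (Time_conjsize hM') (by omega)
      (f := 1 - g) (Submodule.sub_mem _ (h1D c) hgc)
    exact h1.2.1
  refine hsplit.trans (add_le_add hfirst (hall.trans ?_))
  push_cast
  have h6 : 4 * (s : ℝ) * (θ + ε) * W.N g ≤ 4 * (s : ℝ) * (θ + ε) * 2 :=
    mul_le_mul_of_nonneg_left hNg2 (by positivity)
  refine h6.trans ?_
  have h7 : θ + ε ≤ 14 * C₁ * (η + q) := by
    rw [hθ]
    nlinarith
  have h8 : 4 * (s : ℝ) * (θ + ε) * 2 = 8 * s * (θ + ε) := by ring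
  rw [h8]
  calc 8 * (s : ℝ) * (θ + ε) ≤ 8 * s * (14 * C₁ * (η + q)) :=
        mul_le_mul_of_nonneg_left h7 (by positivity)
    _ = 112 * (C₁ : ℝ) * s * (η + q) := by ring

theorem time (S : Set Rule) (hS : S.Finite) (hs : ∀ r ∈ S, r.Sound) : ∃ C : ℕ, 1 ≤ C ∧
    ∀ (R : Type) [CommRing R] [Algebra ℝ R] (W : World R) (X : Type) (v : Fm (X × Bool) → R)
    (s c L : ℕ) (ε η η' : ℝ), W.Good v s c ε L → C * c ≤ L → 0 ≤ η → ∀ Φ Ψ : Set (Form X),
    (∀ A ∈ Φ, A.size ≤ s → ∀ g ∈ W.F c, W.N ((1 - v (nnf A)) * g) ≤ η * W.N g) →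
    (∀ A ∈ Ψ, A.size ≤ s → ∀ g ∈ W.F c, W.N (v (nnf A) * g) ≤ η' * W.N g) →
    ∀ (T : ℕ) (M : ℕ → List (Form X)), M 0 = [] → (∀ t < T, Step S Φ (M t) (M (t + 1))) →
      (∀ t ≤ T, total (M t) + 1 ≤ s) →
      C * (T + 1) * s * (η + Real.sqrt (s * ε)) + 2 * η' < 1 / 2 → ∀ A ∈ M T, A ∉ Ψ := by
  obtain ⟨C₀, hC₀, hstep⟩ := step_N S hS hs
  refine ⟨3 * C₀ + 6, by omega, ?_⟩
  intro R _ _ W X v s c L ε η η' hG hL hη Φ Ψ hΦ hΨ T M hM0 hSt hsz hfin A hA hAΨ
  have hLC : C₀ * c ≤ L := le_trans (Nat.mul_le_mul_right c (by omega)) hL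
  have hL3 : 3 * c ≤ L := le_trans (Nat.mul_le_mul_right c (by omega)) hL
  have hD := hG.height
  have hε := hG.pos
  have hs1 : (1 : ℝ) ≤ s := by exact_mod_cast hG.one
  have hsm := hG.small
  have hse0 : 0 ≤ (s : ℝ) * ε := by positivity
  have hse1 : (s : ℝ) * ε ≤ 1 := by linarith
  set q : ℝ := Real.sqrt (s * ε) with hq
  have hq0 : 0 ≤ q := Real.sqrt_nonneg _
  have hqsq : q ^ 2 = s * ε := Real.sq_sqrt hse0
  have hq1 : q ≤ 1 := by
    by_contra hcon
    push Not at hcon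
    nlinarith
  have hseq : (s : ℝ) * ε ≤ q := by
    rw [← hqsq]
    nlinarith
  have hεq : ε ≤ q := le_trans (by nlinarith) hseq
  have hC₀r : (1 : ℝ) ≤ C₀ := by exact_mod_cast hC₀
  have h1D : ∀ a : ℕ, (1 : R) ∈ W.F a := W.one_mem'
  have hAs : A.size ≤ s := by
    have h1 := Time_size_le hA
    have h2 := hsz T le_rfl
    omega
  have hη' : 0 ≤ η' := by
    have h1 := hΨ A hAΨ hAs 1 (h1D c)
    rw [W.N_one, mul_one, mul_one] at h1
    exact (W.N_nonneg _).trans h1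
  push_cast at hfin
  set κ : ℝ := C₀ * s * (η + q) with hκ
  have hκ0 : 0 ≤ κ := by positivity
  have hTr : (0 : ℝ) ≤ T := Nat.cast_nonneg T
  have hsη : 0 ≤ (s : ℝ) * (η + q) := by positivity
  -- the total error
  have hmain : 3 * T * κ + 6 * (s * ε) + 2 * η' < 1 / 2 := by
    have h1 : (3 * (C₀ : ℝ) + 6) * (T + 1) * s * (η + q) =
        3 * T * κ + 3 * κ + 6 * T * (s * (η + q)) + 6 * (s * (η + q)) := by
      rw [hκ]
      ring
    have h2 : (s : ℝ) * ε ≤ s * (η + q) := by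
      refine mul_le_mul_of_nonneg_left ?_ (by positivity)
      linarith
    have h3 : 0 ≤ 6 * (T : ℝ) * (s * (η + q)) := by positivity
    linarith
  have hTε : 4 * (T : ℝ) * ε ≤ 1 := by
    have h1 : (3 * (C₀ : ℝ) + 6) * (T + 1) * s * (η + q) =
        3 * T * κ + 3 * κ + 6 * T * (s * (η + q)) + 6 * (s * (η + q)) := by
      rw [hκ]
      ring
    have h2 : (T : ℝ) * ε ≤ T * (s * (η + q)) := by
      refine mul_le_mul_of_nonneg_left ?_ hTr
      nlinarith
    have h3 : 0 ≤ 3 * (T : ℝ) * κ := by positivity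
    linarith
  have hpow : ∀ t ≤ T, (1 + 4 * ε) ^ t ≤ 3 := by
    intro t ht
    have h1 : (1 + 4 * ε) ^ t ≤ Real.exp (4 * ε) ^ t := by
      refine pow_le_pow_left₀ (by positivity) ?_ t
      linarith [Real.add_one_le_exp (4 * ε)]
    have h2 : Real.exp (4 * ε) ^ t = Real.exp (t * (4 * ε)) := (Real.exp_nat_mul _ _).symm
    have h3 : (t : ℝ) ≤ T := by exact_mod_cast ht
    have h4 : (t : ℝ) * (4 * ε) ≤ 1 := by nlinarith
    calc (1 + 4 * ε) ^ t ≤ Real.exp (t * (4 * ε)) := by rw [← h2]; exact h1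
      _ ≤ Real.exp 1 := Real.exp_le_exp.2 h4
      _ ≤ 3 := by linarith [Real.exp_one_lt_d9]
  have hbound : ∀ t ≤ T, W.N (1 - World.Q v (M t)) ≤ t * (1 + 4 * ε) ^ t * κ := by
    intro t
    induction t with
    | zero =>
      intro _
      rw [hM0, World.Q_nil W hG, sub_self, W.N_zero]
      simp
    | succ t ih =>
      intro ht
      have h1 := ih (by omega)
      have h2 : (t : ℝ) * (1 + 4 * ε) ^ t * κ ≤ 3 * T * κ := by
        refine mul_le_mul_of_nonneg_right ?_ hκ0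
        have h3 : (t : ℝ) ≤ T := by exact_mod_cast (by omega : t ≤ T)
        have h4 := hpow t (by omega)
        calc (t : ℝ) * (1 + 4 * ε) ^ t ≤ T * 3 :=
              mul_le_mul h3 h4 (by positivity) hTr
          _ = 3 * T := by ring
      have h5 : W.N (1 - World.Q v (M t)) ≤ 1 / 2 := by linarith
      have h6 := hstep R W X v s c L ε η hG hLC hη Φ hΦ (M t) (M (t + 1)) (hSt t (by omega))
        (hsz t (by omega)) (hsz (t + 1) ht) h5
      rw [← hq, ← hκ] at h6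
      refine h6.trans ?_
      have h7 : (1 + 4 * ε) * W.N (1 - World.Q v (M t)) ≤
          (1 + 4 * ε) * (t * (1 + 4 * ε) ^ t * κ) :=
        mul_le_mul_of_nonneg_left h1 (by positivity)
      have h8 : κ ≤ (1 + 4 * ε) ^ (t + 1) * κ := by
        have h9 : (1 : ℝ) ≤ (1 + 4 * ε) ^ (t + 1) := one_le_pow₀ (by linarith)
        nlinarith
      push_cast
      calc (1 + 4 * ε) * W.N (1 - World.Q v (M t)) + κ
          ≤ (1 + 4 * ε) * (t * (1 + 4 * ε) ^ t * κ) + (1 + 4 * ε) ^ (t + 1) * κ :=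
            add_le_add h7 h8
        _ = ((t : ℝ) + 1) * (1 + 4 * ε) ^ (t + 1) * κ := by ring
  -- the contradiction
  set g : R := World.Q v (M T) with hg
  have hgc : g ∈ W.F c := World.Q_mem W hG (M T) (hsz T le_rfl)
  have hgD : g ∈ W.F W.D := W.F_mono c W.D (by omega) hgc
  have h1 : W.N (1 - g) ≤ 3 * T * κ := by
    refine (hbound T le_rfl).trans ?_
    refine mul_le_mul_of_nonneg_right ?_ hκ0
    have h4 := hpow T le_rfl
    calc (T : ℝ) * (1 + 4 * ε) ^ T ≤ T * 3 := mul_le_mul_of_nonneg_left h4 hTr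
      _ = 3 * T := by ring
  have h2 : (1 : ℝ) ≤ W.N (1 - g) + W.N g := by
    have h3 := W.N_add (f := 1 - g) (g := g) (Submodule.sub_mem _ (h1D _) hgD) hgD
    rw [sub_add_cancel, W.N_one] at h3
    exact h3
  have hNg2 : W.N g ≤ 2 := by
    have h3 := World.contr W hG (L' := 0) (nnf (conjF (M T))) (Time_conjsize (hsz T le_rfl))
      (by omega) (f := 1) (h1D 0)
    rw [mul_one, W.N_one, mul_one] at h3
    exact h3.1.trans h3.2.2
  have hvA : v (nnf A) ∈ W.F c := (hG.val.bit (nnf A) (by rw [nnf_size]; exact hAs)).mem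
  have h3 : W.N g ≤ W.N ((1 - v (nnf A)) * g) + W.N (v (nnf A) * g) := by
    have h4 : (1 - v (nnf A)) * g ∈ W.F W.D :=
      W.F_mono (c + c) W.D (by omega)
        (W.mul_mem c c _ _ (Submodule.sub_mem _ (h1D c) hvA) hgc)
    have h5 : v (nnf A) * g ∈ W.F W.D :=
      W.F_mono (c + c) W.D (by omega) (W.mul_mem c c _ _ hvA hgc)
    have h6 := W.N_add h4 h5
    have h7 : (1 - v (nnf A)) * g + v (nnf A) * g = g := by ring
    rw [h7] at h6
    exact h6
  have h4 : W.N ((1 - v (nnf A)) * g) ≤ 6 * (s * ε) := by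
    have h5 := World.conj_proj W hG (M T) (hsz T le_rfl) hA (L' := 0) (by omega) (f := 1) (h1D 0)
    rw [mul_one, W.N_one, mul_one] at h5
    linarith
  have h5 : W.N (v (nnf A) * g) ≤ 2 * η' := by
    refine (hΨ A hAΨ hAs g hgc).trans ?_
    nlinarith
  linarith

end Pool.Agent.MP_9cec2c_lc.SL
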