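import Pool.Agent.Lib.MP_9cec2c_lc.FS.Rules

/-!
TASK TreeE: tree-like derivations. Induction on `Tree`: `E (1 - v A) ≤ n κ`, `κ = η + C s ε` (constant `C` of
`rules_E`). `hyp`: `E_le_N` and `hΦ`. `rule`: `rules_E`, `Σ_P E (1 - v P) ≤ Σ_i n_i κ` (the sum over the
list of premises is the sum over `Fin R.prems.length`, `List.sum_ofFn` / `List.ofFn_get`), plus `C s ε ≤ κ`. The
sizes of all formulas in the tree are `≤ s` (first an induction: `Tree S Φ s n A → A.size ≤ s`).
`tree_low`: for `A ∈ Ψ`: `E (1 - v A) = 1 - E (v A) ≥ 1 - N (v A) ≥ 1 - η'`.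
-/

set_option autoImplicit false

open Finset

namespace Pool.Agent.MP_9cec2c_lc.SL

theorem tree_low (S : Set Rule) (hS : S.Finite) (hs : ∀ r ∈ S, r.Sound) : ∃ C : ℕ, 1 ≤ C ∧
    ∀ (R : Type) [CommRing R] [Algebra ℝ R] (W : World R) (X : Type) (v : Fm (X × Bool) → R)
    (s c L : ℕ) (ε η η' : ℝ), W.Good v s c ε L → C * c ≤ L → 0 ≤ η →
    ∀ Φ Ψ : Set (Form X),
    (∀ A ∈ Φ, A.size ≤ s → W.N (1 - v (nnf A)) ≤ η) →
    (∀ A ∈ Ψ, A.size ≤ s → W.N (v (nnf A)) ≤ η') →
    ∀ (n : ℕ) (A : Form X), Tree S Φ s n A → A ∈ Ψ → 1 ≤ n * (η + C * s * ε) + η' := by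
  obtain ⟨C, hC1, hC⟩ := rules_E S hS hs
  refine ⟨C, hC1, ?_⟩
  intro R _ _ W X v s c L ε η η' h hcL hη Φ Ψ hΦ hΨ n A hT hAΨ
  have hmem : ∀ B : Form X, B.size ≤ s → v (nnf B) ∈ W.F W.D := by
    intro B hB
    have h1 := h.height
    exact W.F_mono c W.D (by omega) (h.val.bit (nnf B) (by rw [nnf_size]; exact hB)).mem
  have h1mem : (1 : R) ∈ W.F W.D := W.one_mem' _
  have hCs : 0 ≤ (C : ℝ) * s * ε := mul_nonneg (by positivity) h.pos
  have key : ∀ (n : ℕ) (A : Form X), Tree S Φ s n A →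
      A.size ≤ s ∧ W.E (1 - v (nnf A)) ≤ n * (η + C * s * ε) := by
    intro n A hT
    induction hT with
    | hyp A hA hs =>
      refine ⟨hs, ?_⟩
      have h2 := W.E_le_N (Submodule.sub_mem _ h1mem (hmem A hs))
      have h3 := hΦ A hA hs
      have h4 := le_abs_self (W.E (1 - v (nnf A)))
      push_cast
      linarith
    | rule r hr σ n hn hs ih =>
      refine ⟨hs, ?_⟩
      have h2 := (hC r hr).2 R W X v s c L ε h hcL σ (fun P hP => by
        obtain ⟨i, hi⟩ := List.get_of_mem hP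
        rw [← hi]
        exact (ih i).1) hs
      have h3 : (r.prems.map (fun P => W.E (1 - v (nnf (P.subst σ))))).sum =
          ∑ i : Fin r.prems.length, W.E (1 - v (nnf ((r.prems.get i).subst σ))) := by
        conv_lhs => rw [← List.ofFn_get r.prems]
        rw [List.map_ofFn, List.sum_ofFn]
        rfl
      have h4 : ∑ i : Fin r.prems.length, W.E (1 - v (nnf ((r.prems.get i).subst σ))) ≤
          ∑ i : Fin r.prems.length, (n i : ℝ) * (η + C * s * ε) :=
        Finset.sum_le_sum fun i _ => (ih i).2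
      rw [← Finset.sum_mul] at h4
      rw [h3] at h2
      push_cast
      rw [add_mul, one_mul]
      linarith
  obtain ⟨hsz, hE⟩ := key n A hT
  have h2 := W.E_le_N (hmem A hsz)
  have h3 := hΨ A hAΨ hsz
  have h4 := le_abs_self (W.E (v (nnf A)))
  rw [map_sub, W.E_one] at hE
  linarith

end Pool.Agent.MP_9cec2c_lc.SL
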