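import Pool.Agent.Lib.MP_9cec2c_lc.RC.Lin
import Pool.Agent.Lib.MP_9cec2c_lc.SL.CobA

/-!
TASK Tse: the Tseitin formulas of expanders have pseudo-expectations of linear degree.

`lin_pe` with `A v = G.cob (pt v)`, `a = 4 K D` (`16 K D ≤ |V|`, so `2 (2a) ≤ |V|`), `γ`.
* `∑_v T v * G.cob (pt v) e = G.cob T e` (`cob` is additive; or directly: both sides are
  `T (src e) + T (dst e)`). Expansion: for `U = {v : T v ≠ 0}`: `wt T = |U|`, and `G.cob T e ≠ 0` iff exactly one
  end of `e` is in `U` (values in `Z/2`), so `wt (G.cob T)` is the number of edges leaving `U`.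
* clauses: `C ∈ G.tseitin γ`: there are `v` and `Y ⊆ G.inc v` with `|Y| ≠ γ v`, `C` the list of the
  `(e, decide (e ∉ Y))`, `e ∈ G.inc v` (`List.mem_flatMap`, `List.mem_map`, ...). Length `|inc v| ≤ Δ ≤ D`
  (`card_inc`), `wt (cob (pt v)) ≤ Δ` (`wt_cob_pt`). If `x` violates `C`, then for `e ∈ inc v`:
  `x e = true ↔ e ∈ Y`; `cob (pt v) e = 1` iff `e ∈ inc v` (`cob_pt`), so the sum is `|Y|` in `Z/2`.
-/

set_option autoImplicit false

open Finset
open scoped Classical

namespace Pool.Agent.MP_9cec2c_lc.SL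

private theorem tse_sum {V E : Type} [Fintype V] (G : MG V E) (T : Cube V) (e : E) :
    ∑ v, T v * G.cob (pt v) e = T (G.src e) + T (G.dst e) := by
  unfold MG.cob pt
  simp only [mul_add, sum_add_distrib, mul_ite, mul_one, mul_zero]
  rw [sum_ite_eq univ (G.src e), sum_ite_eq univ (G.dst e)]
  simp only [mem_univ, if_true]

private theorem tse_zmod : ∀ a b : ZMod 2, ¬ (a ≠ 0 ↔ b ≠ 0) → a + b ≠ 0 := by decide

private theorem tse_one : ∀ a : ZMod 2, a ≠ 0 → a = 1 := by decide

theorem tse_pe {V E : Type} [Fintype V] [Fintype E] (G : MG V E) {K D Δ : ℕ} (hK : 1 ≤ K)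
    (hD1 : 1 ≤ D) (hΔ : G.DegLE Δ) (hΔD : Δ ≤ D) (hG : G.Expander K)
    (hD : 16 * K * D ≤ Fintype.card V) (γ : V → ZMod 2) : HasPE (G.tseitin γ) D := by
  refine lin_pe (fun v => G.cob (pt v)) γ K (4 * K * D) D ?_ le_rfl ?_ (G.tseitin γ) ?_
  · intro T hT
    have h1 := hG (univ.filter fun v => T v ≠ 0) (by
      have : (univ.filter fun v => T v ≠ 0).card = wt T := rfl
      rw [this]
      nlinarith)
    refine h1.trans (Nat.mul_le_mul_left K ?_)
    unfold wt
    refine card_le_card ?_
    intro e he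
    simp only [mem_filter, mem_univ, true_and] at he ⊢
    rw [tse_sum]
    exact tse_zmod _ _ he
  · exact Nat.mul_pos (Nat.mul_pos (by norm_num) hK) hD1
  · intro C hC
    unfold MG.tseitin at hC
    rw [List.mem_flatMap] at hC
    obtain ⟨v, -, hC⟩ := hC
    unfold MG.vclauses at hC
    rw [List.mem_map] at hC
    obtain ⟨Y, hY, rfl⟩ := hC
    rw [Finset.mem_toList, mem_filter, mem_powerset] at hY
    obtain ⟨hY1, hY2⟩ := hY
    refine ⟨?_, v, (G.wt_cob_pt hΔ v).trans hΔD, ?_⟩
    · rw [List.length_map, Finset.length_toList]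
      exact (G.card_inc hΔ v).trans hΔD
    · intro x hx hs
      apply hY2
      rw [← hs]
      have h2 : ∀ e, G.cob (pt v) e * (if x e = true then (1 : ZMod 2) else 0) =
          if e ∈ Y then 1 else 0 := by
        intro e
        by_cases he : e ∈ G.inc v
        · have h3 : G.cob (pt v) e = 1 := tse_one _ ((G.cob_pt v e).2 he)
          rw [h3, one_mul]
          have h4 := hx (e, decide (e ∉ Y)) (List.mem_map.2 ⟨e, Finset.mem_toList.2 he, rfl⟩)
          simp only at h4
          by_cases h5 : e ∈ Y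
          · have : decide (e ∉ Y) = false := by simp [h5]
            rw [this] at h4
            simp [h5, h4]
          · have : decide (e ∉ Y) = true := by simp [h5]
            rw [this] at h4
            simp [h5, h4]
        · have h3 : G.cob (pt v) e = 0 := by
            by_contra h
            exact he ((G.cob_pt v e).1 h)
          have h5 : e ∉ Y := fun h => he (hY1 h)
          rw [h3, zero_mul, if_neg h5]
      rw [sum_congr rfl (fun e _ => h2 e), sum_boole]
      congr 1
      congr 1
      ext e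
      simp

end Pool.Agent.MP_9cec2c_lc.SL
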