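import Pool.Agent.Lib.MP_9cec2c_lc.FS.Defs
import Pool.Agent.Lib.MP_9cec2c_lc.SL.UbG

/-!
Campaign FS, upper bounds, part A: proofs in memory.
-/

set_option autoImplicit false

open Finset

namespace Pool.Agent.MP_9cec2c_lc.SL.Up

open Form

variable {X : Type}

/-- The rules used by the exhaustive search. -/
def bfRules : Set Rule :=
  {⟨[imp (var 0) (var 1), var 0], var 1⟩,
   ⟨[imp (var 0) (var 1)], imp (or (var 2) (var 0)) (or (var 2) (var 1))⟩,
   ⟨[imp (var 0) (var 1)], imp (and (var 2) (var 0)) (and (var 2) (var 1))⟩,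
   ⟨[], imp tt (or (var 0) tt)⟩,
   ⟨[], imp (or (var 0) ff) (and (var 0) tt)⟩,
   ⟨[], imp (and (var 0) ff) ff⟩,
   ⟨[], tt⟩,
   ⟨[imp (and (var 0) (neg (var 2))) (imp (var 1) (imp (var 3) (var 4)))],
     imp (var 0) (imp (var 1) (imp (or (var 2) (var 3)) (or (var 2) (var 4))))⟩,
   ⟨[imp (and (var 0) (var 2)) (imp (var 1) (imp (var 3) (var 4)))],
     imp (var 0) (imp (var 1) (imp (and (var 2) (var 3)) (and (var 2) (var 4))))⟩,
   ⟨[imp tt (imp (var 0) (var 1)), var 0], var 1⟩,
   ⟨[], imp (and (var 0) (var 1)) (var 1)⟩,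
   ⟨[imp (var 0) (var 1)], imp (and (var 0) (var 2)) (var 1)⟩,
   ⟨[], imp (var 0) (imp ff (imp tt ff))⟩,
   ⟨[imp (var 0) (imp (var 1) (imp tt ff)), imp (var 0) (neg (var 2))],
     imp (var 0) (imp (or (var 2) (var 1)) (imp tt ff))⟩,
   ⟨[imp (var 0) (imp (var 1) (imp tt ff)), imp (var 0) (var 2)],
     imp (var 0) (imp (or (neg (var 2)) (var 1)) (imp tt ff))⟩,
   ⟨[or (var 0) (var 1), or (var 0) (neg (var 1))], var 0⟩,
   ⟨[], imp (var 0) (or (var 1) (var 0))⟩,
   ⟨[imp (var 0) (var 1)], imp (var 0) (or (var 1) (var 2))⟩,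
   ⟨[imp (var 0) (var 2), imp (var 1) (var 2)], imp (or (var 0) (var 1)) (var 2)⟩,
   ⟨[], imp ff (var 0)⟩}

theorem bfRules_finite : bfRules.Finite := by
  unfold bfRules
  exact Set.toFinite _

theorem bfRules_sound : ∀ R ∈ bfRules, R.Sound := by
  intro R hR
  unfold bfRules at hR
  simp only [Set.mem_insert_iff, Set.mem_singleton_iff] at hR
  rcases hR with rfl | rfl | rfl | rfl | rfl | rfl | rfl | rfl | rfl | rfl | rfl | rfl | rfl |
    rfl | rfl | rfl | rfl | rfl | rfl | rfl <;>
    intro x hx <;> simp [Form.eval] at hx ⊢ <;> grind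

theorem total_nil : total ([] : List (Form X)) = 0 := rfl

theorem total_cons (A : Form X) (M : List (Form X)) : total (A :: M) = A.size + total M := by
  simp [total]

theorem total_append (M M' : List (Form X)) : total (M ++ M') = total M + total M' := by
  simp [total]

theorem total_le {M : List (Form X)} {s : ℕ} (h : ∀ A ∈ M, A.size ≤ s) :
    total M ≤ M.length * s := by
  induction M with
  | nil => simp [total]
  | cons A M ih =>
    have h1 := ih fun B hB => h B (List.mem_cons_of_mem _ hB)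
    have h2 := h A List.mem_cons_self
    rw [total_cons, List.length_cons, add_mul, one_mul]
    omega

/-- From the memory `M` to the memory `M'` in at most `n` steps, with total size at most `s`. -/
def Run (S : Set Rule) (Φ : Set (Form X)) (s n : ℕ) (M M' : List (Form X)) : Prop :=
  ∃ f : ℕ → List (Form X), f 0 = M ∧ f n = M' ∧ (∀ t < n, Step S Φ (f t) (f (t + 1))) ∧
    ∀ t ≤ n, total (f t) ≤ s

variable {S : Set Rule} {Φ : Set (Form X)} {s n m : ℕ} {M M' M'' : List (Form X)}

theorem Step.refl (M : List (Form X)) : Step S Φ M M := fun _ hA => Or.inl hA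

theorem Run.refl (h : total M ≤ s) : Run S Φ s n M M :=
  ⟨fun _ => M, rfl, rfl, fun _ _ => Step.refl M, fun _ _ => h⟩

theorem Run.one (h : Step S Φ M M') (hM : total M ≤ s) (hM' : total M' ≤ s) :
    Run S Φ s 1 M M' := by
  refine ⟨fun t => if t = 0 then M else M', rfl, rfl, ?_, ?_⟩
  · intro t ht
    have : t = 0 := by omega
    subst this
    simpa using h
  · intro t _
    simp only
    split_ifs
    · exact hM
    · exact hM'

theorem Run.trans (h : Run S Φ s n M M') (h' : Run S Φ s m M' M'') :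
    Run S Φ s (n + m) M M'' := by
  obtain ⟨f, f0, f1, f2, f3⟩ := h
  obtain ⟨g, g0, g1, g2, g3⟩ := h'
  refine ⟨fun t => if t ≤ n then f t else g (t - n), by simp [f0], ?_, ?_, ?_⟩
  · simp only
    split_ifs with h1
    · have : m = 0 := by omega
      subst this
      rw [← g1, g0, ← f1]
      rfl
    · rw [Nat.add_sub_cancel_left, g1]
  · intro t ht
    simp only
    split_ifs with h1 h2 h2
    · exact f2 t (by omega)
    · have : t = n := by omega
      subst this
      rw [f1, Nat.add_sub_cancel_left, ← g0]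
      exact g2 0 (by omega)
    · omega
    · have h3 := g2 (t - n) (by omega)
      rw [show t + 1 - n = t - n + 1 by omega]
      exact h3
  · intro t ht
    simp only
    split_ifs with h1
    · exact f3 t h1
    · exact g3 _ (by omega)

theorem Run.total_left (h : Run S Φ s n M M') : total M ≤ s := by
  obtain ⟨f, f0, f1, f2, f3⟩ := h
  rw [← f0]
  exact f3 0 (Nat.zero_le _)

theorem Run.total_right (h : Run S Φ s n M M') : total M' ≤ s := by
  obtain ⟨f, f0, f1, f2, f3⟩ := h
  rw [← f1]
  exact f3 n le_rfl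

theorem Run.pad (h : Run S Φ s n M M') (hn : n ≤ m) : Run S Φ s m M M' := by
  have h1 := h.trans (Run.refl (n := m - n) h.total_right)
  rwa [Nat.add_sub_cancel' hn] at h1

/-- Erasing. -/
theorem Run.erase (h : ∀ A ∈ M', A ∈ M) (hM : total M ≤ s) (hM' : total M' ≤ s) :
    Run S Φ s 1 M M' :=
  Run.one (fun A hA => Or.inl (h A hA)) hM hM'

/-- A hypothesis. -/
theorem Run.hyp {A : Form X} (h : A ∈ Φ) (hM : A.size + total M ≤ s) :
    Run S Φ s 1 M (A :: M) := by
  refine Run.one ?_ (by omega) (by rw [total_cons]; exact hM)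
  intro B hB
  rcases List.mem_cons.mp hB with rfl | hB
  · exact Or.inr (Or.inl h)
  · exact Or.inl hB

theorem Run.chain {l : List (Form X)} (h : Ub.Chain S Φ {ψ | ψ ∈ M} l)
    (hs : total M + total l ≤ s) : Run S Φ s l.length M (l ++ M) := by
  induction h with
  | nil =>
    exact Run.refl (by simpa [total_nil] using hs)
  | @cons φ l h1 h2 ih =>
    rw [total_cons] at hs
    refine (ih (by omega)).trans (m := 1) (Run.one ?_ ?_ ?_)
    · intro B hB
      rw [List.cons_append] at hB
      rcases List.mem_cons.mp hB with rfl | hB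
      · right
        rcases h2 with h3 | ⟨R, hR, σ, h4, h5⟩
        · exact Or.inl h3
        · refine Or.inr ⟨R, hR, σ, h4, fun P hP => ?_⟩
          rcases h5 P hP with h6 | h6
          · exact List.mem_append_right _ h6
          · exact List.mem_append_left _ h6
      · exact Or.inl hB
    · rw [total_append]
      omega
    · rw [List.cons_append, total_cons, total_append]
      omega

/-- The simulation of the rules in `bfRules`, with the constant `K`. -/
def Simu (S : Set Rule) (K : ℕ) : Prop :=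
  ∀ R ∈ bfRules, ∀ (X : Type) (Φ Y : Set (Form X)) (t : ℕ) (σ : ℕ → Form X), 1 ≤ t →
    (∀ P ∈ R.prems, P.subst σ ∈ Y ∧ (P.subst σ).size ≤ t) → (R.concl.subst σ).size ≤ t →
    Ub.Reach S Φ (K * t) Y {R.concl.subst σ} K

theorem exists_simu (hS : ImplComplete S) : ∃ K : ℕ, 1 ≤ K ∧ Simu S K := by
  classical
  have h1 : ∀ R : Rule, ∃ K : ℕ, R ∈ bfRules → ∀ (X : Type) (Γ Y : Set (Form X)) (s : ℕ)
      (σ : ℕ → Form X), 1 ≤ s →
      (∀ P ∈ R.prems, P.subst σ ∈ Y ∧ (P.subst σ).size ≤ s) → (R.concl.subst σ).size ≤ s →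
      Ub.Reach S Γ (K * s) Y {R.concl.subst σ} K := by
    intro R
    by_cases hR : R ∈ bfRules
    · obtain ⟨K, hK⟩ := Ub.sim_rule hS R (bfRules_sound R hR)
      exact ⟨K, fun _ => hK⟩
    · exact ⟨0, fun h => absurd h hR⟩
  choose K0 hK0 using h1
  obtain ⟨K1, hK1⟩ : ∃ K1 : ℕ, ∀ R ∈ bfRules, K0 R ≤ K1 := by
    obtain ⟨M, hM⟩ := (bfRules_finite.image K0).bddAbove
    exact ⟨M, fun R hR => hM ⟨R, hR, rfl⟩⟩
  refine ⟨K1 + 1, by omega, ?_⟩
  intro R hR X Φ Y t σ ht hP hc
  obtain ⟨l, q1, q2, q3, q4⟩ := hK0 R hR X Φ Y t σ ht hP hc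
  have := hK1 R hR
  exact ⟨l, q1, by omega, fun φ hφ => (q3 φ hφ).trans (Nat.mul_le_mul_right _ (by omega)), q4⟩

/-- A rule is applied; nothing is erased. -/
theorem Run.rule {K t : ℕ} (hK : Simu S K) {R : Rule} (hR : R ∈ bfRules) (σ : ℕ → Form X)
    (ht : 1 ≤ t) (hP : ∀ P ∈ R.prems, P.subst σ ∈ M ∧ (P.subst σ).size ≤ t)
    (hc : (R.concl.subst σ).size ≤ t) (hs : total M + (K * K + 1) * t ≤ s) :
    Run S Φ s (K + 1) M (R.concl.subst σ :: M) := by
  obtain ⟨l, q1, q2, q3, q4⟩ := hK R hR X Φ {ψ | ψ ∈ M} t σ ht hP hc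
  have h1 : total l ≤ K * K * t := by
    calc total l ≤ l.length * (K * t) := total_le q3
      _ ≤ K * (K * t) := Nat.mul_le_mul_right _ q2
      _ = K * K * t := by ring
  have h2 : (K * K + 1) * t = K * K * t + t := by ring
  have h3 : Run S Φ s l.length M (l ++ M) := Run.chain q1 (by omega)
  refine (h3.pad q2).trans (Run.erase ?_ ?_ ?_)
  · intro A hA
    rcases List.mem_cons.mp hA with rfl | hA
    · rcases q4 rfl with h4 | h4
      · exact List.mem_append_right _ h4
      · exact List.mem_append_left _ h4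
    · exact List.mem_append_right _ hA
  · rw [total_append]
    omega
  · rw [total_cons]
    omega

/-- A rule is applied to the first formula in the memory, which is erased. -/
theorem Run.rule1 {K t : ℕ} (hK : Simu S K) {R : Rule} (hR : R ∈ bfRules) (σ : ℕ → Form X)
    {A B : Form X} (ht : 1 ≤ t) (hP : ∀ P ∈ R.prems, P.subst σ = A) (hA : A.size ≤ t)
    (hB : R.concl.subst σ = B) (hc : B.size ≤ t)
    (hs : total M + (K * K + 2) * t ≤ s) :
    Run S Φ s (K + 2) (A :: M) (B :: M) := by
  subst hB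
  have h2 : (K * K + 2) * t = (K * K + 1) * t + t := by ring
  have h3 : (K * K + 1) * t = K * K * t + t := by ring
  have h1 : Run S Φ s (K + 1) (A :: M) (R.concl.subst σ :: A :: M) :=
    Run.rule hK hR σ ht (fun P hP' => by rw [hP P hP']; exact ⟨List.mem_cons_self, hA⟩) hc
      (by rw [total_cons]; omega)
  refine h1.trans (m := 1) (Run.erase ?_ h1.total_right ?_)
  · intro B hB
    rcases List.mem_cons.mp hB with rfl | hB
    · exact List.mem_cons_self
    · exact List.mem_cons_of_mem _ (List.mem_cons_of_mem _ hB)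
  · rw [total_cons]
    omega

/-- An axiom. -/
theorem Run.axiom0 {K t : ℕ} (hK : Simu S K) {R : Rule} (hR : R ∈ bfRules) (σ : ℕ → Form X)
    {B : Form X} (ht : 1 ≤ t) (hP : R.prems = [])
    (hB : R.concl.subst σ = B) (hc : B.size ≤ t)
    (hs : total M + (K * K + 1) * t ≤ s) :
    Run S Φ s (K + 1) M (B :: M) := by
  subst hB
  exact Run.rule hK hR σ ht (fun P hP' => by rw [hP] at hP'; simp at hP') hc hs

/-- A rule with two premises is applied to the first two formulas in the memory, which are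
erased. -/
theorem Run.rule2 {K t : ℕ} (hK : Simu S K) {R : Rule} (hR : R ∈ bfRules) (σ : ℕ → Form X)
    {A A' B : Form X} (ht : 1 ≤ t) (hP : ∀ P ∈ R.prems, P.subst σ = A ∨ P.subst σ = A')
    (hA : A.size ≤ t) (hA' : A'.size ≤ t)
    (hB : R.concl.subst σ = B) (hc : B.size ≤ t)
    (hs : total M + (K * K + 3) * t ≤ s) :
    Run S Φ s (K + 2) (A :: A' :: M) (B :: M) := by
  subst hB
  have h2 : (K * K + 3) * t = (K * K + 1) * t + t + t := by ring
  have h3 : (K * K + 1) * t = K * K * t + t := by ring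
  have h1 : Run S Φ s (K + 1) (A :: A' :: M) (R.concl.subst σ :: A :: A' :: M) := by
    refine Run.rule hK hR σ ht (fun P hP' => ?_) hc (by rw [total_cons, total_cons]; omega)
    rcases hP P hP' with h | h
    · rw [h]
      exact ⟨List.mem_cons_self, hA⟩
    · rw [h]
      exact ⟨List.mem_cons_of_mem _ List.mem_cons_self, hA'⟩
  refine h1.trans (m := 1) (Run.erase ?_ h1.total_right ?_)
  · intro B hB
    rcases List.mem_cons.mp hB with rfl | hB
    · exact List.mem_cons_self
    · exact List.mem_cons_of_mem _ (List.mem_cons_of_mem _ (List.mem_cons_of_mem _ hB))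
  · rw [total_cons]
    omega

end Pool.Agent.MP_9cec2c_lc.SL.Up
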