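import Pool.Agent.Lib.MP_9cec2c_lc.FS.UpA

/-!
Campaign FS, upper bounds, part B: exhaustive search in linear space. The state of the search is the
formula which says that the assignment is not smaller than a given one in the lexicographic order.
-/

set_option autoImplicit false

open Finset

namespace Pool.Agent.MP_9cec2c_lc.SL.Up

open Form

variable {X : Type}

/-- The context of a path: `x ∨ …` if the value of `x` is `false`, and `x ∧ …` if it is `true`. -/
def kt : List (X × Bool) → Form X → Form X
  | [], A => A
  | (x, b) :: v, A => if b = true then and (var x) (kt v A) else or (var x) (kt v A)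

theorem kt_size : ∀ (v : List (X × Bool)) (A : Form X), (kt v A).size = v.length + A.size
  | [], A => by simp [kt]
  | (x, b) :: v, A => by
    have ih := kt_size v A
    rw [kt]
    split_ifs <;> rw [Form.size, Form.size, ih, List.length_cons] <;> omega

theorem kt_append : ∀ (v w : List (X × Bool)) (A : Form X), kt (v ++ w) A = kt v (kt w A)
  | [], _, _ => rfl
  | (x, b) :: v, w, A => by
    rw [List.cons_append, kt, kt, kt_append v w A]

/-- The conjunction of the literals which are true for a path. -/
def cj : List (X × Bool) → Form X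
  | [] => tt
  | l :: w => and (cj w) (lit l)

theorem lit_size (l : X × Bool) : (lit l).size = 1 := by
  unfold lit
  split_ifs <;> rfl

theorem cj_size : ∀ w : List (X × Bool), (cj w).size = w.length + 1
  | [] => rfl
  | l :: w => by
    rw [cj, Form.size, cj_size w, lit_size, List.length_cons]

theorem clause_size : ∀ C : List (X × Bool), (clause C).size = C.length + 1
  | [] => rfl
  | l :: C => by
    have ih := clause_size C
    unfold clause at ih ⊢
    rw [List.foldr_cons, Form.size, ih, lit_size, List.length_cons]
    omega

theorem clause_cons (l : X × Bool) (C : List (X × Bool)) :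
    clause (l :: C) = or (lit l) (clause C) := rfl

/-- The space for one application of a rule. -/
def sr (K t : ℕ) : ℕ := (K * K + 3) * t

variable {S : Set Rule} {Φ : Set (Form X)} {s n m : ℕ} {M M' M'' : List (Form X)} {K t : ℕ}

theorem sr1 : (K * K + 1) * t ≤ sr K t := Nat.mul_le_mul_right _ (by omega)
theorem sr2 : (K * K + 2) * t ≤ sr K t := Nat.mul_le_mul_right _ (by omega)

/-- The rules by name. -/
theorem mem_mp : (⟨[imp (var 0) (var 1), var 0], var 1⟩ : Rule) ∈ bfRules := by
  unfold bfRules; simp
theorem mem_cor : (⟨[imp (var 0) (var 1)], imp (or (var 2) (var 0)) (or (var 2) (var 1))⟩ : Rule) ∈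
    bfRules := by
  unfold bfRules; simp
theorem mem_cand : (⟨[imp (var 0) (var 1)], imp (and (var 2) (var 0)) (and (var 2) (var 1))⟩ :
    Rule) ∈ bfRules := by
  unfold bfRules; simp

/-- From `A → B` to `K A → K B`. -/
theorem ctx_up (hK : Simu S K) (M : List (Form X)) (A B : Form X) (N : ℕ)
    (ht : 2 * N + A.size + B.size ≤ t) (ht1 : 1 ≤ t) (hs : total M + sr K t ≤ s) :
    ∀ v : List (X × Bool), v.length ≤ N →
    Run S Φ s (v.length * (K + 2)) (imp A B :: M) (imp (kt v A) (kt v B) :: M)
  | [], _ => by
    refine Run.refl ?_
    have := sr1 (K := K) (t := t)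
    have h2 : t ≤ (K * K + 1) * t := Nat.le_mul_of_pos_left _ (by omega)
    rw [total_cons, Form.size]
    omega
  | (x, b) :: v, hv => by
    rw [List.length_cons] at hv
    have ih := ctx_up hK M A B N ht ht1 hs v (by omega)
    have h1 : (imp (kt v A) (kt v B)).size ≤ t := by
      rw [Form.size, kt_size, kt_size]
      omega
    have h2 : (imp (kt ((x, b) :: v) A) (kt ((x, b) :: v) B)).size ≤ t := by
      rw [Form.size, kt_size, kt_size, List.length_cons]
      omega
    have h3 : Run S Φ s (K + 2) (imp (kt v A) (kt v B) :: M)
        (imp (kt ((x, b) :: v) A) (kt ((x, b) :: v) B) :: M) := by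
      cases b
      · refine Run.rule1 hK mem_cor (fun i => if i = 0 then kt v A else if i = 1 then kt v B else
          var x) ht1 ?_ h1 ?_ h2 (le_trans (Nat.add_le_add_left sr2 _) hs)
        · simp [Form.subst]
        · simp [Form.subst, kt]
      · refine Run.rule1 hK mem_cand (fun i => if i = 0 then kt v A else if i = 1 then kt v B else
          var x) ht1 ?_ h1 ?_ h2 (le_trans (Nat.add_le_add_left sr2 _) hs)
        · simp [Form.subst]
        · simp [Form.subst, kt]
    refine (ih.trans h3).pad ?_
    rw [List.length_cons]
    apply le_of_eq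
    ring

/-- A move of the state, by a valid implication. -/
theorem move (hK : Simu S K) {R : Rule} (hR : R ∈ bfRules) (hP : R.prems = []) (σ : ℕ → Form X)
    {A B : Form X} (hc : R.concl.subst σ = imp A B) (N : ℕ)
    (ht : 2 * N + A.size + B.size ≤ t) (ht1 : 1 ≤ t) (hs : t + t + sr K t ≤ s)
    (v : List (X × Bool)) (hv : v.length ≤ N) :
    Run S Φ s ((N + 2) * (K + 2)) [kt v A] [kt v B] := by
  have e1 : (kt v A).size ≤ t := by
    rw [kt_size]
    omega
  have h0 : total [kt v A] ≤ t := by
    rw [total_cons, total_nil]
    omega
  have h1 : Run S Φ s (K + 1) [kt v A] (imp A B :: [kt v A]) :=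
    Run.axiom0 hK hR σ ht1 hP hc (by rw [Form.size]; omega)
      (by have := sr1 (K := K) (t := t); omega)
  have h2 := ctx_up (Φ := Φ) (s := s) hK [kt v A] A B N ht ht1 (by omega) v hv
  have h3 : Run S Φ s (K + 2) (imp (kt v A) (kt v B) :: kt v A :: []) (kt v B :: []) := by
    refine Run.rule2 hK mem_mp (fun i => if i = 0 then kt v A else kt v B) ht1 ?_ ?_ e1 ?_ ?_ ?_
    · simp [Form.subst]
    · rw [Form.size, kt_size, kt_size]
      omega
    · simp [Form.subst]
    · rw [kt_size]
      omega
    · rw [total_nil]
      have : sr K t = (K * K + 3) * t := rfl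
      omega
  refine ((h1.trans h2).trans h3).pad ?_
  have h4 : v.length * (K + 2) ≤ N * (K + 2) := Nat.mul_le_mul_right _ hv
  have h5 : (N + 2) * (K + 2) = N * (K + 2) + (K + 2) + (K + 2) := by ring
  omega

/-- The conjunction implies its members. -/
theorem cj_imp (hK : Simu S K) (M : List (Form X)) (l : X × Bool) (ht1 : 1 ≤ t) (N : ℕ)
    (ht : N + 3 ≤ t) (hs : total M + sr K t ≤ s) :
    ∀ w : List (X × Bool), w.length ≤ N → l ∈ w →
    Run S Φ s (w.length * (K + 2)) M (imp (cj w) (lit l) :: M)
  | [], _, hl => by simp at hl
  | p :: w, hw, hl => by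
    rw [List.length_cons] at hw
    have hsz : (imp (cj (p :: w)) (lit l)).size ≤ t := by
      rw [Form.size, cj_size, lit_size, List.length_cons]
      omega
    by_cases hpl : l = p
    · subst hpl
      have h1 : Run S Φ s (K + 1) M (imp (cj (l :: w)) (lit l) :: M) := by
        refine Run.axiom0 hK (R := ⟨[], imp (and (var 0) (var 1)) (var 1)⟩) (by unfold bfRules; simp)
          (fun i => if i = 0 then cj w else lit l) ht1 rfl ?_ hsz ?_
        · simp [Form.subst, cj]
        · exact le_trans (Nat.add_le_add_left sr1 _) hs
      refine h1.pad ?_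
      rw [List.length_cons]
      have : (w.length + 1) * (K + 2) = w.length * (K + 2) + (K + 2) := by ring
      omega
    · have hl' : l ∈ w := by
        rcases List.mem_cons.mp hl with h | h
        · exact absurd h hpl
        · exact h
      have ih := cj_imp hK M l ht1 N ht hs w (by omega) hl'
      have h1 : Run S Φ s (K + 2) (imp (cj w) (lit l) :: M) (imp (cj (p :: w)) (lit l) :: M) := by
        refine Run.rule1 hK (R := ⟨[imp (var 0) (var 1)], imp (and (var 0) (var 2)) (var 1)⟩)
          (by unfold bfRules; simp)
          (fun i => if i = 0 then cj w else if i = 1 then lit l else lit p) ht1 ?_ ?_ ?_ hsz ?_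
        · simp [Form.subst]
        · rw [Form.size, cj_size, lit_size]
          omega
        · simp [Form.subst, cj]
        · exact le_trans (Nat.add_le_add_left sr2 _) hs
      refine (ih.trans h1).pad ?_
      rw [List.length_cons]
      apply le_of_eq
      ring

/-- The formula `P → (C → (A → B))`. -/
def ew (P C A B : Form X) : Form X := imp P (imp C (imp A B))

theorem ew_size (P C A B : Form X) : (ew P C A B).size = P.size + (C.size + (A.size + B.size)) := rfl

/-- The conjunction contradicts a clause. -/
theorem cj_clause (hK : Simu S K) (M : List (Form X)) (w : List (X × Bool)) (ht1 : 1 ≤ t) (N : ℕ)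
    (ht : 2 * N + 8 ≤ t) (hs : total M + t + sr K t ≤ s) (hw : w.length ≤ N) :
    ∀ C : List (X × Bool), C.length ≤ N → (∀ l ∈ C, (l.1, !l.2) ∈ w) →
    Run S Φ s ((C.length + 1) * ((N + 1) * (K + 2))) M (ew (cj w) (clause C) tt ff :: M)
  | [], _, _ => by
    have h1 : Run S Φ s (K + 1) M (ew (cj w) (clause []) tt ff :: M) := by
      refine Run.axiom0 hK (R := ⟨[], imp (var 0) (imp ff (imp tt ff))⟩) (by unfold bfRules; simp)
        (fun _ => cj w) ht1 rfl ?_ ?_ (by have := sr1 (K := K) (t := t); omega)
      · simp [Form.subst, ew, clause]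
      · rw [ew_size, cj_size, clause_size]
        simp only [Form.size, List.length_nil]
        omega
    refine h1.pad ?_
    rw [List.length_nil]
    have : (0 + 1) * ((N + 1) * (K + 2)) = N * (K + 2) + (K + 2) := by ring
    omega
  | l :: C, hC, hl => by
    rw [List.length_cons] at hC
    have ih := cj_clause hK M w ht1 N ht hs hw C (by omega)
      (fun l' hl' => hl l' (List.mem_cons_of_mem _ hl'))
    have hz : (ew (cj w) (clause C) tt ff).size ≤ t := by
      rw [ew_size, cj_size, clause_size]
      simp only [Form.size]
      omega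
    have hz' : (ew (cj w) (clause (l :: C)) tt ff).size ≤ t := by
      rw [ew_size, cj_size, clause_size, List.length_cons]
      simp only [Form.size]
      omega
    have h1 : Run S Φ s (w.length * (K + 2)) (ew (cj w) (clause C) tt ff :: M)
        (imp (cj w) (lit (l.1, !l.2)) :: ew (cj w) (clause C) tt ff :: M) :=
      cj_imp hK _ _ ht1 N (by omega) (by rw [total_cons]; omega) w hw (hl l List.mem_cons_self)
    have h2 : Run S Φ s (K + 2) (imp (cj w) (lit (l.1, !l.2)) :: ew (cj w) (clause C) tt ff :: M)
        (ew (cj w) (clause (l :: C)) tt ff :: M) := by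
      obtain ⟨x, b⟩ := l
      have hz2 : (imp (cj w) (lit (x, !b))).size ≤ t := by
        rw [Form.size, cj_size, lit_size]
        omega
      have hs3 : total M + (K * K + 3) * t ≤ s := by
        have : sr K t = (K * K + 3) * t := rfl
        omega
      cases b
      · refine Run.rule2 hK (R := ⟨[imp (var 0) (imp (var 1) (imp tt ff)), imp (var 0) (var 2)],
          imp (var 0) (imp (or (neg (var 2)) (var 1)) (imp tt ff))⟩) (by unfold bfRules; simp)
          (fun i => if i = 0 then cj w else if i = 1 then clause C else var x) ht1 ?_ hz2 hz ?_ hz'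
          hs3
        · simp [Form.subst, ew, lit]
        · simp [Form.subst, ew, clause_cons, lit]
      · refine Run.rule2 hK (R := ⟨[imp (var 0) (imp (var 1) (imp tt ff)),
          imp (var 0) (neg (var 2))], imp (var 0) (imp (or (var 2) (var 1)) (imp tt ff))⟩)
          (by unfold bfRules; simp)
          (fun i => if i = 0 then cj w else if i = 1 then clause C else var x) ht1 ?_ hz2 hz ?_ hz'
          hs3
        · simp [Form.subst, ew, lit]
        · simp [Form.subst, ew, clause_cons, lit]
    refine ((ih.trans h1).trans h2).pad ?_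
    rw [List.length_cons]
    have h3 : w.length * (K + 2) ≤ N * (K + 2) := Nat.mul_le_mul_right _ hw
    have h4 : (C.length + 1 + 1) * ((N + 1) * (K + 2)) =
        (C.length + 1) * ((N + 1) * (K + 2)) + (N * (K + 2) + (K + 2)) := by ring
    omega

/-- The literals are moved from the conjunction to the context. -/
theorem shift (hK : Simu S K) (M : List (Form X)) (C : Form X) (ht1 : 1 ≤ t) (N : ℕ)
    (ht : 2 * N + C.size + 5 ≤ t) (hs : total M + sr K t ≤ s) :
    ∀ w u : List (X × Bool), w.length + u.length ≤ N →
    Run S Φ s (w.length * (K + 2)) (ew (cj w) C (kt u tt) (kt u ff) :: M)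
      (ew tt C (kt (w.reverse ++ u) tt) (kt (w.reverse ++ u) ff) :: M)
  | [], u, h => by
    rw [List.length_nil, zero_add] at h
    refine Run.refl ?_
    have := sr1 (K := K) (t := t)
    have h2 : t ≤ (K * K + 1) * t := Nat.le_mul_of_pos_left _ (by omega)
    rw [total_cons, ew_size, kt_size, kt_size, cj_size]
    simp only [Form.size, List.length_nil]
    omega
  | (x, b) :: w, u, h => by
    rw [List.length_cons] at h
    have ih := shift hK M C ht1 N ht hs w ((x, b) :: u) (by rw [List.length_cons]; omega)
    have h1 : Run S Φ s (K + 2) (ew (cj ((x, b) :: w)) C (kt u tt) (kt u ff) :: M)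
        (ew (cj w) C (kt ((x, b) :: u) tt) (kt ((x, b) :: u) ff) :: M) := by
      have hz : (ew (cj ((x, b) :: w)) C (kt u tt) (kt u ff)).size ≤ t := by
        rw [ew_size, kt_size, kt_size, cj_size, List.length_cons]
        simp only [Form.size]
        omega
      have hz' : (ew (cj w) C (kt ((x, b) :: u) tt) (kt ((x, b) :: u) ff)).size ≤ t := by
        rw [ew_size, kt_size, kt_size, cj_size, List.length_cons]
        simp only [Form.size]
        omega
      have hs2 : total M + (K * K + 2) * t ≤ s := le_trans (Nat.add_le_add_left sr2 _) hs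
      cases b
      · refine Run.rule1 hK (R := ⟨[imp (and (var 0) (neg (var 2))) (imp (var 1) (imp (var 3)
          (var 4)))], imp (var 0) (imp (var 1) (imp (or (var 2) (var 3)) (or (var 2) (var 4))))⟩)
          (by unfold bfRules; simp)
          (fun i => if i = 0 then cj w else if i = 1 then C else if i = 2 then var x else
            if i = 3 then kt u tt else kt u ff) ht1 ?_ hz ?_ hz' hs2
        · simp [Form.subst, ew, cj, lit]
        · simp [Form.subst, ew, kt]
      · refine Run.rule1 hK (R := ⟨[imp (and (var 0) (var 2)) (imp (var 1) (imp (var 3)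
          (var 4)))], imp (var 0) (imp (var 1) (imp (and (var 2) (var 3)) (and (var 2) (var 4))))⟩)
          (by unfold bfRules; simp)
          (fun i => if i = 0 then cj w else if i = 1 then C else if i = 2 then var x else
            if i = 3 then kt u tt else kt u ff) ht1 ?_ hz ?_ hz' hs2
        · simp [Form.subst, ew, cj, lit]
        · simp [Form.subst, ew, kt]
    have h2 := h1.trans ih
    rw [List.reverse_cons, List.append_assoc, List.singleton_append]
    refine h2.pad ?_
    rw [List.length_cons]
    apply le_of_eq
    ring

end Pool.Agent.MP_9cec2c_lc.SL.Up
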