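import Pool.Agent.Lib.MP_9cec2c_lc.FS.UpB

/-!
Campaign FS, upper bounds, part C: the search.
-/

set_option autoImplicit false

open Finset

namespace Pool.Agent.MP_9cec2c_lc.SL.Up

open Form

variable {X : Type} {S : Set Rule} {Φ : Set (Form X)} {s : ℕ} {K t : ℕ}

/-- A leaf of the search. -/
theorem leaf (hK : Simu S K) (N : ℕ) (ht : 4 * N + 12 ≤ t) (hs : 4 * t + sr K t ≤ s)
    (v C : List (X × Bool)) (hv : v.length ≤ N) (hC : C.length ≤ N) (hCΦ : clause C ∈ Φ)
    (hl : ∀ l ∈ C, (l.1, !l.2) ∈ v) :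
    Run S Φ s ((N + 3) * ((N + 3) * (K + 2))) [kt v tt] [kt v ff] := by
  have ht1 : 1 ≤ t := by omega
  have e0 : total [kt v tt] ≤ t := by
    rw [total_cons, total_nil, kt_size]
    simp only [Form.size]
    omega
  have hw : v.reverse.length ≤ N := by simpa using hv
  have e1 : (clause C).size ≤ N + 1 := by
    rw [clause_size]
    omega
  have h1 := cj_clause (Φ := Φ) (s := s) hK [kt v tt] v.reverse ht1 N (by omega)
    (by omega) hw C hC (fun l h => List.mem_reverse.mpr (hl l h))
  have h2 := shift (Φ := Φ) (s := s) hK [kt v tt] (clause C) ht1 N (by omega) (by omega)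
    v.reverse [] (by simpa using hv)
  rw [List.reverse_reverse, List.append_nil] at h2
  have hA : (ew tt (clause C) (kt v tt) (kt v ff)).size ≤ t := by
    rw [ew_size, kt_size, kt_size]
    simp only [Form.size]
    omega
  have h3 : Run S Φ s 1 (ew tt (clause C) (kt v tt) (kt v ff) :: [kt v tt])
      (clause C :: ew tt (clause C) (kt v tt) (kt v ff) :: [kt v tt]) := by
    refine Run.hyp hCΦ ?_
    rw [total_cons]
    omega
  have hI : (imp (kt v tt) (kt v ff)).size ≤ t := by
    rw [Form.size, kt_size, kt_size]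
    simp only [Form.size]
    omega
  have hq : (kt v ff).size ≤ t := by
    rw [kt_size]
    simp only [Form.size]
    omega
  have hq' : (kt v tt).size ≤ t := by
    rw [kt_size]
    simp only [Form.size]
    omega
  have h4 : Run S Φ s (K + 2) (clause C :: ew tt (clause C) (kt v tt) (kt v ff) :: [kt v tt])
      (imp (kt v tt) (kt v ff) :: [kt v tt]) := by
    refine Run.rule2 hK (R := ⟨[imp tt (imp (var 0) (var 1)), var 0], var 1⟩)
      (by unfold bfRules; simp)
      (fun i => if i = 0 then clause C else imp (kt v tt) (kt v ff)) ht1 ?_ ?_ hA ?_ hI ?_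
    · simp [Form.subst, ew]
    · omega
    · simp [Form.subst]
    · have : sr K t = (K * K + 3) * t := rfl
      omega
  have h5 : Run S Φ s (K + 2) (imp (kt v tt) (kt v ff) :: kt v tt :: []) (kt v ff :: []) := by
    refine Run.rule2 hK mem_mp (fun i => if i = 0 then kt v tt else kt v ff) ht1 ?_ hI hq' ?_ hq ?_
    · simp [Form.subst]
    · simp [Form.subst]
    · rw [total_nil]
      have : sr K t = (K * K + 3) * t := rfl
      omega
  have hew : ew (cj v.reverse) (clause C) (kt [] tt) (kt [] ff) =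
      ew (cj v.reverse) (clause C) tt ff := rfl
  rw [hew] at h2
  refine ((((h1.trans h2).trans h3).trans h4).trans h5).pad ?_
  rw [List.length_reverse]
  have q1 : v.length * (K + 2) ≤ N * (K + 2) := Nat.mul_le_mul_right _ hv
  have q2 : (C.length + 1) * ((N + 1) * (K + 2)) ≤ (N + 1) * ((N + 1) * (K + 2)) :=
    Nat.mul_le_mul_right _ (by omega)
  have q3 : (N + 3) * ((N + 3) * (K + 2)) = (N + 1) * ((N + 1) * (K + 2)) + N * (K + 2) +
      3 * N * (K + 2) + 8 * (K + 2) := by ring
  have q4 : 0 ≤ 3 * N * (K + 2) := Nat.zero_le _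
  omega

/-- The number of steps for `r` remaining variables. -/
def tm (K N : ℕ) : ℕ → ℕ
  | 0 => (N + 3) * ((N + 3) * (K + 2))
  | r + 1 => tm K N r + tm K N r + 3 * ((N + 2) * (K + 2))

theorem tm_le (K N : ℕ) : ∀ r, tm K N r + 3 * ((N + 2) * (K + 2)) ≤
    2 ^ r * (4 * ((N + 3) * ((N + 3) * (K + 2))))
  | 0 => by
    rw [tm, pow_zero, one_mul]
    have : (N + 2) * (K + 2) ≤ (N + 3) * ((N + 3) * (K + 2)) := by
      have h1 : (N + 3) * ((N + 3) * (K + 2)) = (N + 2) * (K + 2) + ((N + 2) * (N + 3) + 1) * (K + 2) := by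
        ring
      omega
    omega
  | r + 1 => by
    have ih := tm_le K N r
    rw [tm, pow_succ]
    have h1 : 2 ^ r * 2 * (4 * ((N + 3) * ((N + 3) * (K + 2)))) =
      2 ^ r * (4 * ((N + 3) * ((N + 3) * (K + 2)))) + 2 ^ r * (4 * ((N + 3) * ((N + 3) * (K + 2)))) := by
      ring
    omega

/-- The search. -/
theorem dfs (hK : Simu S K) (F : List (List (X × Bool))) (N : ℕ) (ht : 4 * N + 12 ≤ t)
    (hs : 4 * t + sr K t ≤ s) (hF : ∀ C ∈ F, C.length ≤ N) (hΦ : ∀ C ∈ F, clause C ∈ Φ)
    (hun : ∀ x : X → Bool, ∃ C ∈ F, ∀ l ∈ C, x l.1 ≠ l.2) :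
    ∀ (xs : List X) (v : List (X × Bool)), v.length + xs.length ≤ N →
      (∀ y, y ∉ xs → ∃ b, (y, b) ∈ v) →
      Run S Φ s (tm K N xs.length) [kt v tt] [kt v ff]
  | [], v, h, hv => by
    have hv' : ∀ y, ∃ b, (y, b) ∈ v := fun y => hv y (by simp)
    choose x hx using hv'
    obtain ⟨C, hC, hCl⟩ := hun x
    refine leaf hK N ht hs v C (by simpa using h) (hF C hC) (hΦ C hC) ?_
    intro l hl
    have h1 := hCl l hl
    have h2 : x l.1 = !l.2 := by
      revert h1
      cases x l.1 <;> cases l.2 <;> simp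
    rw [← h2]
    exact hx l.1
  | y :: xs, v, h, hv => by
    rw [List.length_cons] at h
    have ht1 : 1 ≤ t := by omega
    have i1 := dfs hK F N ht hs hF hΦ hun xs (v ++ [(y, false)])
      (by rw [List.length_append]; simp; omega) (by
        intro z hz
        by_cases hzy : z = y
        · exact ⟨false, by simp [hzy]⟩
        · obtain ⟨b, hb⟩ := hv z (by simp [hz, hzy])
          exact ⟨b, List.mem_append_left _ hb⟩)
    have i2 := dfs hK F N ht hs hF hΦ hun xs (v ++ [(y, true)])
      (by rw [List.length_append]; simp; omega) (by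
        intro z hz
        by_cases hzy : z = y
        · exact ⟨true, by simp [hzy]⟩
        · obtain ⟨b, hb⟩ := hv z (by simp [hz, hzy])
          exact ⟨b, List.mem_append_left _ hb⟩)
    have e1 : ∀ A : Form X, kt (v ++ [(y, false)]) A = kt v (or (var y) A) := by
      intro A
      rw [kt_append]
      simp [kt]
    have e2 : ∀ A : Form X, kt (v ++ [(y, true)]) A = kt v (and (var y) A) := by
      intro A
      rw [kt_append]
      simp [kt]
    rw [e1, e1] at i1
    rw [e2, e2] at i2
    have m1 : Run S Φ s ((N + 2) * (K + 2)) [kt v tt] [kt v (or (var y) tt)] := by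
      refine move hK (R := ⟨[], imp tt (or (var 0) tt)⟩) (by unfold bfRules; simp) rfl
        (fun _ => var y) ?_ N ?_ ht1 (by omega) v (by omega)
      · simp [Form.subst]
      · simp only [Form.size]
        omega
    have m2 : Run S Φ s ((N + 2) * (K + 2)) [kt v (or (var y) ff)] [kt v (and (var y) tt)] := by
      refine move hK (R := ⟨[], imp (or (var 0) ff) (and (var 0) tt)⟩)
        (by unfold bfRules; simp) rfl (fun _ => var y) ?_ N ?_ ht1 (by omega) v (by omega)
      · simp [Form.subst]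
      · simp only [Form.size]
        omega
    have m3 : Run S Φ s ((N + 2) * (K + 2)) [kt v (and (var y) ff)] [kt v ff] := by
      refine move hK (R := ⟨[], imp (and (var 0) ff) ff⟩)
        (by unfold bfRules; simp) rfl (fun _ => var y) ?_ N ?_ ht1 (by omega) v (by omega)
      · simp [Form.subst]
      · simp only [Form.size]
        omega
    refine ((((m1.trans i1).trans m2).trans i2).trans m3).pad ?_
    rw [List.length_cons, tm]
    omega

theorem sq_le_two_pow (N : ℕ) : (N + 3) * (N + 3) ≤ 2 ^ (2 * (N + 3)) := by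
  have h : N + 3 ≤ 2 ^ (N + 3) := (Nat.lt_two_pow_self).le
  calc (N + 3) * (N + 3) ≤ 2 ^ (N + 3) * 2 ^ (N + 3) := Nat.mul_le_mul h h
    _ = 2 ^ (2 * (N + 3)) := by rw [← pow_add]; congr 1; ring

/-- Every unsatisfiable CNF in `N` variables has a refutation in linear total space with
`2 ^ (O(N))` steps. -/
theorem space_upper (S : Set Rule) (hS : ImplComplete S) : ∃ C : ℕ, ∀ (X : Type) [Fintype X]
    (F : List (List (X × Bool))) (N : ℕ), 1 ≤ N → Fintype.card X ≤ N → (∀ C ∈ F, C.length ≤ N) →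
    (∀ x : X → Bool, ∃ C ∈ F, ∀ l ∈ C, x l.1 ≠ l.2) →
    ∃ (T : ℕ) (M : ℕ → List (Form X)), M 0 = [] ∧
      (∀ t < T, Step S {φ | ∃ C ∈ F, φ = clause C} (M t) (M (t + 1))) ∧
      (∀ t ≤ T, total (M t) ≤ C * N) ∧ Form.ff ∈ M T ∧ T ≤ 2 ^ (C * N) := by
  obtain ⟨K, hK1, hK⟩ := exists_simu hS
  refine ⟨(K * K + 7) * 16 + K + 50, ?_⟩
  intro X _ F N hN hX hF hun
  set t := 16 * N with ht
  have hs0 : 4 * t + sr K t = (K * K + 7) * 16 * N := by
    rw [sr, ht]
    ring
  set s := (K * K + 7) * 16 * N with hs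
  have h1 := dfs (Φ := {φ | ∃ C ∈ F, φ = clause C}) (s := s) hK F N (t := t) (by omega)
    (by omega) hF (fun C hC => ⟨C, hC, rfl⟩) hun (univ : Finset X).toList []
    (by simp only [List.length_nil, Finset.length_toList, Finset.card_univ]; omega)
    (fun y hy => absurd (Finset.mem_toList.mpr (Finset.mem_univ y)) hy)
  have h0 : Run S {φ | ∃ C ∈ F, φ = clause C} s (K + 1) [] [kt [] tt] := by
    refine Run.axiom0 hK (t := t) (R := ⟨[], tt⟩) (by unfold bfRules; simp)
      (fun _ => tt) (by omega) rfl ?_ ?_ ?_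
    · simp [Form.subst, kt]
    · simp only [Form.size, kt]
      omega
    · rw [total_nil]
      have := sr1 (K := K) (t := t)
      omega
  obtain ⟨M, m0, m1, m2, m3⟩ := h0.trans h1
  refine ⟨_, M, m0, m2, fun t' ht' => (m3 t' ht').trans ?_, ?_, ?_⟩
  · rw [hs]
    exact Nat.mul_le_mul_right _ (by omega)
  · rw [m1]
    simp [kt]
  · have e1 : (univ : Finset X).toList.length ≤ N := by
      simpa [Finset.length_toList] using hX
    have e2 := tm_le K N (univ : Finset X).toList.length
    have e3 : 2 ^ (univ : Finset X).toList.length ≤ 2 ^ N :=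
      Nat.pow_le_pow_right (by norm_num) e1
    have e4 : K + 2 ≤ 2 ^ (K + 2) := (Nat.lt_two_pow_self).le
    have e5 : 2 ^ (univ : Finset X).toList.length * (4 * ((N + 3) * ((N + 3) * (K + 2)))) ≤
        2 ^ N * (4 * (2 ^ (2 * (N + 3)) * 2 ^ (K + 2))) := by
      refine Nat.mul_le_mul e3 (Nat.mul_le_mul_left _ ?_)
      rw [← mul_assoc]
      exact Nat.mul_le_mul (sq_le_two_pow N) e4
    have e6 : 2 ^ N * (4 * (2 ^ (2 * (N + 3)) * 2 ^ (K + 2))) = 2 ^ (N + 2 + 2 * (N + 3) + (K + 2)) := by
      rw [pow_add, pow_add, pow_add]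
      ring
    have e7 : K + 1 ≤ 3 * ((N + 2) * (K + 2)) := by
      have : 3 * ((N + 2) * (K + 2)) = 3 * N * (K + 2) + 6 * K + 12 := by ring
      omega
    have e8 : K + 1 + tm K N (univ : Finset X).toList.length ≤
        2 ^ (N + 2 + 2 * (N + 3) + (K + 2)) := by omega
    refine e8.trans (Nat.pow_le_pow_right (by norm_num) ?_)
    have e9 : ((K * K + 7) * 16 + K + 50) * N = (K * K) * 16 * N + (K + 2) * N + 160 * N := by ring
    have e10 : K + 2 ≤ (K + 2) * N := Nat.le_mul_of_pos_right _ hN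
    omega

end Pool.Agent.MP_9cec2c_lc.SL.Up
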