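import Pool.Agent.Lib.MP_9cec2c_lc.FS.UpC

/-!
Campaign FS, upper bounds, part D: exhaustive search by tree-like proofs of small height.
-/

set_option autoImplicit false

open Finset

namespace Pool.Agent.MP_9cec2c_lc.SL.Up

open Form

variable {X : Type}

/-- Tree-like derivations with `n` lines of size at most `s` and height at most `h`. -/
inductive TH (S : Set Rule) (Φ : Set (Form X)) (s : ℕ) : ℕ → ℕ → Form X → Prop
  | hyp (A : Form X) (h : ℕ) (hA : A ∈ Φ) (hs : A.size ≤ s) : TH S Φ s 1 h A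
  | rule (R : Rule) (hR : R ∈ S) (σ : ℕ → Form X) (n : Fin R.prems.length → ℕ) (h : ℕ)
      (hp : ∀ i, TH S Φ s (n i) h ((R.prems.get i).subst σ)) (hs : (R.concl.subst σ).size ≤ s) :
      TH S Φ s (1 + ∑ i, n i) (h + 1) (R.concl.subst σ)

variable {S : Set Rule} {Φ : Set (Form X)} {s n h : ℕ} {A : Form X}

theorem TH.tree (H : TH S Φ s n h A) : Tree S Φ s n A := by
  induction H with
  | hyp A h hA hs => exact Tree.hyp A hA hs
  | rule R hR σ n h hp hs ih => exact Tree.rule R hR σ n ih hs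

theorem TH.up (H : TH S Φ s n h A) : TH S Φ s n (h + 1) A := by
  induction H with
  | hyp A h hA hs => exact TH.hyp A _ hA hs
  | rule R hR σ n h hp hs ih => exact TH.rule R hR σ n (h + 1) ih hs

theorem TH.mono {h' : ℕ} (H : TH S Φ s n h A) (hh : h ≤ h') : TH S Φ s n h' A := by
  induction hh with
  | refl => exact H
  | step _ ih => exact ih.up

theorem TH.mono_size {s' : ℕ} (H : TH S Φ s n h A) (hss : s ≤ s') : TH S Φ s' n h A := by
  induction H with
  | hyp A h hA hs => exact TH.hyp A _ hA (hs.trans hss)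
  | rule R hR σ n h hp hs ih => exact TH.rule R hR σ n h ih (hs.trans hss)

/-- Sets of lines with heights which are closed under premises. -/
def Closed (S : Set Rule) (Φ : Set (Form X)) (l : List (Form X × ℕ)) : Prop :=
  ∀ p ∈ l, p.1 ∈ Φ ∨ ∃ R ∈ S, ∃ σ : ℕ → Form X, R.concl.subst σ = p.1 ∧
    ∀ P ∈ R.prems, ∃ q ∈ l, q.2 < p.2 ∧ q.1 = P.subst σ

theorem TH.closed (H : TH S Φ s n h A) : ∃ l : List (Form X × ℕ), Closed S Φ l ∧
    (∀ p ∈ l, p.2 ≤ h ∧ p.1.size ≤ s) ∧ ∃ p ∈ l, p.1 = A := by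
  induction H with
  | hyp A h hA hs =>
    refine ⟨[(A, 0)], ?_, ?_, ⟨(A, 0), by simp, rfl⟩⟩
    · intro p hp
      rw [List.mem_singleton] at hp
      subst hp
      exact Or.inl hA
    · intro p hp
      rw [List.mem_singleton] at hp
      subst hp
      exact ⟨Nat.zero_le _, hs⟩
  | rule R hR σ n h hp hs ih =>
    choose l h1 h2 h3 using ih
    let L : List (Form X × ℕ) := (List.finRange R.prems.length).flatMap l
    have hL : ∀ p, p ∈ L ↔ ∃ i, p ∈ l i := by
      intro p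
      simp [L, List.mem_flatMap]
    refine ⟨(R.concl.subst σ, h + 1) :: L, ?_, ?_, ⟨_, List.mem_cons_self, rfl⟩⟩
    · intro p hp'
      rcases List.mem_cons.mp hp' with rfl | hp'
      · refine Or.inr ⟨R, hR, σ, rfl, fun P hP => ?_⟩
        obtain ⟨i, hi⟩ := List.mem_iff_get.mp hP
        obtain ⟨q, hq, hq'⟩ := h3 i
        refine ⟨q, List.mem_cons_of_mem _ ((hL q).mpr ⟨i, hq⟩), ?_, ?_⟩
        · exact Nat.lt_succ_of_le ((h2 i) q hq).1
        · rw [hq', ← hi]
      · obtain ⟨i, hi⟩ := (hL p).mp hp'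
        rcases h1 i p hi with h4 | ⟨R', hR', τ, h5, h6⟩
        · exact Or.inl h4
        · refine Or.inr ⟨R', hR', τ, h5, fun P hP => ?_⟩
          obtain ⟨q, hq, hq'⟩ := h6 P hP
          exact ⟨q, List.mem_cons_of_mem _ ((hL q).mpr ⟨i, hq⟩), hq'⟩
    · intro p hp'
      rcases List.mem_cons.mp hp' with rfl | hp'
      · exact ⟨le_rfl, hs⟩
      · obtain ⟨i, hi⟩ := (hL p).mp hp'
        have := (h2 i) p hi
        exact ⟨by omega, this.2⟩

theorem TH.derivationH (H : TH S Φ s n h A) : ∃ (l : ℕ) (L : Fin l → Form X),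
    IsDerivationH S Φ h L ∧ (∀ i, (L i).size ≤ s) ∧ ∃ i, L i = A := by
  obtain ⟨l, h1, h2, p, hp, hp'⟩ := H.closed
  refine ⟨l.length, fun i => (l.get i).1, ⟨fun i => (l.get i).2, ?_, ?_⟩, ?_, ?_⟩
  · intro i
    exact (h2 _ (List.get_mem l i)).1
  · intro i
    rcases h1 _ (List.get_mem l i) with h4 | ⟨R, hR, σ, h5, h6⟩
    · exact Or.inl h4
    · refine Or.inr ⟨R, hR, σ, h5, fun P hP => ?_⟩
      obtain ⟨q, hq, hq1, hq2⟩ := h6 P hP
      obtain ⟨j, hj⟩ := List.mem_iff_get.mp hq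
      refine ⟨j, ?_, ?_⟩
      · show (l.get j).2 < (l.get i).2
        rw [hj]
        exact hq1
      · show (l.get j).1 = _
        rw [hj]
        exact hq2
  · intro i
    exact (h2 _ (List.get_mem l i)).2
  · obtain ⟨j, hj⟩ := List.mem_iff_get.mp hp
    refine ⟨j, ?_⟩
    show (l.get j).1 = _
    rw [hj]
    exact hp'

/-- At most `n` lines. -/
def TL (S : Set Rule) (Φ : Set (Form X)) (s n h : ℕ) (A : Form X) : Prop :=
  ∃ n' ≤ n, TH S Φ s n' h A

theorem TL.mono {n' h' : ℕ} (H : TL S Φ s n h A) (hn : n ≤ n') (hh : h ≤ h') :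
    TL S Φ s n' h' A := by
  obtain ⟨k, hk, H⟩ := H
  exact ⟨k, hk.trans hn, H.mono hh⟩

/-- Chains as trees. -/
theorem TL.of_chain {Ψ : Set (Form ℕ)} (c : List (Form ℕ)) (hc : Ub.Chain S Ψ ∅ c) :
    ∃ k : ℕ, 1 ≤ k ∧ ∀ (X : Type) (Φ : Set (Form X)) (s n h : ℕ) (τ : ℕ → Form X),
      (∀ P ∈ Ψ, TL S Φ s n h (P.subst τ)) → (∀ P ∈ c, (P.subst τ).size ≤ s) → 
      ∀ P ∈ c, TL S Φ s (k * (n + 1)) (h + c.length) (P.subst τ) := by
  induction hc with
  | nil => exact ⟨1, le_rfl, by simp⟩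
  | @cons φ l h1 h2 ih =>
    obtain ⟨k, hk1, hk⟩ := ih
    rcases h2 with h3 | ⟨R, hR, σ, h4, h5⟩
    · refine ⟨k, hk1, ?_⟩
      intro X Φ s n h τ hΨ hsz P hP
      rcases List.mem_cons.mp hP with rfl | hP
      · refine (hΨ _ h3).mono ?_ (Nat.le_add_right _ _)
        calc n ≤ n + 1 := Nat.le_succ _
          _ ≤ k * (n + 1) := Nat.le_mul_of_pos_left _ hk1
      · refine (hk X Φ s n h τ hΨ (fun Q hQ => hsz Q (List.mem_cons_of_mem _ hQ)) P hP).mono
          le_rfl ?_
        rw [List.length_cons]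
        omega
    · refine ⟨1 + (1 + R.prems.length) * k, by omega, ?_⟩
      intro X Φ s n h τ hΨ hsz P hP
      have hold := hk X Φ s n h τ hΨ (fun Q hQ => hsz Q (List.mem_cons_of_mem _ hQ))
      rcases List.mem_cons.mp hP with rfl | hP
      · have h6 : ∀ i : Fin R.prems.length, ∃ n' ≤ k * (n + 1),
            TH S Φ s n' (h + l.length) ((R.prems.get i).subst fun j => (σ j).subst τ) := by
          intro i
          have h7 : (R.prems.get i).subst σ ∈ l := by
            simpa using h5 _ (List.get_mem _ i)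
          obtain ⟨n', hn', H⟩ := hold _ h7
          rw [Ub.subst_subst] at H
          exact ⟨n', hn', H⟩
        choose nn hn' H using h6
        have h8 : P.subst τ = R.concl.subst fun j => (σ j).subst τ := by
          rw [← Ub.subst_subst, h4]
        refine ⟨1 + ∑ i, nn i, ?_, ?_⟩
        · have h9 : ∑ i, nn i ≤ R.prems.length * (k * (n + 1)) := by
            calc ∑ i, nn i ≤ ∑ _i : Fin R.prems.length, k * (n + 1) :=
                  Finset.sum_le_sum fun i _ => hn' i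
              _ = R.prems.length * (k * (n + 1)) := by simp
          have h10 : (1 + (1 + R.prems.length) * k) * (n + 1) =
              R.prems.length * (k * (n + 1)) + (n + 1) + k * (n + 1) := by ring
          omega
        · rw [h8]
          refine TH.rule R hR _ nn (h + l.length) H ?_
          rw [← h8]
          exact hsz _ List.mem_cons_self
      · refine (hold P hP).mono ?_ ?_
        · refine Nat.mul_le_mul_right _ ?_
          have : (1 + R.prems.length) * k = k + R.prems.length * k := by ring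
          omega
        · rw [List.length_cons]
          omega

/-- The simulation of the rules in `bfRules` by trees, with the constant `K`. -/
def SimT (S : Set Rule) (K : ℕ) : Prop :=
  ∀ R ∈ bfRules, ∀ (X : Type) (Φ : Set (Form X)) (t n h : ℕ) (σ : ℕ → Form X), 1 ≤ t →
    (∀ P ∈ R.prems, TL S Φ (K * t) n h (P.subst σ) ∧ (P.subst σ).size ≤ t) →
    (R.concl.subst σ).size ≤ t → TL S Φ (K * t) (K * (n + 1)) (h + K) (R.concl.subst σ)

theorem sim_tree_rule (hS : ImplComplete S) (R : Rule) (hR : R.Sound) : ∃ K0 : ℕ, ∀ K : ℕ,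
    K0 ≤ K → ∀ (X : Type) (Φ : Set (Form X)) (t n h : ℕ) (σ : ℕ → Form X), 1 ≤ t →
    (∀ P ∈ R.prems, TL S Φ (K * t) n h (P.subst σ) ∧ (P.subst σ).size ≤ t) →
    (R.concl.subst σ).size ≤ t → TL S Φ (K * t) (K * (n + 1)) (h + K) (R.concl.subst σ) := by
  classical
  obtain ⟨l, L, h1, i0, h2⟩ := hS R hR
  obtain ⟨c, hc, hlen, hmem⟩ := Ub.chain_of_derivation l L h1
  obtain ⟨k, hk1, hk⟩ := TL.of_chain c hc
  obtain ⟨K1, hK1⟩ : ∃ K1 : ℕ, ∀ A ∈ c, A.size ≤ K1 := by
    clear hlen hmem hc hk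
    induction c with
    | nil => exact ⟨0, by simp⟩
    | cons A c ih =>
      obtain ⟨K1, hK1⟩ := ih
      refine ⟨max A.size K1, fun B hB => ?_⟩
      rcases List.mem_cons.mp hB with rfl | hB
      · exact le_max_left _ _
      · exact (hK1 B hB).trans (le_max_right _ _)
  refine ⟨K1 + k + c.length, ?_⟩
  intro K hK X Φ t n h σ ht hP hcs
  let τ : ℕ → Form X := fun j =>
    if Ub.occ j R.concl ∨ ∃ P ∈ R.prems, Ub.occ j P then σ j else tt
  have hτs : ∀ j, (τ j).size ≤ t := by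
    intro j
    simp only [τ]
    split_ifs with h
    · rcases h with h | ⟨P, hP', h⟩
      · exact (Ub.size_occ σ j _ h).trans hcs
      · exact (Ub.size_occ σ j _ h).trans (hP P hP').2
    · exact ht
  have hτc : R.concl.subst τ = R.concl.subst σ :=
    Ub.subst_congr _ _ _ fun j hj => if_pos (Or.inl hj)
  have hτP : ∀ P ∈ R.prems, P.subst τ = P.subst σ := fun P hP' =>
    Ub.subst_congr _ _ _ fun j hj => if_pos (Or.inr ⟨P, hP', hj⟩)
  have h3 := hk X Φ (K * t) n h τ (fun P hP' => by rw [hτP P hP']; exact (hP P hP').1)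
    (fun P hP' => (Ub.size_subst τ ht hτs P).trans (Nat.mul_le_mul_right _
      ((hK1 P hP').trans (by omega)))) R.concl ((hmem _).mpr ⟨i0, h2⟩)
  rw [hτc] at h3
  exact h3.mono (Nat.mul_le_mul_right _ (by omega)) (by omega)

theorem exists_simT (hS : ImplComplete S) : ∃ K : ℕ, 1 ≤ K ∧ SimT S K := by
  classical
  have h1 : ∀ R : Rule, ∃ K0 : ℕ, R ∈ bfRules → ∀ K : ℕ, K0 ≤ K → ∀ (X : Type)
      (Φ : Set (Form X)) (t n h : ℕ) (σ : ℕ → Form X), 1 ≤ t →
      (∀ P ∈ R.prems, TL S Φ (K * t) n h (P.subst σ) ∧ (P.subst σ).size ≤ t) →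
      (R.concl.subst σ).size ≤ t → TL S Φ (K * t) (K * (n + 1)) (h + K) (R.concl.subst σ) := by
    intro R
    by_cases hR : R ∈ bfRules
    · obtain ⟨K, hK⟩ := sim_tree_rule hS R (bfRules_sound R hR)
      exact ⟨K, fun _ => hK⟩
    · exact ⟨0, fun h => absurd h hR⟩
  choose K0 hK0 using h1
  obtain ⟨K1, hK1⟩ : ∃ K1 : ℕ, ∀ R ∈ bfRules, K0 R ≤ K1 := by
    obtain ⟨M, hM⟩ := (bfRules_finite.image K0).bddAbove
    exact ⟨M, fun R hR => hM ⟨R, hR, rfl⟩⟩
  refine ⟨K1 + 1, by omega, ?_⟩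
  intro R hR
  exact hK0 R hR (K1 + 1) ((hK1 R hR).trans (Nat.le_succ _))

end Pool.Agent.MP_9cec2c_lc.SL.Up
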